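import Pool.Agent.Helper91.SL.Stm2
import Pool.Agent.Helper91.FD.Inv

/-!
Automorphisms.
-/

set_option autoImplicit false
set_option linter.unusedSectionVars false

namespace Pool.Agent.Helper91.SL

open Module FF Pool.Agent.W602.GT Pool.Agent.W603.LV Pool.Agent.TH143.GT Pool.Agent.Y220.OG
  Pool.Agent.Helper12.BL Pool.Agent.Helper91.HM Pool.Agent.Helper91.HM.Tw

open Pool.Agent.Helper91.FE (Mix IsTen)
open Pool.Agent.Helper91.FD (VReg VLog VInv dl IsFr derReg_map_iff derLog_map_iff)

theorem s_autMix : S_AutMix := by
  classical
  intro K _ _ n X δ N U φ τ h hN hX hNm hU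
  -- the conjugate of `U`
  obtain ⟨U', hU'⟩ : ∃ U' : Submodule K (Derivation ℂ K K), ∀ D, D ∈ U' ↔ (cjE h).symm D ∈ U := by
    have hs : ∀ (c : K) (D : Derivation ℂ K K),
        (cjE h).symm (c • D) = φ.symm c • (cjE h).symm D := by
      intro c D
      apply (cjE h).injective
      rw [AddEquiv.apply_symm_apply]
      change c • D = cj h (φ.symm c • (cjE h).symm D)
      rw [cj_smul, RingEquiv.apply_symm_apply]
      congr 1
      exact ((cjE h).apply_symm_apply D).symm
    exact ⟨{ carrier := {D | (cjE h).symm D ∈ U}
             add_mem' := fun {a b} ha hb => by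
               change (cjE h).symm (a + b) ∈ U
               rw [map_add]
               exact U.add_mem ha hb
             zero_mem' := by
               change (cjE h).symm 0 ∈ U
               rw [map_zero]
               exact U.zero_mem
             smul_mem' := fun c a ha => by
               change (cjE h).symm (c • a) ∈ U
               rw [hs]
               exact U.smul_mem _ ha }, fun D => Iff.rfl⟩
  have hcj : ∀ D ∈ U, cj h D ∈ U' := fun D hD => by
    rw [hU']
    change (cjE h).symm (cjE h D) ∈ U
    rw [AddEquiv.symm_apply_apply]
    exact hD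
  refine ⟨U', ?_, fun D hD D' hD' => ?_⟩
  · intro J _ _ hJ γ hγ t ht
    have hinv : ∀ P, VInv U'.subtype (mapPlace h P) ↔ VInv U.subtype P := by
      intro P
      constructor
      · intro hP v hv
        exact (derLog_map_iff h).1 (hP ⟨cj h v, hcj _ v.2⟩ ((derReg_map_iff h).2 hv))
      · intro hP v hv
        have h1 : (v : Derivation ℂ K K) = cj h ((cjE h).symm v) :=
          ((cjE h).apply_symm_apply (v : Derivation ℂ K K)).symm
        have h2 : DerReg (mapPlace h P) (v : Derivation ℂ K K) := hv
        rw [h1] at h2
        have h3 := hP ⟨(cjE h).symm v, (hU' _).1 v.2⟩ ((derReg_map_iff h).1 h2)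
        have h4 : DerLog (mapPlace h P) (cj h ((cjE h).symm (v : Derivation ℂ K K))) :=
          (derLog_map_iff h).2 h3
        rw [← h1] at h4
        exact h4
    have hdl : ∀ P ∈ X, dl δ U'.subtype (mapPlace h P) = dl δ U.subtype P := by
      intro P hP
      have h2 := (hX P hP (mapPlace h P) fun f => by
        rw [mapPlace_ord, RingEquiv.symm_apply_apply]).2
      by_cases hP' : VInv U.subtype P
      · rw [dl, dl, if_pos hP', if_pos ((hinv P).2 hP')]
      · rw [dl, dl, if_neg hP', if_neg fun h' => hP' ((hinv P).1 h'), h2]
    have hmix : Mix n X (dl δ U.subtype) (fun P => γ (mapPlace h P)) (fun _ => U)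
        (fun x : J → Derivation ℂ K K => φ.symm (t fun j => cj h (x j))) := by
      refine ⟨fun x hx j y hy z hz c => ?_, fun P hP hdiv x hx hr => ?_⟩
      · have h1 : ∀ u, (fun i => cj h (Function.update x j u i)) =
            Function.update (fun i => cj h (x i)) j (cj h u) := by
          intro u
          funext i
          by_cases hi : i = j
          · subst hi
            rw [Function.update_self, Function.update_self]
          · rw [Function.update_of_ne hi, Function.update_of_ne hi]
        change φ.symm _ = c * φ.symm _ + φ.symm _
        rw [h1, h1, h1, cj_add, cj_smul, ht.1 _ (fun i => hcj _ (hx i)) j _ (hcj _ hy) _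
          (hcj _ hz), map_add, map_mul, RingEquiv.symm_apply_apply]
      · have h1 := (hX P hP (mapPlace h P) fun f => by
          rw [mapPlace_ord, RingEquiv.symm_apply_apply]).1
        have h2 := ht.2 (mapPlace h P) h1 (divisorial_map h hdiv) (fun j => cj h (x j))
          (fun j => hcj _ (hx j)) fun j => (derReg_map_iff h).2 (hr j)
        rw [hdl P hP] at h2
        simp only [derLog_map_iff] at h2
        rcases h2 with h2 | h2
        · left
          change φ.symm _ = 0
          rw [h2, map_zero]
        · right
          rw [mapPlace_ord] at h2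
          exact h2
    intro x hx
    have h1 := hU J hJ _ (hNm γ hγ) _ hmix (fun j => (cjE h).symm (x j)) fun j =>
      (hU' _).1 (hx j)
    have h2 : (fun j => cj h ((cjE h).symm (x j))) = x := by
      funext j
      exact (cjE h).apply_symm_apply (x j)
    change φ.symm (t fun j => cj h ((cjE h).symm (x j))) = 0 at h1
    rw [h2] at h1
    exact (map_eq_zero_iff φ.symm φ.symm.injective).1 h1
  · have h1 : D' = cj h D := by
      apply Derivation.ext
      intro y
      rw [cj_apply, ← hD' (φ.symm y), RingEquiv.apply_symm_apply]
    rw [h1]
    exact hcj D hD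

end Pool.Agent.Helper91.SL
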