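import Pool.Agent.Helper91.SL.Stm

/-!
P5: brackets (helper93).
-/

set_option autoImplicit false
set_option linter.unusedSectionVars false

namespace Pool.Agent.Helper91.SL

open Module FF Pool.Agent.W602.GT Pool.Agent.W603.LV Pool.Agent.TH143.GT Pool.Agent.Y220.OG
  Pool.Agent.Helper12.BL Pool.Agent.Helper91.HM Pool.Agent.Helper91.HM.Tw

open Pool.Agent.Helper91.FE (Mix MixMov mix_zero)
open Pool.Agent.Helper91.FD (VReg VLog VInv dl IsFr brk dl_nonneg)

theorem p5 : S_Brk := by
  intro K _ _ n X δ N U hδ hU J _ _ hJ γ hγ t ht x hx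
  have hUW : U ≤ brk U := le_sup_left
  have hd : ∀ P ∈ X, 0 ≤ dl δ (brk U).subtype P := fun P hP => dl_nonneg (hδ P hP)
  have hdd : ∀ P, ¬ VInv U.subtype P → dl δ (brk U).subtype P = dl δ U.subtype P := by
    intro P hP
    rw [dl, dl, if_neg hP, if_neg]
    intro h1
    exact hP fun v hv => h1 ⟨v.1, hUW v.2⟩ hv
  have hbase : ∀ (J : Type) [Fintype J] [DecidableEq J], Nonempty J →
      0 < (Fintype.card J : ℤ) + 0 → ∀ t : (J → Derivation ℂ K K) → K,
        MixMov n X (dl δ (brk U).subtype) γ 0 (fun _ => U) t →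
          ∀ x, (∀ j, x j ∈ U) → t x = 0 := by
    intro J _ _ hJ _ t ht x hx
    refine hU J hJ γ hγ t ⟨ht.1.1, fun P hP hdiv y hy hr => ?_⟩ x hx
    have h1 := ht.1.2 P hP hdiv y hy hr
    by_cases hP' : VInv U.subtype P
    · have h3 : Nat.card {j : J // ¬ DerLog P (y j)} = 0 := by
        rw [Nat.card_eq_zero]
        exact Or.inl ⟨fun j => j.2 (hP' ⟨y j.1, hy j.1⟩ (hr j.1))⟩
      rw [h3, Nat.cast_zero, zero_mul] at h1 ⊢
      exact h1
    · rw [hdd P hP'] at h1
      exact h1
  have hmix : MixMov n X (dl δ (brk U).subtype) γ 0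
      (fun j : J => if j ∈ (∅ : Finset J) then U else brk U) t := by
    simp only [Finset.notMem_empty, if_false]
    exact ⟨ht, Fin.elim0, algebraicIndependent_empty_type_iff.2 (algebraMap ℂ K).injective,
      fun i => i.elim0⟩
  exact mix_zero hd hUW rfl hbase _ J hJ (by
    have := Fintype.card_pos (α := J)
    omega) ∅ rfl t hmix x (fun j => by
      rw [if_neg (Finset.notMem_empty j)]
      exact hx j)

end Pool.Agent.Helper91.SL
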