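import Pool.Agent.Helper91.SL.Min
import Pool.Agent.Helper91.FE.Final

/-!
Canonical divisors.
-/

set_option autoImplicit false
set_option linter.unusedSectionVars false

namespace Pool.Agent.Helper91.SL

open Module FF Pool.Agent.W602.GT Pool.Agent.W603.LV Pool.Agent.TH143.GT Pool.Agent.Y220.OG
  Pool.Agent.Helper12.BL Pool.Agent.Helper91.HM Pool.Agent.Helper91.HM.Tw

open Pool.Agent.Helper91.FE (IsTen IsFlag lt_inj)
open Pool.Agent.Helper91.FD (VReg VLog VInv dl IsFr mem Adp span_top finDim brk exists_adp li_of_fr)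

variable {K : Type} [Field K] [Algebra ℂ K] {V : Type} [AddCommGroup V] [Module K V] {n r : ℕ}
  {ι : V →ₗ[K] Derivation ℂ K K}

/-- `c` is the divisor of the form which is dual to the basis `B0` -/
def CanOf (n : ℕ) (X : Set (Place ℂ K)) (δ : Place ℂ K → ℝ) (ι : V →ₗ[K] Derivation ℂ K K)
    (B0 : Fin r → V) (c : Place ℂ K → ℝ) : Prop :=
  ∀ P ∈ X, Divisorial n P → ∀ (B : Fin r → V) (A : Matrix (Fin r) (Fin r) K), IsFr ι P B →
    B0 = lt A B → c P = dl δ ι P - P.ord A.det

theorem fr_reg {P : Place ℂ K} {E E' : Fin r → V} (hE : LinearIndependent K E)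
    (hf : IsFr ι P E) (hf' : ∀ i, VReg ι P (E' i)) {M : Matrix (Fin r) (Fin r) K}
    (h : E' = lt M E) : ∀ i j, P.Reg (M i j) := by
  choose c hc hcE using fun i => hf.2 (E' i) (hf' i)
  have h1 : M = Matrix.of c := by
    refine lt_inj hE ?_
    rw [← h]
    funext i
    exact hcE i
  intro i j
  rw [h1]
  exact hc i j

theorem fr_unit {P : Place ℂ K} {E E' : Fin r → V} (hE : LinearIndependent K E)
    (hE' : LinearIndependent K E') (hf : IsFr ι P E) (hf' : IsFr ι P E')
    {M M' : Matrix (Fin r) (Fin r) K} (h : E' = lt M E) (h' : E = lt M' E') :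
    P.ord M.det = 0 := by
  have h1 := det_reg (fr_reg hE hf hf'.1 h)
  have h2 := det_reg (fr_reg hE' hf' hf.1 h')
  have h3 : M' * M = 1 := by
    refine lt_inj hE ?_
    rw [← lt_lt, ← h, ← h', lt_one]
  have h4 : M'.det * M.det = 1 := by rw [← Matrix.det_mul, h3, Matrix.det_one]
  have h5 : M'.det ≠ 0 := left_ne_zero_of_mul (h4 ▸ one_ne_zero)
  have h6 : M.det ≠ 0 := right_ne_zero_of_mul (h4 ▸ one_ne_zero)
  have h7 : P.ord M'.det + P.ord M.det = 0 := by
    rw [← P.ord_mul h5 h6, h4, P.ord_one]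
  have h8 : (0 : ℝ) ≤ P.ord M.det := h1.resolve_left h6
  have h9 : (0 : ℝ) ≤ P.ord M'.det := h2.resolve_left h5
  have h10 : 0 ≤ P.ord M.det := by exact_mod_cast h8
  have h11 : 0 ≤ P.ord M'.det := by exact_mod_cast h9
  omega

theorem exists_canOf [Algebra.EssFiniteType ℂ K] (hn : Algebra.trdeg ℂ K = n)
    (hι : Function.Injective ι) [FiniteDimensional K V] (hr : finrank K V = r)
    (X : Set (Place ℂ K)) (δ : Place ℂ K → ℝ) {B0 : Fin r → V} (hB0 : LinearIndependent K B0) :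
    ∃ c, CanOf n X δ ι B0 c := by
  have h1 : ∀ P : Place ℂ K, ∃ x : ℝ, Divisorial n P → ∀ (B : Fin r → V)
      (A : Matrix (Fin r) (Fin r) K), IsFr ι P B → B0 = lt A B → x = dl δ ι P - P.ord A.det := by
    intro P
    by_cases hP : Divisorial n P
    · obtain ⟨E0, hE0, hf0, -⟩ := exists_adp hn hι hr hB0 (fun _ => 0) hP
      have hE0 := hE0.1
      obtain ⟨M0, hM0⟩ := exists_lt (D := B0) (span_top hr hE0)
      refine ⟨dl δ ι P - P.ord M0.det, fun _ E M hf hM => ?_⟩
      have hE := li_of_fr hn hι hr hP hB0 hf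
      obtain ⟨L, hL⟩ := exists_lt (D := E) (span_top hr hE0)
      obtain ⟨L', hL'⟩ := exists_lt (D := E0) (span_top hr hE)
      have h2 : M0 = M * L := by
        refine lt_inj hE0 ?_
        rw [← lt_lt, ← hL, ← hM, ← hM0]
      have h3 := fr_unit hE0 hE hf0 hf hL hL'
      have h4 : M.det ≠ 0 := by
        have h5 := hB0
        rw [hM] at h5
        exact (lt_li.1 h5).2
      have h5 : L.det ≠ 0 := by
        have h6 := hE
        rw [hL] at h6
        exact (lt_li.1 h6).2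
      rw [h2, Matrix.det_mul, P.ord_mul h4 h5, h3, add_zero]
    · exact ⟨0, fun h => absurd h hP⟩
  choose c hc using h1
  exact ⟨c, fun P _ hdiv B A hB hA => hc P hdiv B A hB hA⟩

/-- A nonzero section of `m K + γ` makes `m c + γ` effective. -/
theorem eff_of_sec [Algebra.EssFiniteType ℂ K] (hn : Algebra.trdeg ℂ K = n)
    (hι : Function.Injective ι) [FiniteDimensional K V] (hr : finrank K V = r)
    {X : Set (Place ℂ K)} {δ : Place ℂ K → ℝ} {B0 : Fin r → V} (hB0 : LinearIndependent K B0)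
    {c : Place ℂ K → ℝ} (hc : CanOf n X δ ι B0 c) {m : ℕ} {γ : Place ℂ K → ℝ}
    {ω : (Fin r → V) → K} (hω : IsSecD n X δ ι m γ ω) {D : Fin r → V} (hD : ω D ≠ 0) :
    Eff n X ((m : ℝ) • c + γ) := by
  obtain ⟨R, hR⟩ := exists_lt (D := D) (span_top hr hB0)
  rw [hR, hω.1] at hD
  refine ⟨ω B0, right_ne_zero_of_mul hD, fun P hP hdiv => ?_⟩
  obtain ⟨E, hE, hf, -⟩ := exists_adp hn hι hr hB0 (fun _ => 0) hdiv
  have hE := hE.1
  obtain ⟨A, hA⟩ := exists_lt (D := B0) (span_top hr hE)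
  have hA0 : A.det ≠ 0 := by
    have h1 := hB0
    rw [hA] at h1
    exact (lt_li.1 h1).2
  have h1 : ω B0 = A.det ^ m * ω E := by
    conv_lhs => rw [hA]
    exact hω.1 A E
  have h2 : ω E ≠ 0 := fun h0 => right_ne_zero_of_mul hD (by rw [h1, h0, mul_zero])
  have h3 := (hω.2 P hP hdiv E hf.1).resolve_left h2
  rw [h1, P.ord_mul (pow_ne_zero _ hA0) h2, P.ord_pow, Pi.add_apply, Pi.smul_apply, smul_eq_mul,
    hc P hP hdiv E A hf hA]
  push_cast
  linarith

/-- If `-c` is negative then there is a section. -/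
theorem secN_of_can [Algebra.EssFiniteType ℂ K] (hn : Algebra.trdeg ℂ K = n)
    (hι : Function.Injective ι) [FiniteDimensional K V] (hr : finrank K V = r)
    {X : Set (Place ℂ K)} {δ : Place ℂ K → ℝ} {B0 : Fin r → V} (hB0 : LinearIndependent K B0)
    {c : Place ℂ K → ℝ} (hc : CanOf n X δ ι B0 c) {N : Set (Place ℂ K → ℝ)} (h : -c ∈ N) :
    SecN r n X δ N ι := by
  choose R hR using fun B : Fin r → V => exists_lt (D := B) (span_top hr hB0)
  have hRlt : ∀ (A : Matrix (Fin r) (Fin r) K) (B : Fin r → V), R (lt A B) = A * R B := by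
    intro A B
    refine lt_inj hB0 ?_
    rw [← lt_lt, ← hR, ← hR]
  refine ⟨1, one_pos, -c, h, fun D => (R D).det, ⟨fun A D => ?_, fun P hP hdiv D hD => ?_⟩, B0, ?_⟩
  · beta_reduce
    rw [hRlt, Matrix.det_mul, pow_one]
  · beta_reduce
    obtain ⟨E, hE, hf, -⟩ := exists_adp hn hι hr hB0 (fun _ => 0) hdiv
    have hE := hE.1
    obtain ⟨A, hA⟩ := exists_lt (D := B0) (span_top hr hE)
    obtain ⟨Y, hY⟩ := exists_lt (D := D) (span_top hr hE)
    have hA0 : A.det ≠ 0 := by
      have h1 := hB0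
      rw [hA] at h1
      exact (lt_li.1 h1).2
    have h1 : A * R E = 1 := by
      refine lt_inj hB0 ?_
      rw [← lt_lt, ← hR, ← hA, lt_one]
    have h2 : A.det * (R E).det = 1 := by rw [← Matrix.det_mul, h1, Matrix.det_one]
    have h3 : (R E).det ≠ 0 := right_ne_zero_of_mul (h2 ▸ one_ne_zero)
    have h4 : P.ord (R E).det = -P.ord A.det := by
      have h5 : P.ord A.det + P.ord (R E).det = 0 := by
        rw [← P.ord_mul hA0 h3, h2, P.ord_one]
      linarith
    have h5 : Gr P (P.ord (R E).det) (R E).det := Or.inr le_rfl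
    rw [hY, hRlt, Matrix.det_mul]
    refine Gr.mono (le_of_eq ?_) ((det_reg (fr_reg hE hf hD hY)).mul h5)
    rw [h4, Pi.neg_apply, hc P hP hdiv E A hf hA]
    push_cast
    ring
  · have h1 : R B0 = 1 := by
      refine lt_inj hB0 ?_
      rw [← hR, lt_one]
    beta_reduce
    rw [h1, Matrix.det_one]
    exact one_ne_zero

/-- Sections with values in nonpositive divisors exist if and only if the canonical divisor is `≥ 0`. -/
theorem secN_iff [Algebra.EssFiniteType ℂ K] (hn : Algebra.trdeg ℂ K = n)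
    (hι : Function.Injective ι) [FiniteDimensional K V] (hr : finrank K V = r)
    {X : Set (Place ℂ K)} {δ : Place ℂ K → ℝ} {B0 : Fin r → V} (hB0 : LinearIndependent K B0)
    {c : Place ℂ K → ℝ} (hc : CanOf n X δ ι B0 c) {N : Set (Place ℂ K → ℝ)} (hN : Neg n X N) :
    SecN r n X δ N ι ↔ -c ∈ N := by
  refine ⟨?_, secN_of_can hn hι hr hB0 hc⟩
  rintro ⟨m, hm, γ, hγ, ω, hω, D, hD⟩
  have h1 := hN.eff _ (eff_of_sec hn hι hr hB0 hc hω hD)
  refine hN.sat m _ hm ?_
  have h2 := hN.add _ h1 _ hγ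
  have h3 : -((m : ℝ) • c + γ) + γ = (m : ℝ) • (-c) := by
    rw [smul_neg]
    abel
  rwa [h3] at h2

end Pool.Agent.Helper91.SL
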