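import Pool.Agent.Helper91.SL.Stm2

/-!
Package Q2: the members of the optimal flag contain all vectors killed by the tensors
(author: helper97).
-/

set_option autoImplicit false

namespace Pool.Agent.Helper91.SL

open Module Pool.Agent.Helper91.HM

theorem map_add_killed {K V : Type} [Field K] [AddCommGroup V] [Module K V] {d : ℕ}
    (s : MultilinearMap K (fun _ : Fin d => V) K) (F : Submodule K V)
    (hs : ∀ (x : Fin d → V) (k : Fin d), x k ∈ F → s x = 0) (x y : Fin d → V)
    (hy : ∀ k, y k ∈ F) : s (x + y) = s x := by
  classical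
  rw [MultilinearMap.map_add_univ, Finset.sum_eq_single Finset.univ]
  · rw [Finset.piecewise_univ]
  · intro S _ hS
    obtain ⟨k, hk⟩ : ∃ k, k ∉ S := by
      by_contra h
      push Not at h
      exact hS (Finset.eq_univ_iff_forall.2 h)
    refine hs _ k ?_
    rw [Finset.piecewise_eq_of_notMem _ _ _ hk]
    exact hy k
  · intro h
    exact absurd (Finset.mem_univ _) h

theorem s_contains : S_Contains := by
  intro K _ V _ _ r S g a F hr hD hmin hkill j f hf
  by_contra hnot
  have hv : g j ∈ (flag g a (a j) : Submodule K V) := Submodule.subset_span ⟨j, le_refl (a j), rfl⟩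
  have hv0 : g j ≠ 0 := hD.1.ne_zero j
  have hvf : g j ∉ Submodule.span K {f} := by
    rw [Submodule.mem_span_singleton]
    rintro ⟨c, hc⟩
    have hc0 : c ≠ 0 := by
      rintro rfl
      rw [zero_smul] at hc
      exact hv0 hc.symm
    apply hnot
    have h1 : f = c⁻¹ • g j := by rw [← hc, smul_smul, inv_mul_cancel₀ hc0, one_smul]
    rw [h1]
    exact Submodule.smul_mem _ _ hv
  obtain ⟨l, hl1, hl2⟩ := Submodule.exists_le_ker_of_notMem hvf
  have hlf : l f = 0 := hl2 (Submodule.mem_span_singleton_self f)
  have hlv : l (g j) ≠ 0 := hl1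
  let τ : V ≃+ V :=
    { toFun := fun x => x + l x • f
      invFun := fun x => x - l x • f
      left_inv := fun x => by
        simp [hlf]
      right_inv := fun x => by
        simp [hlf]
      map_add' := fun x y => by
        simp only [map_add, add_smul]
        abel }
  have hτx : ∀ x, τ x = x + l x • f := fun x => rfl
  have h1 := flag_stable hr hD hmin (RingEquiv.refl K) τ
    (fun c x => by
      rw [hτx, hτx, map_smul, smul_add, smul_smul]; rfl)
    (fun d s hs => ⟨s, hs, fun x hx => by
      have h2 : (fun k => τ (x k)) = x + fun k => l (x k) • f := by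
        funext k
        rw [hτx]; rfl
      rw [h2, map_add_killed s F (hkill d s hs) x _ (fun k => F.smul_mem _ hf)] at hx
      exact hx⟩)
    (a j) hv
  rw [hτx] at h1
  have h3 : l (g j) • f ∈ (flag g a (a j) : Submodule K V) := by
    have := Submodule.sub_mem _ h1 hv
    rwa [add_sub_cancel_left] at this
  apply hnot
  have h4 := Submodule.smul_mem _ (l (g j))⁻¹ h3
  rwa [smul_smul, inv_mul_cancel₀ hlv, one_smul] at h4

end Pool.Agent.Helper91.SL
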