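import Pool.Agent.Helper91.FE.Bracket
import Pool.Agent.Helper91.FE.Twist

/-!
Total orders of the divisor classes and distributions without tensors below zero.
-/

set_option autoImplicit false
set_option linter.unusedSectionVars false

namespace Pool.Agent.Helper91.SL

open Module FF Pool.Agent.W602.GT Pool.Agent.W603.LV Pool.Agent.TH143.GT Pool.Agent.Y220.OG
  Pool.Agent.Helper12.BL Pool.Agent.Helper91.HM Pool.Agent.Helper91.HM.Tw

open Pool.Agent.Helper91.FE (Mix)
open Pool.Agent.Helper91.FD (VReg VLog VInv dl IsFr brk)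

variable {K : Type} [Field K] [Algebra ℂ K]

/-- the divisor `γ` is linearly equivalent to an effective divisor on `X` -/
def Eff (n : ℕ) (X : Set (Place ℂ K)) (γ : Place ℂ K → ℝ) : Prop :=
  ∃ f : K, f ≠ 0 ∧ ∀ P ∈ X, Divisorial n P → 0 ≤ (P.ord f : ℝ) + γ P

/-- `N` is the set of the divisors `≤ 0` for a total preorder, compatible with addition and with
division by natural numbers, for which effective divisors are `≥ 0` -/
structure Neg (n : ℕ) (X : Set (Place ℂ K)) (N : Set (Place ℂ K → ℝ)) : Prop where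
  add : ∀ γ ∈ N, ∀ γ' ∈ N, γ + γ' ∈ N
  total : ∀ γ, γ ∈ N ∨ -γ ∈ N
  sat : ∀ (m : ℕ) (γ : Place ℂ K → ℝ), 0 < m → (m : ℝ) • γ ∈ N → γ ∈ N
  eff : ∀ γ, Eff n X γ → -γ ∈ N

/-- there are no tensors on `U` with values in divisors `≤ 0` -/
def NoMix (n : ℕ) (X : Set (Place ℂ K)) (δ : Place ℂ K → ℝ) (N : Set (Place ℂ K → ℝ))
    (U : Submodule K (Derivation ℂ K K)) : Prop :=
  ∀ (J : Type) [Fintype J] [DecidableEq J], Nonempty J → ∀ γ ∈ N,
    ∀ t : (J → Derivation ℂ K K) → K, Mix n X (dl δ U.subtype) γ (fun _ => U) t →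
      ∀ x, (∀ j, x j ∈ U) → t x = 0

/-- P1: Zorn's lemma -/
def S_Order : Prop :=
  ∀ (K : Type) [Field K] [Algebra ℂ K] (n : ℕ) (X : Set (Place ℂ K)) (c : Place ℂ K → ℝ),
    (∀ m : ℕ, 0 < m → ¬ Eff n X ((m : ℝ) • c)) →
      ∃ N : Set (Place ℂ K → ℝ), Neg n X N ∧ c ∈ N ∧ -c ∉ N

/-- P4: the sum of two distributions without tensors -/
def S_Sum : Prop :=
  ∀ (K : Type) [Field K] [Algebra ℂ K] (n : ℕ) (X : Set (Place ℂ K)) (δ : Place ℂ K → ℝ)
    (N : Set (Place ℂ K → ℝ)) (U U' : Submodule K (Derivation ℂ K K)),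
    FiniteDimensional K (Derivation ℂ K K) → (∀ P ∈ X, 0 ≤ δ P) → Neg n X N →
      NoMix n X δ N U → NoMix n X δ N U' → NoMix n X δ N (U ⊔ U')

/-- P4a: factorisation of a function of two variables by minors of maximal size -/
def S_Rank : Prop :=
  ∀ (K : Type) [Field K] (A B : Type) (t : A → B → K) (d : ℕ), (∃ a b, t a b ≠ 0) →
    (∀ (a : Fin (d + 1) → A) (b : Fin (d + 1) → B), (Matrix.of fun i j => t (a i) (b j)).det = 0) →
      ∃ (r : ℕ) (a0 : Fin r → A) (b0 : Fin r → B), 0 < r ∧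
        (Matrix.of fun i j => t (a0 i) (b0 j)).det ≠ 0 ∧
        ∀ (a : Fin r → A) (b : Fin r → B), (Matrix.of fun i j => t (a i) (b j)).det *
          (Matrix.of fun i j => t (a0 i) (b0 j)).det =
            (Matrix.of fun i j => t (a i) (b0 j)).det * (Matrix.of fun i j => t (a0 i) (b j)).det

end Pool.Agent.Helper91.SL
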