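import Pool.Agent.Helper91.SL.Rel
import Pool.Agent.Helper91.FE.Twist

/-!
Tensors with values in multiples of the canonical divisor.
-/

set_option autoImplicit false
set_option linter.unusedSectionVars false

namespace Pool.Agent.Helper91.SL

open Module FF Pool.Agent.W602.GT Pool.Agent.W603.LV Pool.Agent.TH143.GT Pool.Agent.Y220.OG
  Pool.Agent.Helper12.BL Pool.Agent.Helper91.HM Pool.Agent.Helper91.HM.Tw

open Pool.Agent.Helper91.FE (Mix IsTen ten_tw)
open Pool.Agent.Helper91.FD (VReg VLog VInv dl IsFr span_top exists_adp detM mulM mulM_apply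
  detM_lt finDim)

theorem s_pure : S_Pure := by
  intro K _ _ n X δ N U hfin h J _ _ hJ γ hγ t ht x hx
  obtain ⟨M, hM, e, T, hT, hTen⟩ := exists_ten hJ ht
  obtain ⟨B, hB⟩ : ∃ B : Fin (finrank K U) → U, LinearIndependent K B :=
    ⟨finBasis K U, (finBasis K U).linearIndependent⟩
  have h1 := h M hM γ hγ (fun _ => T) (hTen _) B hB
  have h2 := hT fun k => ⟨x (e.symm k), hx _⟩
  have h3 : T = 0 := h1
  rw [h3] at h2
  simp only [Equiv.symm_apply_apply] at h2
  exact h2.symm

theorem s_tw : S_Tw := by
  classical
  intro K _ _ _ n X δ N U hn hδ hδ1 hr0 hU a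
  obtain ⟨hfin, hfr⟩ := finDim hn
  have hι := Submodule.subtype_injective U
  obtain ⟨r, hr⟩ : ∃ r, r = finrank K U := ⟨_, rfl⟩
  rw [← hr] at hr0 ⊢
  induction a with
  | zero =>
    intro M hM γ hγ s hs B hB
    obtain ⟨T, hT⟩ : ∃ T : (Fin M → Derivation ℂ K K) → K, ∀ (y : Fin M → Derivation ℂ K K)
        (hy : ∀ j, y j ∈ U), T y = s B fun j => ⟨y j, hy j⟩ :=
      ⟨fun y => if hy : ∀ j, y j ∈ U then s B fun j => ⟨y j, hy j⟩ else 0,
        fun y hy => dif_pos hy⟩
    have hmix : Mix n X (dl δ U.subtype) γ (fun _ => U) T := by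
      refine ⟨fun x hx j y hy z hz a => ?_, fun P hP hdiv x hx hD => ?_⟩
      · have hupd : ∀ v ∈ U, ∀ i, Function.update x j v i ∈ U := by
          intro v hv i
          by_cases hi : i = j
          · subst hi
            rw [Function.update_self]
            exact hv
          · rw [Function.update_of_ne hi]
            exact hx i
        have hT' : ∀ v (hv : v ∈ U), T (Function.update x j v) =
            s B (Function.update (fun i => (⟨x i, hx i⟩ : U)) j ⟨v, hv⟩) := by
          intro v hv
          rw [hT _ (hupd v hv)]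
          congr 1
          funext i
          apply Subtype.ext
          change Function.update x j v i =
            ((Function.update (fun i => (⟨x i, hx i⟩ : U)) j ⟨v, hv⟩ i : U) :
              Derivation ℂ K K)
          by_cases hi : i = j
          · subst hi
            rw [Function.update_self, Function.update_self]
          · rw [Function.update_of_ne hi, Function.update_of_ne hi]
        rw [hT' _ (Submodule.add_mem _ (Submodule.smul_mem _ _ hy) hz), hT' _ hy, hT' _ hz]
        have h1 : (⟨a • y + z, Submodule.add_mem _ (Submodule.smul_mem _ _ hy) hz⟩ : U) =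
            a • ⟨y, hy⟩ + ⟨z, hz⟩ := rfl
        rw [h1, (s B).map_update_add, (s B).map_update_smul, smul_eq_mul]
      · rw [hT x hx]
        obtain ⟨E, hE, hEf, -⟩ := exists_adp hn hι hr.symm hB (fun _ => 0) hdiv
        obtain ⟨A, hA⟩ := exists_lt (D := E) (span_top hr.symm hB)
        have hA0 : A.det ≠ 0 := by
          have h1 := hE.1
          rw [hA] at h1
          exact (lt_li.1 h1).2
        have h2 := hs.1 A B hB hA0
        rw [← hA, Nat.cast_zero, zpow_zero, one_smul] at h2
        have h3 := hs.2 P hP hdiv E hEf (fun j => ⟨x j, hx j⟩) hD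
        rw [h2] at h3
        refine Gr.mono (le_of_eq ?_) h3
        have h4 : Nat.card {j : Fin M // ¬ VLog U.subtype P ⟨x j, hx j⟩} =
            Nat.card {j : Fin M // ¬ DerLog P (x j)} := rfl
        rw [h4]
        simp
    ext y
    have h1 := hU (Fin M) ⟨⟨0, by omega⟩⟩ γ hγ T hmix (fun j => (y j : Derivation ℂ K K))
      (fun j => (y j).2)
    rw [hT _ fun j => (y j).2] at h1
    exact h1
  | succ a ih =>
    intro M hM γ hγ s hs B hB
    rw [Nat.cast_succ] at hs
    have h3 := ten_tw hn hι hr.symm hδ hδ1 hB hs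
    have h4 := ih (M + r) (by omega) γ hγ _ h3 B hB
    ext x
    have h5 : mulM (s B) (detM hr.symm B) (Fin.append x B) = 0 := by
      rw [h4]
      rfl
    rw [mulM_apply] at h5
    have h6 : (fun j => Fin.append x B (Fin.castAdd r j)) = x := by
      funext j
      exact Fin.append_left _ _ _
    have h7 : (fun i => Fin.append x B (Fin.natAdd M i)) = lt (1 : Matrix (Fin r) (Fin r) K) B := by
      funext i
      rw [lt_one]
      exact Fin.append_right _ _ _
    rw [h6, h7, detM_lt hr.symm hB, Matrix.det_one, mul_one] at h5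
    rw [h5]
    rfl

end Pool.Agent.Helper91.SL
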