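import Pool.Agent.Helper91.SL.Stm3
import Pool.Agent.Helper91.SL.Tw

/-!
The determinant of a quotient of distributions.
-/

set_option autoImplicit false
set_option linter.unusedSectionVars false

namespace Pool.Agent.Helper91.SL

open Module FF Pool.Agent.W602.GT Pool.Agent.W603.LV Pool.Agent.TH143.GT Pool.Agent.Y220.OG
  Pool.Agent.Helper12.BL Pool.Agent.Helper91.HM Pool.Agent.Helper91.HM.Tw

open Pool.Agent.Helper91.FE (Mix IsTen)
open Pool.Agent.Helper91.FD (VReg VLog VInv dl IsFr mem Adp span_top exists_adp detM detM_lt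
  detM_change vlog_sum vreg_sum dl_nonneg finDim adj_reg reg_of_gr gr_of_reg li_of_fr)

section lin

variable {K : Type} [Field K] [Algebra ℂ K] {V : Type} [AddCommGroup V] [Module K V]
  [FiniteDimensional K V]

theorem sum_e {g w q : ℕ} (e : Fin g ≃ Fin w ⊕ Fin q) (f : Fin g → V) :
    ∑ i, f i = ∑ a, f (e.symm (Sum.inl a)) + ∑ b, f (e.symm (Sum.inr b)) := by
  rw [← Equiv.sum_comp e.symm f, Fintype.sum_sum_type]

theorem detM_block {g w q : ℕ} (hg : finrank K V = g) (e : Fin g ≃ Fin w ⊕ Fin q) {E : Fin g → V}
    (hE : LinearIndependent K E) (A : Matrix (Fin w) (Fin w) K) (Y : Matrix (Fin q) (Fin w) K)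
    (C : Matrix (Fin q) (Fin q) K) (v : Fin g → V)
    (hv1 : ∀ a, v (e.symm (Sum.inl a)) = ∑ b, A a b • E (e.symm (Sum.inl b)))
    (hv2 : ∀ a, v (e.symm (Sum.inr a)) = ∑ b, Y a b • E (e.symm (Sum.inl b)) +
      ∑ b, C a b • E (e.symm (Sum.inr b))) : detM hg E v = A.det * C.det := by
  have h1 : v = lt ((Matrix.fromBlocks A 0 Y C).submatrix e e) E := by
    funext i
    obtain ⟨s, rfl⟩ := e.symm.surjective i
    rw [lt, sum_e e]
    rcases s with a | a
    · rw [hv1]
      simp [Matrix.fromBlocks]
    · rw [hv2]
      simp [Matrix.fromBlocks]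
  rw [h1, detM_lt hg hE, Matrix.det_submatrix_equiv_self, Matrix.det_fromBlocks_zero₁₂]

end lin

variable {K : Type} [Field K] [Algebra ℂ K] {n : ℕ}

theorem derLog_sub {P : Place ℂ K} {D D' : Derivation ℂ K K} (hD : DerLog P D)
    (hD' : DerLog P D') : DerLog P (D - D') := by
  intro f
  have h1 : (D - D') f / f = D f / f + -(D' f / f) := by
    change (D f - D' f) / f = _
    ring
  rw [h1]
  exact P.reg_add (hD f) (P.reg_neg (hD' f))

theorem exists_mix {X : Set (Place ℂ K)} {d γ : Place ℂ K → ℝ} {U : Submodule K (Derivation ℂ K K)}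
    {M : ℕ} (T : MultilinearMap K (fun _ : Fin M => U) K)
    (hT : ∀ P ∈ X, Divisorial n P → ∀ y : Fin M → U, (∀ j, VReg U.subtype P (y j)) →
      Gr P (-((Nat.card {j : Fin M // ¬ VLog U.subtype P (y j)} : ℝ) * d P + γ P)) (T y)) :
    ∃ t : (Fin M → Derivation ℂ K K) → K, Mix n X d γ (fun _ => U) t ∧
      ∀ (y : Fin M → Derivation ℂ K K) (hy : ∀ j, y j ∈ U), t y = T fun j => ⟨y j, hy j⟩ := by
  classical
  obtain ⟨t, ht⟩ : ∃ t : (Fin M → Derivation ℂ K K) → K, ∀ (y : Fin M → Derivation ℂ K K)
      (hy : ∀ j, y j ∈ U), t y = T fun j => ⟨y j, hy j⟩ :=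
    ⟨fun y => if hy : ∀ j, y j ∈ U then T fun j => ⟨y j, hy j⟩ else 0,
      fun y hy => dif_pos hy⟩
  refine ⟨t, ⟨fun x hx j y hy z hz a => ?_, fun P hP hdiv x hx hD => ?_⟩, ht⟩
  · have hupd : ∀ v ∈ U, ∀ i, Function.update x j v i ∈ U := by
      intro v hv i
      by_cases hi : i = j
      · subst hi
        rw [Function.update_self]
        exact hv
      · rw [Function.update_of_ne hi]
        exact hx i
    have ht' : ∀ v (hv : v ∈ U), t (Function.update x j v) =
        T (Function.update (fun i => (⟨x i, hx i⟩ : U)) j ⟨v, hv⟩) := by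
      intro v hv
      rw [ht _ (hupd v hv)]
      congr 1
      funext i
      apply Subtype.ext
      change Function.update x j v i =
        ((Function.update (fun i => (⟨x i, hx i⟩ : U)) j ⟨v, hv⟩ i : U) :
          Derivation ℂ K K)
      by_cases hi : i = j
      · subst hi
        rw [Function.update_self, Function.update_self]
      · rw [Function.update_of_ne hi, Function.update_of_ne hi]
    rw [ht' _ (Submodule.add_mem _ (Submodule.smul_mem _ _ hy) hz), ht' _ hy, ht' _ hz]
    have h1 : (⟨a • y + z, Submodule.add_mem _ (Submodule.smul_mem _ _ hy) hz⟩ : U) =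
        a • ⟨y, hy⟩ + ⟨z, hz⟩ := rfl
    rw [h1, T.map_update_add, T.map_update_smul, smul_eq_mul]
  · rw [ht x hx]
    exact hT P hP hdiv (fun j => ⟨x j, hx j⟩) hD

theorem det_main [Algebra.EssFiniteType ℂ K] (hn : Algebra.trdeg ℂ K = n)
    {X : Set (Place ℂ K)} {δ : Place ℂ K → ℝ} (hδ : ∀ P ∈ X, 0 ≤ δ P) (hδ1 : ∀ P ∈ X, δ P ≤ 1)
    {W G : Submodule K (Derivation ℂ K K)} (hWG : W ≤ G) {w g q : ℕ} (hw : finrank K W = w)
    (hg : finrank K G = g) (hgq : g = w + q) {BW : Fin w → W} {BG : Fin g → G}
    {cW cG : Place ℂ K → ℝ} (hBW : LinearIndependent K BW) (hBG : LinearIndependent K BG)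
    (hcW : CanOf n X δ W.subtype BW cW) (hcG : CanOf n X δ G.subtype BG cG) :
    ∃ t : (Fin q → Derivation ℂ K K) → K,
      Mix n X (dl δ G.subtype) (cW - cG) (fun _ => G) t ∧
        ∀ F : Submodule K (Derivation ℂ K K), W ⊔ F = G → ∃ x, (∀ j, x j ∈ F) ∧ t x ≠ 0 := by
  classical
  obtain ⟨hfin, hfr⟩ := finDim hn
  obtain ⟨e⟩ : Nonempty (Fin g ≃ Fin w ⊕ Fin q) :=
    ⟨(finCongr hgq).trans finSumFinEquiv.symm⟩
  obtain ⟨inc, hinc⟩ : ∃ inc : W →ₗ[K] G, ∀ v, ((inc v : G) : Derivation ℂ K K) = v :=
    ⟨Submodule.inclusion hWG, fun v => rfl⟩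
  have hinj : Function.Injective inc := fun a b hab => by
    apply Subtype.ext
    rw [← hinc, ← hinc, hab]
  obtain ⟨vec, hvec⟩ : ∃ vec : (Fin q → G) → Fin g → G, ∀ x i,
      vec x i = Sum.elim (fun a => inc (BW a)) x (e i) := ⟨_, fun x i => rfl⟩
  have hvl : ∀ x a, vec x (e.symm (Sum.inl a)) = inc (BW a) := fun x a => by
    rw [hvec, Equiv.apply_symm_apply]
    rfl
  have hvr : ∀ x b, vec x (e.symm (Sum.inr b)) = x b := fun x a => by
    rw [hvec, Equiv.apply_symm_apply]
    rfl
  obtain ⟨T, hT⟩ : ∃ T : MultilinearMap K (fun _ : Fin q => G) K, ∀ x,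
      T x = detM hg BG (vec x) :=
    ⟨((detM hg BG).domDomCongr e).currySum fun a => inc (BW a), fun x => by
      rw [MultilinearMap.currySum_apply', MultilinearMap.domDomCongr_apply]
      congr 1
      funext i
      rw [hvec]⟩
  -- complements
  have hcompl : ∀ F : Submodule K (Derivation ℂ K K), W ⊔ F = G → ∃ x : Fin q → G,
      (∀ j, ((x j : G) : Derivation ℂ K K) ∈ F) ∧ LinearIndependent K (vec x) := by
    intro F hF
    obtain ⟨Wc, hWc⟩ : ∃ Wc : Submodule K G, Wc = W.comap G.subtype := ⟨_, rfl⟩
    have h1 : finrank K Wc = w := by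
      rw [hWc, (Submodule.comapSubtypeEquivOfLe hWG).finrank_eq, hw]
    have h2 : finrank K (G ⧸ Wc) = q := by
      have h3 := Submodule.finrank_quotient_add_finrank Wc
      omega
    have hbas := (finBasisOfFinrankEq K (G ⧸ Wc) h2).linearIndependent
    have h3 : ∀ y : G ⧸ Wc, ∃ x : G, (x : Derivation ℂ K K) ∈ F ∧
        Submodule.Quotient.mk (p := Wc) x = y := by
      intro y
      obtain ⟨z, rfl⟩ := Submodule.Quotient.mk_surjective Wc y
      have h4 : (z : Derivation ℂ K K) ∈ W ⊔ F := hF ▸ z.2
      obtain ⟨a, ha, b, hb, hab⟩ := Submodule.mem_sup.1 h4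
      have hbG : b ∈ G := hF ▸ Submodule.mem_sup_right hb
      refine ⟨⟨b, hbG⟩, hb, ?_⟩
      rw [Submodule.Quotient.eq, hWc, Submodule.mem_comap, map_sub]
      change b - (z : Derivation ℂ K K) ∈ W
      rw [← hab]
      have h5 : b - (a + b) = -a := by abel
      rw [h5]
      exact W.neg_mem ha
    choose f hf hf' using h3
    refine ⟨fun j => f (finBasisOfFinrankEq K (G ⧸ Wc) h2 j), fun j => hf _, ?_⟩
    have hmem : ∀ a, inc (BW a) ∈ Wc := fun a => by
      rw [hWc, Submodule.mem_comap]
      change ((inc (BW a) : G) : Derivation ℂ K K) ∈ W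
      rw [hinc]
      exact (BW a).2
    have h6 : LinearIndependent K (fun a => (⟨inc (BW a), hmem a⟩ : Wc)) := by
      apply LinearIndependent.of_comp Wc.subtype
      exact hBW.map' inc (LinearMap.ker_eq_bot.2 hinj)
    have h7 := LinearIndependent.sumElim_of_quotient h6
      (fun j => f (finBasisOfFinrankEq K (G ⧸ Wc) h2 j)) (by
        have h8 : (Submodule.Quotient.mk (p := Wc) ∘ fun j =>
            f (finBasisOfFinrankEq K (G ⧸ Wc) h2 j)) = finBasisOfFinrankEq K (G ⧸ Wc) h2 := by
          funext j
          exact hf' _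
        rw [h8]
        exact hbas)
    have h8 := h7.comp e e.injective
    have h9 : vec (fun j => f (finBasisOfFinrankEq K (G ⧸ Wc) h2 j)) =
        (Sum.elim (fun a => (inc (BW a) : G)) fun j =>
          f (finBasisOfFinrankEq K (G ⧸ Wc) h2 j)) ∘ e := by
      funext i
      rw [hvec]
      rfl
    rw [h9]
    exact h8
  have hTne : ∀ x, LinearIndependent K (vec x) → T x ≠ 0 := by
    intro x hx
    obtain ⟨A, hA⟩ := exists_lt (D := vec x) (span_top hg hBG)
    rw [hA] at hx
    rw [hT, hA, detM_lt hg hBG]
    exact (lt_li.1 hx).2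
  obtain ⟨t, ht, htT⟩ := exists_mix (n := n) (X := X) (d := dl δ G.subtype) (γ := cW - cG) T
    (fun P hP hdiv x hx => by
      -- adapted frames
      obtain ⟨x0, -, hx0⟩ := hcompl G (sup_eq_right.2 hWG)
      obtain ⟨ev, hev⟩ : ∃ ev : Fin g → ℤ, ∀ i, ev i = Sum.elim (fun _ => 0) (fun _ => 1) (e i) :=
        ⟨_, fun i => rfl⟩
      have hevl : ∀ a, ev (e.symm (Sum.inl a)) = 0 := fun a => by
        rw [hev, Equiv.apply_symm_apply]
        rfl
      have hevr : ∀ a, ev (e.symm (Sum.inr a)) = 1 := fun a => by
        rw [hev, Equiv.apply_symm_apply]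
        rfl
      obtain ⟨E, hE, hEf, hEad⟩ := exists_adp hn (Submodule.subtype_injective G) hg hx0 ev hdiv
      have hmem0 : ∀ D ∈ (mem (vec x0) ev 0 : Submodule K G), (D : Derivation ℂ K K) ∈ W := by
        intro D hD
        have h1 : (mem (vec x0) ev 0 : Submodule K G) ≤ W.comap G.subtype := by
          rw [mem, Submodule.span_le]
          rintro _ ⟨i, hi, rfl⟩
          obtain ⟨s, rfl⟩ := e.symm.surjective i
          rcases s with a | a
          · rw [hvl]
            change ((inc (BW a) : G) : Derivation ℂ K K) ∈ W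
            rw [hinc]
            exact (BW a).2
          · exfalso
            have h2 : ev (e.symm (Sum.inr a)) ≤ 0 := hi
            rw [hevr] at h2
            omega
        exact h1 hD
      have hmem1 : ∀ v : W, inc v ∈ (mem (vec x0) ev 0 : Submodule K G) := by
        intro v
        have h1 : v ∈ Submodule.span K (Set.range BW) := by
          rw [span_top hw hBW]
          exact Submodule.mem_top
        obtain ⟨c, hc⟩ := mem_span_fam.1 h1
        rw [← hc, map_sum]
        refine Submodule.sum_mem _ fun a _ => ?_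
        rw [map_smul]
        refine Submodule.smul_mem _ _ ?_
        rw [mem]
        refine Submodule.subset_span ⟨e.symm (Sum.inl a), ?_, hvl x0 a⟩
        change ev (e.symm (Sum.inl a)) ≤ 0
        rw [hevl]
      obtain ⟨EW, hEW⟩ : ∃ EW : Fin w → W, ∀ a, inc (EW a) = E (e.symm (Sum.inl a)) := by
        have h1 : ∀ a, ((E (e.symm (Sum.inl a)) : G) : Derivation ℂ K K) ∈ W := fun a => by
          have h2 := hE.2 (e.symm (Sum.inl a))
          rw [hevl] at h2
          exact hmem0 _ h2
        exact ⟨fun a => ⟨_, h1 a⟩, fun a => Subtype.ext (hinc _)⟩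
      have hEWc : ∀ a, ((EW a : W) : Derivation ℂ K K) = E (e.symm (Sum.inl a)) := fun a => by
        rw [← hinc, hEW]
      have hEWf : IsFr W.subtype P EW := by
        refine ⟨fun a => ?_, fun v hv => ?_⟩
        · change DerReg P ((EW a : W) : Derivation ℂ K K)
          rw [hEWc]
          exact hEf.1 _
        · obtain ⟨c, hc, hc0, hcv⟩ := hEad 0 (inc v) (hmem1 v) (by
            change DerReg P ((inc v : G) : Derivation ℂ K K)
            rw [hinc]
            exact hv)
          refine ⟨fun a => c (e.symm (Sum.inl a)), fun a => hc _, hinj ?_⟩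
          rw [hcv, sum_e e, map_sum]
          have h1 : ∑ b, c (e.symm (Sum.inr b)) • E (e.symm (Sum.inr b)) = 0 :=
            Finset.sum_eq_zero fun b _ => by
              by_cases h2 : c (e.symm (Sum.inr b)) = 0
              · rw [h2, zero_smul]
              · have h3 := hc0 _ h2
                rw [hevr] at h3
                omega
          rw [h1, add_zero]
          refine Finset.sum_congr rfl fun a _ => ?_
          rw [map_smul, hEW]
      have hEWl := li_of_fr hn (Submodule.subtype_injective W) hw hdiv hBW hEWf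
      obtain ⟨AW, hAW⟩ := exists_lt (D := BW) (span_top hw hEWl)
      obtain ⟨AG, hAG⟩ := exists_lt (D := BG) (span_top hg hE.1)
      have hAW0 : AW.det ≠ 0 := by
        have h1 := hBW
        rw [hAW] at h1
        exact (lt_li.1 h1).2
      have hAG0 : AG.det ≠ 0 := by
        have h1 := hBG
        rw [hAG] at h1
        exact (lt_li.1 h1).2
      have hcWP := hcW P hP hdiv EW AW hEWf hAW
      have hcGP := hcG P hP hdiv E AG hEf hAG
      choose c hc hcx using fun j => hEf.2 (x j) (hx j)
      obtain ⟨Y, hY⟩ : ∃ Y : Matrix (Fin q) (Fin w) K, ∀ j a, Y j a = c j (e.symm (Sum.inl a)) :=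
        ⟨Matrix.of fun j a => c j (e.symm (Sum.inl a)), fun j a => rfl⟩
      obtain ⟨C, hC⟩ : ∃ C : Matrix (Fin q) (Fin q) K, ∀ j a, C j a = c j (e.symm (Sum.inr a)) :=
        ⟨Matrix.of fun j a => c j (e.symm (Sum.inr a)), fun j a => rfl⟩
      have hxj : ∀ j, x j = ∑ b, Y j b • E (e.symm (Sum.inl b)) +
          ∑ b, C j b • E (e.symm (Sum.inr b)) := by
        intro j
        rw [hcx j, sum_e e]
        simp only [hY, hC]
      have hdet : T x = AG.det⁻¹ * (AW.det * C.det) := by
        rw [hT, hAG, detM_change hg hE.1 hAG0, detM_block hg e hE.1 AW Y C (vec x) (fun a => ?_)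
          fun j => ?_]
        · rw [hvl]
          have h1 : BW a = ∑ b, AW a b • EW b := congrFun hAW a
          rw [h1, map_sum]
          refine Finset.sum_congr rfl fun b _ => ?_
          rw [map_smul, hEW]
        · rw [hvr]
          exact hxj j
      have hCr : ∀ i j, P.Reg (C i j) := fun i j => by
        rw [hC]
        exact hc _ _
      have hCd : Gr P 0 C.det := det_reg hCr
      obtain ⟨k, hk⟩ : ∃ k : ℕ, k = Nat.card {j : Fin q // ¬ VLog G.subtype P (x j)} := ⟨_, rfl⟩
      have hk0 : (0 : ℝ) ≤ k := Nat.cast_nonneg _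
      have key : Gr P (dl δ G.subtype P - dl δ W.subtype P - k * dl δ G.subtype P) C.det := by
        have hdW := dl_nonneg (ι := W.subtype) (hδ P hP)
        by_cases hG : VInv G.subtype P
        · refine Gr.mono ?_ hCd
          rw [dl, if_pos hG]
          linarith
        have hdG : dl δ G.subtype P = δ P := by rw [dl, if_neg hG]
        by_cases hW : VInv W.subtype P
        · have hdW' : dl δ W.subtype P = 0 := by rw [dl, if_pos hW]
          rw [hdG, hdW']
          by_cases hlog : ∀ j, VLog G.subtype P (x j)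
          · by_cases h0 : C.det = 0
            · exact Or.inl h0
            have h3 : 0 ≤ P.ord C.det := (reg_of_gr hCd).resolve_left h0
            rcases h3.lt_or_eq with h4 | h4
            · right
              have h5 : (1 : ℤ) ≤ P.ord C.det := h4
              have h6 : (1 : ℝ) ≤ (P.ord C.det : ℝ) := by exact_mod_cast h5
              have h7 : k = 0 := by
                rw [hk, Nat.card_eq_zero]
                exact Or.inl ⟨fun j => j.2 (hlog _)⟩
              rw [h7]
              have := hδ1 P hP
              push_cast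
              linarith
            · exfalso
              apply hG
              have hlogW : ∀ a, VLog G.subtype P (E (e.symm (Sum.inl a))) := by
                intro a
                change DerLog P ((E (e.symm (Sum.inl a)) : G) : Derivation ℂ K K)
                rw [← hEWc]
                exact hW _ (hEWf.1 a)
              have hlogz : ∀ j, VLog G.subtype P (∑ b, C j b • E (e.symm (Sum.inr b))) := by
                intro j
                have h5 : VLog G.subtype P (∑ a, Y j a • E (e.symm (Sum.inl a))) :=
                  vlog_sum (fun a => by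
                    rw [hY]
                    exact hc _ _) hlogW
                have h6 : ∑ b, C j b • E (e.symm (Sum.inr b)) =
                    x j - ∑ a, Y j a • E (e.symm (Sum.inl a)) := by
                  rw [hxj j, add_sub_cancel_left]
                rw [h6, VLog, map_sub]
                exact derLog_sub (hlog j) h5
              have hunit : IsUnit C.det := isUnit_iff_ne_zero.2 h0
              have hlogE : ∀ b, VLog G.subtype P (E (e.symm (Sum.inr b))) := by
                intro b
                have h5 : E (e.symm (Sum.inr b)) =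
                    ∑ j, C⁻¹ b j • ∑ l, C j l • E (e.symm (Sum.inr l)) := by
                  have h6 : lt C⁻¹ (lt C fun l => E (e.symm (Sum.inr l))) =
                      fun l => E (e.symm (Sum.inr l)) := by
                    rw [lt_lt, Matrix.nonsing_inv_mul _ hunit, lt_one]
                  exact (congrFun h6 b).symm
                rw [h5]
                refine vlog_sum (fun j => ?_) hlogz
                rw [Matrix.inv_def, Matrix.smul_apply, smul_eq_mul]
                refine reg_of_gr ?_
                have h7 : Gr P 0 (Ring.inverse C.det) := by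
                  rw [Ring.inverse_eq_inv']
                  right
                  rw [P.ord_inv, ← h4]
                  norm_num
                have h8 := h7.mul (gr_of_reg (adj_reg hCr b j))
                rwa [add_zero] at h8
              intro v hv
              obtain ⟨c', hc', hcv⟩ := hEf.2 v hv
              rw [hcv]
              refine vlog_sum hc' fun i => ?_
              obtain ⟨s, rfl⟩ := e.symm.surjective i
              rcases s with a | a
              · exact hlogW a
              · exact hlogE a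
          · push Not at hlog
            obtain ⟨j, hj⟩ := hlog
            have h2 : 1 ≤ k := by
              rw [hk]
              have : Nonempty {i : Fin q // ¬ VLog G.subtype P (x i)} := ⟨⟨j, hj⟩⟩
              exact Nat.card_pos
            have h3 : (1 : ℝ) ≤ k := by exact_mod_cast h2
            refine Gr.mono ?_ hCd
            have := hδ P hP
            nlinarith
        · have hdW' : dl δ W.subtype P = δ P := by rw [dl, if_neg hW]
          rw [hdG, hdW']
          refine Gr.mono ?_ hCd
          have := hδ P hP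
          nlinarith
      have hAGo : Gr P (-(P.ord AG.det : ℝ)) AG.det⁻¹ := by
        right
        rw [P.ord_inv]
        push_cast
        exact le_rfl
      have hAWo : Gr P (P.ord AW.det) AW.det := Or.inr le_rfl
      rw [hdet, ← hk]
      refine Gr.mono (le_of_eq ?_) (hAGo.mul (hAWo.mul key))
      rw [Pi.sub_apply, hcWP, hcGP]
      ring)
  refine ⟨t, ht, fun F hF => ?_⟩
  obtain ⟨x, hxF, hx⟩ := hcompl F hF
  refine ⟨fun j => (x j : Derivation ℂ K K), hxF, ?_⟩
  rw [htT _ fun j => (x j).2]
  exact hTne x hx

theorem s_det : S_Det := by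
  intro K _ _ _ n X δ W G hn hδ hδ1 hWG hne BW BG cW cG hBW hBG hcW hcG
  obtain ⟨hfin, hfr⟩ := finDim hn
  have hlt : finrank K W < finrank K G := Submodule.finrank_lt_finrank_of_lt (lt_of_le_of_ne hWG hne)
  obtain ⟨q, hq⟩ : ∃ q, finrank K G = finrank K W + q := ⟨finrank K G - finrank K W, by omega⟩
  obtain ⟨t, ht, h⟩ := det_main hn hδ hδ1 hWG rfl rfl hq hBW hBG hcW hcG
  exact ⟨q, t, by omega, ht, h⟩

end Pool.Agent.Helper91.SL
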