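import Pool.Agent.Helper91.FE.FolDef

/-!
Total preorders of the divisor classes, canonical divisors of distributions and orbifold tensor
differentials on distributions with values in divisors.
-/

set_option autoImplicit false

namespace Pool.Agent.Helper91.Ord

open Module FF Pool.Agent.W602.GT Pool.Agent.Helper91.Fol2

variable {K : Type} [Field K] [Algebra ℂ K]

/-- A divisor with real coefficients: a coefficient for each place; only the prime divisors of `X`
will matter. -/
abbrev Divisor (K : Type) [Field K] [Algebra ℂ K] : Type := Place ℂ K → ℝ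

/-- The divisor `L` on `X` is linearly equivalent to an effective divisor: there is a rational function
`f ≠ 0` with `div f + L ≥ 0` on `X`, a nonzero section of `L`. -/
def IsEffective (n : ℕ) (X : Set (Place ℂ K)) (L : Divisor K) : Prop :=
  ∃ f : K, f ≠ 0 ∧ ∀ P ∈ X, Divisorial n P → 0 ≤ (P.ord f : ℝ) + L P

/-- `NonPos L` (read `L ≤ 0`) is a total preorder of the divisor classes of `X`: it is compatible with
addition and with division by natural numbers, any two divisors are comparable, and effective divisors
are `≥ 0`. (Here `L ≤ L'` means `L - L' ≤ 0`. Principal divisors are `≤ 0` and `≥ 0`.) -/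
structure IsOrder (n : ℕ) (X : Set (Place ℂ K)) (NonPos : Divisor K → Prop) : Prop where
  add : ∀ L L' : Divisor K, NonPos L → NonPos L' → NonPos (L + L')
  total : ∀ L : Divisor K, NonPos L ∨ NonPos (-L)
  div : ∀ (m : ℕ) (L : Divisor K), 0 < m → NonPos ((m : ℝ) • L) → NonPos L
  effective : ∀ L : Divisor K, IsEffective n X L → NonPos (-L)

/-- `α` is a degree of the divisors with finitely many nonzero coefficients: an additive function with
real values which is `≥ 0` on the divisors which are linearly equivalent to effective ones. For
instance the intersection number with a movable class is a degree. -/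
structure IsDegree (n : ℕ) (X : Set (Place ℂ K)) (α : (Place ℂ K →₀ ℝ) → ℝ) : Prop where
  add : ∀ L L' : Place ℂ K →₀ ℝ, α (L + L') = α L + α L'
  nonneg : ∀ L : Place ℂ K →₀ ℝ, IsEffective n X L → 0 ≤ α L

/-- `κ` is a divisor of `K_U + Δ_U` on `X`: for a basis `B₀` of the distribution `U`, whose dual
determinant is a rational canonical form of `U`, and for each prime divisor `P` of `X` the coefficient
of `κ` at `P` is the coefficient of `Δ_U` minus the order of the determinant of `B₀` with respect to a
basis of the vector fields in `U` which are regular at `P`. -/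
def IsCanonicalOn (n : ℕ) (X : Set (Place ℂ K)) (δ : Place ℂ K → ℝ)
    (U : Submodule K (Derivation ℂ K K)) (κ : Divisor K) : Prop :=
  ∃ B₀ : Fin (rk U) → Derivation ℂ K K, BasisIn U B₀ ∧ ∀ P ∈ X, Divisorial n P →
    ∀ (B : Fin (rk U) → Derivation ℂ K K) (A : Matrix (Fin (rk U)) (Fin (rk U)) K),
      FrameOn U P B → B₀ = trf A B → κ P = coeffOn δ U P - P.ord A.det

/-- `s` is an orbifold tensor differential of degree `N` on the distribution `U` with values in
`a (K_U + Δ_U) + L`, where `L` is any divisor.  For each `K`-basis `B` of `U` (which is used to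
trivialize the canonical bundle of `U`) `s B` is a `K`-multilinear function of `N` vector fields in `U`
(only its values on `U` matter), no symmetry being required.  It is multiplied by `det A ^ a` if `B` is
replaced by its linear transform under the matrix `A`.  For each prime divisor `P` of `X` and each
basis `B` of the vector fields in `U` which are regular at `P`, the value of `s B` on vector fields in
`U` which are regular at `P` and of which `q` are not logarithmic at `P` has a pole of order at most
`q + a` times the coefficient of `Δ_U` at `P` plus the coefficient of `L` at `P`. -/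
def TensorOn (n : ℕ) (X : Set (Place ℂ K)) (δ : Place ℂ K → ℝ) (U : Submodule K (Derivation ℂ K K))
    {N : ℕ} (a : ℤ) (L : Divisor K) (s : (Fin (rk U) → Derivation ℂ K K) →
      MultilinearMap K (fun _ : Fin N => Derivation ℂ K K) K) : Prop :=
  (∀ (A : Matrix (Fin (rk U)) (Fin (rk U)) K) (B : Fin (rk U) → Derivation ℂ K K), BasisIn U B →
    A.det ≠ 0 → ∀ D : Fin N → Derivation ℂ K K, (∀ j, D j ∈ U) →
      s (trf A B) D = A.det ^ a * s B D) ∧
  ∀ P ∈ X, Divisorial n P → ∀ B : Fin (rk U) → Derivation ℂ K K, FrameOn U P B →
    ∀ D : Fin N → Derivation ℂ K K, (∀ j, D j ∈ U ∧ DerReg P (D j)) → s B D = 0 ∨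
      -(((Nat.card {j : Fin N // ¬ DerLog P (D j)} : ℝ) + a) * coeffOn δ U P + L P) ≤
        (P.ord (s B D) : ℝ)

/-- There are no tensors below zero on `U`: each orbifold tensor differential on `U` of degree `N` with
values in `a (K_U + Δ_U) + L`, where `N, a ≥ 0`, `N + a rk U > 0` and `L ≤ 0`, is zero. -/
def NoTensorsBelow (n : ℕ) (X : Set (Place ℂ K)) (δ : Place ℂ K → ℝ) (NonPos : Divisor K → Prop)
    (U : Submodule K (Derivation ℂ K K)) : Prop :=
  ∀ (N a : ℕ) (L : Divisor K), 0 < N + rk U * a → NonPos L →
    ∀ s : (Fin (rk U) → Derivation ℂ K K) →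
      MultilinearMap K (fun _ : Fin N => Derivation ℂ K K) K, TensorOn n X δ U a L s →
        ∀ B, BasisIn U B → ∀ D : Fin N → Derivation ℂ K K, (∀ j, D j ∈ U) → s B D = 0

/-- The automorphism `φ` of the field `K` preserves the order of the divisors: if `L ≤ 0` then the
pull-back `L'` of `L`, whose coefficient at `P` is the coefficient of `L` at the image `P'` of `P`, is
`≤ 0`. -/
def PreservesOrder (NonPos : Divisor K → Prop) (φ : K ≃+* K) : Prop :=
  ∀ L L' : Divisor K, (∀ P P' : Place ℂ K, (∀ f, P'.ord (φ f) = P.ord f) → L' P = L P') →
    NonPos L → NonPos L'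

end Pool.Agent.Helper91.Ord
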