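import Pool.Agent.Helper91.SL.Def

/-! Package P1: the total order (author: helper97) -/

set_option autoImplicit false

namespace Pool.Agent.Helper91.SL

/-- A saturated additive subset is closed under multiples. -/
theorem nsmul_mem' {V : Type} [AddCommGroup V] [Module ℝ V] (P : Set V) (h0 : (0 : V) ∈ P)
    (hadd : ∀ a ∈ P, ∀ b ∈ P, a + b ∈ P) (a : V) (ha : a ∈ P) (m : ℕ) : (m : ℝ) • a ∈ P := by
  induction m with
  | zero => simpa using h0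
  | succ m ih =>
    have : ((m + 1 : ℕ) : ℝ) • a = (m : ℝ) • a + a := by push_cast; module
    rw [this]; exact hadd _ ih _ ha

theorem abs_order {V : Type} [AddCommGroup V] [Module ℝ V] (E : Set V) (h0 : (0 : V) ∈ E)
    (hadd : ∀ a ∈ E, ∀ b ∈ E, a + b ∈ E) (c : V) (hc : ∀ m : ℕ, 0 < m → (m : ℝ) • c ∉ E) :
    ∃ P : Set V, E ⊆ P ∧ (∀ a ∈ P, ∀ b ∈ P, a + b ∈ P) ∧
      (∀ (m : ℕ) (a : V), 0 < m → (m : ℝ) • a ∈ P → a ∈ P) ∧ (∀ a, a ∈ P ∨ -a ∈ P) ∧ c ∉ P := by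
  -- saturation
  have hsat : ∀ P : Set V, (0 : V) ∈ P → (∀ a ∈ P, ∀ b ∈ P, a + b ∈ P) → ∀ L : V,
      (∀ x ∈ {x : V | ∃ (m : ℕ) (k : ℕ) (p : V), 0 < m ∧ p ∈ P ∧ (m : ℝ) • x = p + (k : ℝ) • L},
        ∀ y ∈ {x : V | ∃ (m : ℕ) (k : ℕ) (p : V), 0 < m ∧ p ∈ P ∧ (m : ℝ) • x = p + (k : ℝ) • L},
        x + y ∈ {x : V | ∃ (m : ℕ) (k : ℕ) (p : V), 0 < m ∧ p ∈ P ∧
          (m : ℝ) • x = p + (k : ℝ) • L}) := by
    rintro P hP0 hPa L x ⟨m, k, p, hm, hp, h1⟩ y ⟨m', k', p', hm', hp', h2⟩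
    refine ⟨m * m', m' * k + m * k', (m' : ℝ) • p + (m : ℝ) • p', Nat.mul_pos hm hm',
      hPa _ (nsmul_mem' P hP0 hPa _ hp _) _ (nsmul_mem' P hP0 hPa _ hp' _), ?_⟩
    have e1 : ((m * m' : ℕ) : ℝ) • (x + y) =
        (m' : ℝ) • ((m : ℝ) • x) + (m : ℝ) • ((m' : ℝ) • y) := by
      push_cast; module
    rw [e1, h1, h2]; push_cast; module
  set F : Set (Set V) := {P | E ⊆ P ∧ (∀ a ∈ P, ∀ b ∈ P, a + b ∈ P) ∧
      (∀ (m : ℕ) (a : V), 0 < m → (m : ℝ) • a ∈ P → a ∈ P) ∧ c ∉ P} with hF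
  have hstart : {x : V | ∃ (m : ℕ) (k : ℕ) (p : V), 0 < m ∧ p ∈ E ∧
      (m : ℝ) • x = p + (k : ℝ) • (0 : V)} ∈ F := by
    refine ⟨?_, hsat E h0 hadd 0, ?_, ?_⟩
    · intro x hx
      exact ⟨1, 0, x, one_pos, hx, by simp⟩
    · rintro m x hm ⟨m', k, p, hm', hp, h1⟩
      refine ⟨m' * m, k, p, Nat.mul_pos hm' hm, hp, ?_⟩
      rw [← h1]; push_cast; module
    · rintro ⟨m, k, p, hm, hp, h1⟩
      refine hc m hm ?_
      rw [h1]; simpa using hp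
  obtain ⟨P, -, hPm⟩ := zorn_subset_nonempty F (by
    intro C hC hch hne
    refine ⟨⋃₀ C, ⟨?_, ?_, ?_, ?_⟩, fun s hs => Set.subset_sUnion_of_mem hs⟩
    · obtain ⟨s, hs⟩ := hne
      exact (hC hs).1.trans (Set.subset_sUnion_of_mem hs)
    · rintro a ⟨s, hs, ha⟩ b ⟨s', hs', hb⟩
      rcases hch.total hs hs' with h | h
      · exact ⟨s', hs', (hC hs').2.1 a (h ha) b hb⟩
      · exact ⟨s, hs, (hC hs).2.1 a ha b (h hb)⟩
    · rintro m a hm ⟨s, hs, ha⟩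
      exact ⟨s, hs, (hC hs).2.2.1 m a hm ha⟩
    · rintro ⟨s, hs, ha⟩
      exact (hC hs).2.2.2 ha) _ hstart
  obtain ⟨hPE, hPa, hPs, hPc⟩ := hPm.prop
  have hP0 : (0 : V) ∈ P := hPE h0
  -- one step
  have hstep : ∀ L, L ∉ P → ∃ (m : ℕ) (k : ℕ) (p : V), 0 < m ∧ 0 < k ∧ p ∈ P ∧
      (m : ℝ) • c = p + (k : ℝ) • L := by
    intro L hL
    by_contra hcon
    have hQ : {x : V | ∃ (m : ℕ) (k : ℕ) (p : V), 0 < m ∧ p ∈ P ∧
        (m : ℝ) • x = p + (k : ℝ) • L} ∈ F := by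
      refine ⟨?_, hsat P hP0 hPa L, ?_, ?_⟩
      · intro x hx
        exact ⟨1, 0, x, one_pos, hPE hx, by simp⟩
      · rintro m x hm ⟨m', k, p, hm', hp, h1⟩
        refine ⟨m' * m, k, p, Nat.mul_pos hm' hm, hp, ?_⟩
        rw [← h1]; push_cast; module
      · rintro ⟨m, k, p, hm, hp, h1⟩
        rcases Nat.eq_zero_or_pos k with h2 | h2
        · subst h2
          refine hPc (hPs m c hm ?_)
          rw [h1]; simpa using hp
        · exact hcon ⟨m, k, p, hm, h2, hp, h1⟩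
    have h3 : P ⊆ {x : V | ∃ (m : ℕ) (k : ℕ) (p : V), 0 < m ∧ p ∈ P ∧
        (m : ℝ) • x = p + (k : ℝ) • L} := fun x hx => ⟨1, 0, x, one_pos, hx, by simp⟩
    have h4 := hPm.le_of_ge hQ h3
    exact hL (h4 ⟨1, 1, 0, one_pos, hP0, by simp⟩)
  refine ⟨P, hPE, hPa, hPs, fun L => ?_, hPc⟩
  by_contra hcon
  rw [not_or] at hcon
  obtain ⟨m, k, p, hm, hk, hp, h1⟩ := hstep L hcon.1
  obtain ⟨m', k', p', hm', hk', hp', h2⟩ := hstep (-L) hcon.2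
  refine hPc (hPs (k' * m + k * m') c (by positivity) ?_)
  have h3 : ((k' * m + k * m' : ℕ) : ℝ) • c = (k' : ℝ) • p + (k : ℝ) • p' := by
    have : ((k' * m + k * m' : ℕ) : ℝ) • c =
        (k' : ℝ) • ((m : ℝ) • c) + (k : ℝ) • ((m' : ℝ) • c) := by
      push_cast; module
    rw [this, h1, h2]; module
  rw [h3]
  exact hPa _ (nsmul_mem' P hP0 hPa _ hp _) _ (nsmul_mem' P hP0 hPa _ hp' _)

open FF in
theorem s_order : S_Order := by
  intro K _ _ n X c hc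
  obtain ⟨P, hE, hadd, hsat, htot, hcP⟩ := abs_order {γ : Place ℂ K → ℝ | Eff n X γ}
    ⟨1, one_ne_zero, fun P _ _ => by rw [P.ord_one]; simp⟩
    (by
      rintro a ⟨f, hf, hfa⟩ b ⟨g, hg, hgb⟩
      refine ⟨f * g, mul_ne_zero hf hg, fun P hP hd => ?_⟩
      have h1 := hfa P hP hd
      have h2 := hgb P hP hd
      rw [P.ord_mul hf hg, Pi.add_apply]
      push_cast
      linarith)
    c hc
  refine ⟨{γ | -γ ∈ P}, ⟨?_, ?_, ?_, ?_⟩, ?_, ?_⟩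
  · intro a ha b hb
    show -(a + b) ∈ P
    rw [neg_add]; exact hadd _ ha _ hb
  · intro a
    show -a ∈ P ∨ - -a ∈ P
    rcases htot a with h | h
    · right; rwa [neg_neg]
    · left; exact h
  · intro m a hm ha
    show -a ∈ P
    refine hsat m _ hm ?_
    rw [smul_neg]; exact ha
  · intro a ha
    show - -a ∈ P
    rw [neg_neg]; exact hE ha
  · show -c ∈ P
    exact (htot c).resolve_left hcP
  · show ¬ (- -c ∈ P)
    rw [neg_neg]; exact hcP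

end Pool.Agent.Helper91.SL
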