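import Pool.Agent.Helper91.SL.Def

/-!
The sum of two distributions without tensors with values in divisors `≤ 0`.
-/

set_option autoImplicit false
set_option linter.unusedSectionVars false

namespace Pool.Agent.Helper91.SL

open Module FF Pool.Agent.W602.GT Pool.Agent.W603.LV Pool.Agent.TH143.GT Pool.Agent.Y220.OG
  Pool.Agent.Helper12.BL Pool.Agent.Helper91.HM Pool.Agent.Helper91.HM.Tw

open Pool.Agent.Helper91.FE (Mix)
open Pool.Agent.Helper91.FD (VReg VLog VInv dl IsFr brk)

section basic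

variable {K : Type} [Field K] [Algebra ℂ K] {n : ℕ}

theorem gr_neg {P : Place ℂ K} {c : ℝ} {f : K} (h : Gr P c f) : Gr P c (-f) := by
  rcases h with h | h
  · left
    rw [h, neg_zero]
  · right
    rwa [P.ord_neg]

theorem gr_det {r : ℕ} {P : Place ℂ K} {M : Matrix (Fin r) (Fin r) K} {u v : Fin r → ℝ}
    (h : ∀ i j, Gr P (u i + v j) (M i j)) : Gr P (∑ i, u i + ∑ j, v j) M.det := by
  rw [Matrix.det_apply]
  refine Gr.sum _ _ fun σ _ => ?_
  have h1 := Gr.prod (P := P) Finset.univ (fun i => M (σ i) i) (fun i => u (σ i) + v i)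
    fun i _ => h _ _
  rw [Finset.sum_add_distrib, Equiv.sum_comp σ u] at h1
  rcases Int.units_eq_one_or (Equiv.Perm.sign σ) with h2 | h2
  · rw [h2, one_smul]
    exact h1
  · rw [h2, Units.neg_smul, one_smul]
    exact gr_neg h1

/-- multilinear functions -/
def ML {J : Type} [DecidableEq J] (E : J → Submodule K (Derivation ℂ K K))
    (t : (J → Derivation ℂ K K) → K) : Prop :=
  ∀ x, (∀ j, x j ∈ E j) → ∀ j, ∀ y ∈ E j, ∀ z ∈ E j, ∀ c : K,
    t (Function.update x j (c • y + z)) = c * t (Function.update x j y) +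
      t (Function.update x j z)

theorem upd_mem {J : Type} [DecidableEq J] {E : J → Submodule K (Derivation ℂ K K)}
    {x : J → Derivation ℂ K K} (hx : ∀ j, x j ∈ E j) {j : J} {y : Derivation ℂ K K}
    (hy : y ∈ E j) (i : J) : Function.update x j y i ∈ E i := by
  by_cases hi : i = j
  · subst hi
    rwa [Function.update_self]
  · rw [Function.update_of_ne hi]
    exact hx i

theorem ML.zero {J : Type} [DecidableEq J] {E : J → Submodule K (Derivation ℂ K K)}
    {t : (J → Derivation ℂ K K) → K} (h : ML E t) {x : J → Derivation ℂ K K}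
    (hx : ∀ j, x j ∈ E j) (j : J) : t (Function.update x j 0) = 0 := by
  have h1 := h x hx j (x j) (hx j) (x j) (hx j) (-1)
  rw [neg_one_smul, neg_add_cancel, neg_one_mul, neg_add_cancel] at h1
  exact h1

theorem ML.mono {J : Type} [DecidableEq J] {E E' : J → Submodule K (Derivation ℂ K K)}
    {t : (J → Derivation ℂ K K) → K} (h : ML E t) (hE : ∀ j, E' j ≤ E j) : ML E' t :=
  fun x hx j y hy z hz c => h x (fun j => hE j (hx j)) j y (hE j hy) z (hE j hz) c

/-- the bundled multilinear map -/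
theorem ML.bundle {J : Type} [dJ : DecidableEq J] {U : Submodule K (Derivation ℂ K K)}
    {t : (J → Derivation ℂ K K) → K} (h : ML (fun _ => U) t) :
    ∃ T : MultilinearMap K (fun _ : J => U) K, ∀ y : J → U,
      T y = t (fun j => (y j : Derivation ℂ K K)) := by
  have hupd : ∀ (inst : DecidableEq J) (y : J → U) (k : J) (v : U),
      (fun j => ((@Function.update _ _ inst y k v j : U) : Derivation ℂ K K)) =
        Function.update (fun j => (y j : Derivation ℂ K K)) k (v : Derivation ℂ K K) := by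
    intro inst y k v
    funext j
    by_cases hj : j = k
    · subst hj
      rw [Function.update_self, Function.update_self]
    · rw [Function.update_of_ne hj, Function.update_of_ne hj]
  refine ⟨{ toFun := fun y => t (fun j => (y j : Derivation ℂ K K))
            map_update_add' := ?_
            map_update_smul' := ?_ }, fun y => rfl⟩
  · intro inst y k v w
    rw [hupd, hupd, hupd]
    have hi := Subsingleton.elim inst dJ
    subst hi
    have h1 := h (fun j => (y j : Derivation ℂ K K)) (fun j => (y j).2) k v v.2 w w.2 1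
    rw [one_smul, one_mul] at h1
    exact h1
  · intro inst y k c v
    rw [hupd, hupd]
    have hi := Subsingleton.elim inst dJ
    subst hi
    have h1 := h (fun j => (y j : Derivation ℂ K K)) (fun j => (y j).2) k v v.2 0
      (Submodule.zero_mem _) c
    rw [add_zero, ML.zero h (fun j => (y j).2), add_zero] at h1
    exact h1

theorem bdd_sum {P : Place ℂ K} {Y ι : Type} (R : Set Y) (s : Finset ι) (F : ι → Y → K)
    (h : ∀ i ∈ s, ∃ C : ℝ, ∀ y ∈ R, Gr P C (F i y)) :
    ∃ C : ℝ, ∀ y ∈ R, Gr P C (∑ i ∈ s, F i y) := by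
  classical
  induction s using Finset.induction_on with
  | empty =>
    refine ⟨0, fun y _ => ?_⟩
    rw [Finset.sum_empty]
    exact Gr.zero
  | insert a s ha ih =>
    obtain ⟨C1, hC1⟩ := ih fun i hi => h i (Finset.mem_insert_of_mem hi)
    obtain ⟨C2, hC2⟩ := h a (Finset.mem_insert_self a s)
    refine ⟨min C1 C2, fun y hy => ?_⟩
    rw [Finset.sum_insert ha]
    exact ((hC2 y hy).mono (min_le_right _ _)).add ((hC1 y hy).mono (min_le_left _ _))

/-- functionals are bounded on regular vector fields -/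
theorem bdd_fun [FiniteDimensional K (Derivation ℂ K K)] (P : Place ℂ K)
    (U : Submodule K (Derivation ℂ K K)) (l : Dual K U) :
    ∃ C : ℝ, ∀ D : U, DerReg P (D : Derivation ℂ K K) → Gr P C (l D) := by
  obtain ⟨ev, hev⟩ : ∃ ev : {g : K // P.Reg g} → Dual K U,
      ∀ g (D : U), ev g D = (D : Derivation ℂ K K) g.1 :=
    ⟨fun g => { toFun := fun D => (D : Derivation ℂ K K) g.1
                map_add' := fun D D' => rfl
                map_smul' := fun c D => rfl }, fun g D => rfl⟩
  obtain ⟨S, hS⟩ : ∃ S : Subspace K (Dual K U), S = Submodule.span K (Set.range ev) := ⟨_, rfl⟩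
  have hco : S.dualCoannihilator = ⊥ := by
    rw [eq_bot_iff]
    intro D hD
    rw [Submodule.mem_dualCoannihilator] at hD
    have h0 : ∀ g : K, P.Reg g → (D : Derivation ℂ K K) g = 0 := by
      intro g hg
      have h1 := hD (ev ⟨g, hg⟩) (by rw [hS]; exact Submodule.subset_span ⟨_, rfl⟩)
      rwa [hev] at h1
    rw [Submodule.mem_bot]
    apply Subtype.ext
    ext g
    change (D : Derivation ℂ K K) g = 0
    by_cases hg : P.Reg g
    · exact h0 g hg
    · have hg0 : g ≠ 0 := fun h => hg (Or.inl h)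
      have hinv : P.Reg g⁻¹ := by
        right
        rw [P.ord_inv]
        have : ¬ 0 ≤ P.ord g := fun h => hg (Or.inr h)
        omega
      have h2 := h0 _ hinv
      have h3 : (D : Derivation ℂ K K) (g * g⁻¹) = 0 := by
        rw [mul_inv_cancel₀ hg0]
        exact Derivation.map_one_eq_zero _
      rw [Derivation.leibniz, h2, smul_zero, zero_add, smul_eq_mul, mul_eq_zero] at h3
      exact h3.resolve_left (inv_ne_zero hg0)
  have htop : S = ⊤ := by
    rw [← Subspace.dualCoannihilator_dualAnnihilator_eq (W := S), hco,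
      Submodule.dualAnnihilator_bot]
  have hl : l ∈ Submodule.span K (Set.range ev) := by
    rw [← hS, htop]
    exact Submodule.mem_top
  induction hl using Submodule.span_induction with
  | mem x hx =>
    obtain ⟨g, rfl⟩ := hx
    refine ⟨0, fun D hD => ?_⟩
    rw [hev]
    rcases hD g.1 g.2 with h | h
    · exact Or.inl h
    · right
      exact_mod_cast h
  | zero => exact ⟨0, fun D _ => Gr.zero⟩
  | add x y _ _ hx hy =>
    obtain ⟨C1, h1⟩ := hx
    obtain ⟨C2, h2⟩ := hy
    refine ⟨min C1 C2, fun D hD => ?_⟩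
    rw [LinearMap.add_apply]
    exact ((h1 D hD).mono (min_le_left _ _)).add ((h2 D hD).mono (min_le_right _ _))
  | smul c x _ hx =>
    obtain ⟨C1, h1⟩ := hx
    refine ⟨P.ord c + C1, fun D hD => ?_⟩
    rw [LinearMap.smul_apply, smul_eq_mul]
    exact Gr.mul (Or.inr le_rfl) (h1 D hD)

/-- multilinear functions are bounded on regular vector fields -/
theorem ML.bdd [FiniteDimensional K (Derivation ℂ K K)] {J : Type} [Fintype J] [DecidableEq J]
    {U : Submodule K (Derivation ℂ K K)} {t : (J → Derivation ℂ K K) → K}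
    (h : ML (fun _ => U) t) (P : Place ℂ K) :
    ∃ C : ℝ, ∀ x, (∀ j, x j ∈ U) → (∀ j, DerReg P (x j)) → Gr P C (t x) := by
  obtain ⟨T, hT⟩ := h.bundle
  obtain ⟨m, b⟩ : ∃ m, Nonempty (Basis (Fin m) K U) := ⟨_, ⟨Module.finBasis K U⟩⟩
  obtain ⟨b⟩ := b
  choose C hC using fun i => bdd_fun P U (b.coord i)
  obtain ⟨C0, hC0⟩ := bdd_sum (P := P) {y : J → U | ∀ j, DerReg P (y j : Derivation ℂ K K)}
    Finset.univ (fun (I : J → Fin m) (y : J → U) => (∏ j, b.coord (I j) (y j)) *
      T (fun j => b (I j))) (by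
        intro I _
        refine ⟨∑ j, C (I j) + P.ord (T fun j => b (I j)), fun y hy => ?_⟩
        exact (Gr.prod Finset.univ _ _ fun j _ => hC (I j) (y j) (hy j)).mul (Or.inr le_rfl))
  refine ⟨C0, fun x hx hr => ?_⟩
  have h1 := hC0 (fun j => ⟨x j, hx j⟩) hr
  have h2 : t x = T (fun j => ⟨x j, hx j⟩) := (hT fun j => ⟨x j, hx j⟩).symm
  rw [h2]
  have h3 : (fun j => (⟨x j, hx j⟩ : U)) =
      fun j => ∑ i, b.coord i (⟨x j, hx j⟩ : U) • b i := by
    funext j
    exact (b.sum_repr _).symm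
  rw [h3, T.map_sum]
  simp only [T.map_smul_univ, smul_eq_mul]
  exact h1

end basic

section count

variable {K : Type} [Field K] [Algebra ℂ K] {n : ℕ}

open Classical in
/-- the weight of a vector field -/
noncomputable def wt (P : Place ℂ K) (D : Derivation ℂ K K) : ℝ := if DerLog P D then 0 else 1

theorem wt_nonneg (P : Place ℂ K) (D : Derivation ℂ K K) : 0 ≤ wt P D := by
  rw [wt]
  split_ifs
  · exact le_rfl
  · exact zero_le_one

theorem card_wt {J : Type} [Fintype J] (P : Place ℂ K) (x : J → Derivation ℂ K K) :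
    (Nat.card {j : J // ¬ DerLog P (x j)} : ℝ) = ∑ j, wt P (x j) := by
  classical
  rw [Nat.card_eq_fintype_card, Fintype.card_subtype, Finset.card_filter]
  push_cast
  refine Finset.sum_congr rfl fun j _ => ?_
  rw [wt]
  by_cases h : DerLog P (x j)
  · rw [if_pos h, if_neg (not_not.2 h)]
  · rw [if_neg h, if_pos h]

theorem card_dl {J : Type} [Fintype J] {δ : Place ℂ K → ℝ} {P : Place ℂ K}
    {U : Submodule K (Derivation ℂ K K)} {x : J → Derivation ℂ K K} (hx : ∀ j, x j ∈ U)
    (hr : ∀ j, DerReg P (x j)) :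
    (Nat.card {j : J // ¬ DerLog P (x j)} : ℝ) * dl δ U.subtype P =
      (Nat.card {j : J // ¬ DerLog P (x j)} : ℝ) * δ P := by
  by_cases hinv : VInv U.subtype P
  · have h1 : Nat.card {j : J // ¬ DerLog P (x j)} = 0 := by
      rw [Nat.card_eq_zero]
      exact Or.inl ⟨fun j => j.2 (hinv ⟨x j, hx j⟩ (hr j))⟩
    rw [h1, Nat.cast_zero, zero_mul, zero_mul]
  · rw [dl, if_neg hinv]

theorem mix_dl {X : Set (Place ℂ K)} {δ γ : Place ℂ K → ℝ} {J : Type} [Fintype J] [DecidableEq J]
    {U : Submodule K (Derivation ℂ K K)} {t : (J → Derivation ℂ K K) → K} :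
    Mix n X (dl δ U.subtype) γ (fun _ => U) t ↔ Mix n X δ γ (fun _ => U) t := by
  constructor
  · rintro ⟨h1, h2⟩
    refine ⟨h1, fun P hP hdiv x hx hr => ?_⟩
    rw [← card_dl hx hr]
    exact h2 P hP hdiv x hx hr
  · rintro ⟨h1, h2⟩
    refine ⟨h1, fun P hP hdiv x hx hr => ?_⟩
    rw [card_dl hx hr]
    exact h2 P hP hdiv x hx hr

/-- change of the index set -/
theorem mix_equiv {X : Set (Place ℂ K)} {d c : Place ℂ K → ℝ} {J J' : Type} [Fintype J]
    [DecidableEq J] [Fintype J'] [DecidableEq J'] (e : J' ≃ J)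
    {E : J → Submodule K (Derivation ℂ K K)} {E' : J' → Submodule K (Derivation ℂ K K)}
    (hE : ∀ j, E' j = E (e j)) {t : (J → Derivation ℂ K K) → K} (h : Mix n X d c E t) :
    Mix n X d c E' (fun y => t (fun j => y (e.symm j))) := by
  have hmem : ∀ y : J' → Derivation ℂ K K, (∀ j, y j ∈ E' j) → ∀ j, y (e.symm j) ∈ E j := by
    intro y hy j
    have h1 := hy (e.symm j)
    rwa [hE, Equiv.apply_symm_apply] at h1
  have hupd : ∀ (y : J' → Derivation ℂ K K) (k : J') (v : Derivation ℂ K K),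
      (fun j => Function.update y k v (e.symm j)) =
        Function.update (fun j => y (e.symm j)) (e k) v := by
    intro y k v
    funext j
    by_cases hj : j = e k
    · subst hj
      rw [Equiv.symm_apply_apply, Function.update_self, Function.update_self]
    · rw [Function.update_of_ne hj, Function.update_of_ne]
      intro h'
      apply hj
      rw [← h', Equiv.apply_symm_apply]
  refine ⟨fun x hx j y hy z hz a => ?_, fun P hP hdiv x hx hr => ?_⟩
  · change t (fun i => Function.update x j (a • y + z) (e.symm i)) =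
      a * t (fun i => Function.update x j y (e.symm i)) +
        t (fun i => Function.update x j z (e.symm i))
    rw [hupd, hupd, hupd]
    rw [hE] at hy hz
    exact h.1 _ (hmem x hx) _ _ hy _ hz _
  · have h1 := h.2 P hP hdiv _ (hmem x hx) (fun j => hr _)
    rw [card_wt, Equiv.sum_comp e.symm (fun j => wt P (x j))] at h1
    rw [card_wt]
    exact h1

/-- one of the parts of a nonzero tensor is not zero -/
theorem exists_part {J : Type} [Fintype J] [DecidableEq J]
    {U U' : Submodule K (Derivation ℂ K K)} {t : (J → Derivation ℂ K K) → K}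
    (h : ML (fun _ => U ⊔ U') t) {x : J → Derivation ℂ K K} (hx : ∀ j, x j ∈ U ⊔ U')
    (h0 : t x ≠ 0) : ∃ (S : Finset J) (y : J → Derivation ℂ K K),
      (∀ j ∈ S, y j ∈ U) ∧ (∀ j, j ∉ S → y j ∈ U') ∧ t y ≠ 0 := by
  obtain ⟨T, hT⟩ := h.bundle
  choose y hy z hz hyz using fun j => Submodule.mem_sup.1 (hx j)
  have hy' : ∀ j, y j ∈ U ⊔ U' := fun j => Submodule.mem_sup_left (hy j)
  have hz' : ∀ j, z j ∈ U ⊔ U' := fun j => Submodule.mem_sup_right (hz j)
  have h1 : T ((fun j => ⟨y j, hy' j⟩) + fun j => ⟨z j, hz' j⟩) = t x := by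
    rw [hT]
    congr 1
    funext j
    exact hyz j
  rw [T.map_add_univ] at h1
  obtain ⟨S, -, hS⟩ := Finset.exists_ne_zero_of_sum_ne_zero (h1 ▸ h0)
  rw [hT] at hS
  refine ⟨S, _, fun j hj => ?_, fun j hj => ?_, hS⟩
  · rw [Finset.piecewise_eq_of_mem _ _ _ hj]
    exact hy j
  · rw [Finset.piecewise_eq_of_notMem _ _ _ hj]
    exact hz j

end count

section minors

variable {K : Type} [Field K] [Algebra ℂ K] {n : ℕ}

/-- determinants of multilinear functions -/
theorem ml_det {r : ℕ} {J : Type} [DecidableEq J] {U : Submodule K (Derivation ℂ K K)}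
    {F : Fin r → (J → Derivation ℂ K K) → K} (hF : ∀ j, ML (fun _ => U) (F j)) :
    ML (fun _ : Fin r × J => U) (fun x => (Matrix.of fun i j => F j (fun k => x (i, k))).det) := by
  intro x hx p y hy z hz c
  obtain ⟨i0, k0⟩ := p
  have hrow : ∀ v : Derivation ℂ K K,
      (Matrix.of fun i j => F j (fun k => Function.update x (i0, k0) v (i, k))) =
        (Matrix.of fun i j => F j (fun k => x (i, k))).updateRow i0
          (fun j => F j (Function.update (fun k => x (i0, k)) k0 v)) := by
    intro v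
    ext i j
    rw [Matrix.updateRow_apply, Matrix.of_apply]
    by_cases hi : i = i0
    · subst hi
      rw [if_pos rfl]
      congr 1
      funext k
      by_cases hk : k = k0
      · subst hk
        rw [Function.update_self, Function.update_self]
      · rw [Function.update_of_ne hk, Function.update_of_ne]
        intro h
        exact hk (Prod.ext_iff.1 h).2
    · rw [if_neg hi, Matrix.of_apply]
      congr 1
      funext k
      rw [Function.update_of_ne]
      intro h
      exact hi (Prod.ext_iff.1 h).1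
  change (Matrix.of fun i j => F j (fun k => Function.update x (i0, k0) (c • y + z) (i, k))).det =
    c * (Matrix.of fun i j => F j (fun k => Function.update x (i0, k0) y (i, k))).det +
      (Matrix.of fun i j => F j (fun k => Function.update x (i0, k0) z (i, k))).det
  rw [hrow, hrow, hrow, ← Matrix.det_updateRow_smul, ← Matrix.det_updateRow_add]
  congr 2
  funext j
  exact hF j _ (fun k => hx _) k0 y hy z hz c

/-- the cut -/
theorem exists_cut {A B : Set ℝ} (hA : BddBelow A) (hB : BddAbove B)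
    (h : ∀ a ∈ A, ∀ b ∈ B, b ≤ a) : ∃ s : ℝ, (∀ a ∈ A, s ≤ a) ∧ ∀ b ∈ B, b ≤ s := by
  by_cases hne : B.Nonempty
  · exact ⟨sSup B, fun a ha => csSup_le hne fun b hb => h a ha b hb, fun b hb => le_csSup hB hb⟩
  · obtain ⟨s, hs⟩ := hA
    exact ⟨s, fun a ha => hs ha, fun b hb => absurd ⟨b, hb⟩ hne⟩

theorem neg_nsmul {X : Set (Place ℂ K)} {N : Set (Place ℂ K → ℝ)} (hN : Neg n X N)
    {γ : Place ℂ K → ℝ} (hγ : γ ∈ N) {r : ℕ} (hr : 0 < r) : (r : ℝ) • γ ∈ N := by
  induction r with
  | zero => exact absurd hr (lt_irrefl _)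
  | succ r ih =>
    by_cases h0 : r = 0
    · subst h0
      rw [zero_add, Nat.cast_one, one_smul]
      exact hγ
    · rw [Nat.cast_succ, add_smul, one_smul]
      exact hN.add _ (ih (Nat.pos_of_ne_zero h0)) _ hγ

theorem neg_or {X : Set (Place ℂ K)} {N : Set (Place ℂ K → ℝ)} (hN : Neg n X N)
    {L M : Place ℂ K → ℝ} (h : L + M ∈ N) : L ∈ N ∨ M ∈ N := by
  rcases hN.total L with h1 | h1
  · exact Or.inl h1
  · right
    have h2 := hN.add _ h _ h1
    rwa [show L + M + -L = M by abel] at h2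

/-- The separation of the variables. -/
theorem split_core (hRank : S_Rank) [FiniteDimensional K (Derivation ℂ K K)]
    {X : Set (Place ℂ K)} {δ : Place ℂ K → ℝ} (hδ : ∀ P ∈ X, 0 ≤ δ P)
    {U U' : Submodule K (Derivation ℂ K K)}
    {J1 J2 : Type} [Fintype J1] [DecidableEq J1] [Fintype J2] [DecidableEq J2]
    {γ : Place ℂ K → ℝ} {t : (J1 ⊕ J2 → Derivation ℂ K K) → K}
    (ht : Mix n X δ γ (Sum.elim (fun _ : J1 => U) (fun _ : J2 => U')) t)
    {x : J1 → Derivation ℂ K K} {y : J2 → Derivation ℂ K K} (hx : ∀ j, x j ∈ U)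
    (hy : ∀ j, y j ∈ U') (hxy : t (Sum.elim x y) ≠ 0) :
    ∃ (r : ℕ) (a0 : Fin r → J1 → Derivation ℂ K K) (b0 : Fin r → J2 → Derivation ℂ K K)
      (s : Place ℂ K → ℝ), 0 < r ∧ (∀ i j, a0 i j ∈ U) ∧ (∀ i j, b0 i j ∈ U') ∧
      (Matrix.of fun i j => t (Sum.elim (a0 i) (b0 j))).det ≠ 0 ∧
      Mix n X δ (fun P => - s P) (fun _ : Fin r × J1 => U) (fun x =>
        (Matrix.of fun i j => (fun j x => t (Sum.elim x (b0 j))) j (fun k => x (i, k))).det) ∧
      Mix n X δ (fun P => r * γ P + s P -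
        P.ord (Matrix.of fun i j => t (Sum.elim (a0 i) (b0 j))).det) (fun _ : Fin r × J2 => U')
        (fun y => (Matrix.of fun i j => (fun j y => t (Sum.elim (a0 j) y)) j
          (fun k => y (i, k))).det) := by
  classical
  -- multilinearity in the two groups of variables
  have hml1 : ∀ y : J2 → Derivation ℂ K K, (∀ j, y j ∈ U') →
      ML (fun _ => U) (fun x => t (Sum.elim x y)) := by
    intro y hy x hx j v hv w hw c
    have h3 := ht.1 (Sum.elim x y) (by
      rintro (j | j)
      · exact hx j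
      · exact hy j) (Sum.inl j) v hv w hw c
    rw [Sum.update_elim_inl, Sum.update_elim_inl, Sum.update_elim_inl] at h3
    exact h3
  have hml2 : ∀ x : J1 → Derivation ℂ K K, (∀ j, x j ∈ U) →
      ML (fun _ => U') (fun y => t (Sum.elim x y)) := by
    intro x hx y hy j v hv w hw c
    have h3 := ht.1 (Sum.elim x y) (by
      rintro (j | j)
      · exact hx j
      · exact hy j) (Sum.inr j) v hv w hw c
    rw [Sum.update_elim_inr, Sum.update_elim_inr, Sum.update_elim_inr] at h3
    exact h3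
  -- the minors
  obtain ⟨A, hA⟩ : ∃ A : Type, A = {a : J1 → Derivation ℂ K K // ∀ j, a j ∈ U} := ⟨_, rfl⟩
  subst hA
  choose T hT using fun a : {a : J1 → Derivation ℂ K K // ∀ j, a j ∈ U} => (hml2 a.1 a.2).bundle
  obtain ⟨r, a0, b0, hr, hdet, hfac⟩ := hRank K {a : J1 → Derivation ℂ K K // ∀ j, a j ∈ U}
    {b : J2 → Derivation ℂ K K // ∀ j, b j ∈ U'} (fun a b => t (Sum.elim a.1 b.1))
    (finrank K (MultilinearMap K (fun _ : J2 => U') K)) ⟨⟨x, hx⟩, ⟨y, hy⟩, hxy⟩ (by
      intro a b
      rw [← Matrix.exists_vecMul_eq_zero_iff]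
      have h3 : ¬ LinearIndependent K (fun i => T (a i)) := by
        intro h3
        have h4 := h3.fintype_card_le_finrank
        rw [Fintype.card_fin] at h4
        omega
      rw [Fintype.not_linearIndependent_iff] at h3
      obtain ⟨g, hg, i, hi⟩ := h3
      refine ⟨g, fun h => hi (by rw [h]; rfl), ?_⟩
      funext j
      have h5 := DFunLike.congr_fun hg (fun k => (⟨(b j).1 k, (b j).2 k⟩ : U'))
      rw [sum_apply] at h5
      simp only [smul_apply, hT, smul_eq_mul, zero_apply] at h5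
      exact h5)
  obtain ⟨Δ, hΔ⟩ : ∃ Δ : K, Δ = (Matrix.of fun i j => t (Sum.elim (a0 i).1 (b0 j).1)).det :=
    ⟨_, rfl⟩
  obtain ⟨α, hα⟩ : ∃ α : (Fin r × J1 → Derivation ℂ K K) → K, α = fun x =>
    (Matrix.of fun i j => (fun j x => t (Sum.elim x (b0 j).1)) j (fun k => x (i, k))).det :=
      ⟨_, rfl⟩
  obtain ⟨β, hβ⟩ : ∃ β : (Fin r × J2 → Derivation ℂ K K) → K, β = fun y =>
    (Matrix.of fun i j => (fun j y => t (Sum.elim (a0 j).1 y)) j (fun k => y (i, k))).det :=
      ⟨_, rfl⟩
  have hαml : ML (fun _ => U) α := by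
    rw [hα]
    exact ml_det fun j => hml1 _ (b0 j).2
  have hβml : ML (fun _ => U') β := by
    rw [hβ]
    exact ml_det fun j => hml2 _ (a0 j).2
  have hαβ : ∀ (x : Fin r × J1 → Derivation ℂ K K) (y : Fin r × J2 → Derivation ℂ K K),
      (∀ p, x p ∈ U) → (∀ p, y p ∈ U') →
      (Matrix.of fun i j => t (Sum.elim (fun k => x (i, k)) (fun k => y (j, k)))).det * Δ =
        α x * β y := by
    intro x y hx hy
    have h3 := hfac (fun i => ⟨fun k => x (i, k), fun k => hx _⟩)
      (fun i => ⟨fun k => y (i, k), fun k => hy _⟩)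
    rw [hΔ, hα, hβ]
    refine h3.trans ?_
    congr 1
    rw [← Matrix.det_transpose]
    rfl
  -- the cut
  have hcut : ∀ P ∈ X, Divisorial n P → ∃ s : ℝ,
      (∀ x : Fin r × J1 → Derivation ℂ K K, (∀ p, x p ∈ U) → (∀ p, DerReg P (x p)) →
        Gr P (s - (∑ p, wt P (x p)) * δ P) (α x)) ∧
      (∀ y : Fin r × J2 → Derivation ℂ K K, (∀ p, y p ∈ U') → (∀ p, DerReg P (y p)) →
        Gr P (P.ord Δ - r * γ P - s - (∑ p, wt P (y p)) * δ P) (β y)) := by
    intro P hP hdiv
    obtain ⟨C1, hC1⟩ := hαml.bdd P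
    obtain ⟨C2, hC2⟩ := hβml.bdd P
    obtain ⟨s, hs1, hs2⟩ := exists_cut
      (A := {a | ∃ x : Fin r × J1 → Derivation ℂ K K, (∀ p, x p ∈ U) ∧ (∀ p, DerReg P (x p)) ∧
        α x ≠ 0 ∧ a = P.ord (α x) + (∑ p, wt P (x p)) * δ P})
      (B := {b | ∃ y : Fin r × J2 → Derivation ℂ K K, (∀ p, y p ∈ U') ∧ (∀ p, DerReg P (y p)) ∧
        β y ≠ 0 ∧ b = P.ord Δ - r * γ P - (P.ord (β y) + (∑ p, wt P (y p)) * δ P)})
      (by
        refine ⟨C1, ?_⟩
        rintro a ⟨x, hx, hr', hne, rfl⟩
        have h3 := (hC1 x hx hr').resolve_left hne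
        have h4 : 0 ≤ (∑ p, wt P (x p)) * δ P :=
          mul_nonneg (Finset.sum_nonneg fun p _ => wt_nonneg _ _) (hδ P hP)
        linarith)
      (by
        refine ⟨P.ord Δ - r * γ P - C2, ?_⟩
        rintro a ⟨y, hy, hr', hne, rfl⟩
        have h3 := (hC2 y hy hr').resolve_left hne
        have h4 : 0 ≤ (∑ p, wt P (y p)) * δ P :=
          mul_nonneg (Finset.sum_nonneg fun p _ => wt_nonneg _ _) (hδ P hP)
        linarith)
      (by
        rintro a ⟨x, hx, hrx, hnex, rfl⟩ b ⟨y, hy, hry, hney, rfl⟩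
        have h3 := hαβ x y hx hy
        have h4 : Gr P (∑ i, (-((∑ k, wt P (x (i, k))) * δ P) - γ P) +
            ∑ j, (-((∑ k, wt P (y (j, k))) * δ P)))
              (Matrix.of fun i j => t (Sum.elim (fun k => x (i, k)) (fun k => y (j, k)))).det := by
          refine gr_det fun i j => ?_
          rw [Matrix.of_apply]
          have h5 := ht.2 P hP hdiv (Sum.elim (fun k => x (i, k)) (fun k => y (j, k))) (by
            rintro (k | k)
            · exact hx _
            · exact hy _) (by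
            rintro (k | k)
            · exact hrx _
            · exact hry _)
          rw [card_wt, Fintype.sum_sum_type] at h5
          refine h5.mono (le_of_eq ?_)
          simp only [Sum.elim_inl, Sum.elim_inr]
          ring
        have hne : α x * β y ≠ 0 := mul_ne_zero hnex hney
        have hne' : (Matrix.of fun i j =>
            t (Sum.elim (fun k => x (i, k)) (fun k => y (j, k)))).det ≠ 0 := by
          intro h0
          rw [h0, zero_mul] at h3
          exact hne h3.symm
        have h5 := h4.resolve_left hne'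
        have hΔ0 : Δ ≠ 0 := by rw [hΔ]; exact hdet
        have h6 : P.ord (Matrix.of fun i j =>
            t (Sum.elim (fun k => x (i, k)) (fun k => y (j, k)))).det + P.ord Δ =
              P.ord (α x) + P.ord (β y) := by
          rw [← P.ord_mul hne' hΔ0, ← P.ord_mul hnex hney, h3]
        have h7 : ((P.ord (Matrix.of fun i j =>
            t (Sum.elim (fun k => x (i, k)) (fun k => y (j, k)))).det : ℤ) : ℝ) + (P.ord Δ : ℤ) =
              (P.ord (α x) : ℤ) + (P.ord (β y) : ℤ) := by exact_mod_cast h6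
        rw [Finset.sum_sub_distrib, Finset.sum_neg_distrib, Finset.sum_neg_distrib,
          ← Finset.sum_mul, ← Finset.sum_mul, Finset.sum_const, Finset.card_univ,
          Fintype.card_fin, nsmul_eq_mul] at h5
        rw [Fintype.sum_prod_type, Fintype.sum_prod_type]
        linarith)
    refine ⟨s, fun x hx hr' => ?_, fun y hy hr' => ?_⟩
    · by_cases h0 : α x = 0
      · exact Or.inl h0
      · right
        have h3 := hs1 _ ⟨x, hx, hr', h0, rfl⟩
        linarith
    · by_cases h0 : β y = 0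
      · exact Or.inl h0
      · right
        have h3 := hs2 _ ⟨y, hy, hr', h0, rfl⟩
        linarith
  choose! s hs using hcut
  -- the two twists
  have hmα : Mix n X δ (fun P => - s P) (fun _ => U) α := by
    refine ⟨hαml, fun P hP hdiv x hx hr' => ?_⟩
    rw [card_wt]
    refine ((hs P hP hdiv).1 x hx hr').mono (le_of_eq ?_)
    ring
  have hmβ : Mix n X δ (fun P => r * γ P + s P - P.ord Δ) (fun _ => U') β := by
    refine ⟨hβml, fun P hP hdiv y hy hr' => ?_⟩
    rw [card_wt]
    refine ((hs P hP hdiv).2 y hy hr').mono (le_of_eq ?_)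
    ring
  refine ⟨r, fun i => (a0 i).1, fun i => (b0 i).1, s, hr, fun i => (a0 i).2, fun i => (b0 i).2,
    hdet, ?_, ?_⟩
  · rw [hα] at hmα
    exact hmα
  · rw [hβ, hΔ] at hmβ
    exact hmβ

/-- Mixed tensors vanish. -/
theorem sum_aux (hRank : S_Rank) [FiniteDimensional K (Derivation ℂ K K)] {X : Set (Place ℂ K)}
    {δ : Place ℂ K → ℝ} (hδ : ∀ P ∈ X, 0 ≤ δ P) {N : Set (Place ℂ K → ℝ)} (hN : Neg n X N)
    {U U' : Submodule K (Derivation ℂ K K)} (hU : NoMix n X δ N U) (hU' : NoMix n X δ N U')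
    {J1 J2 : Type} [Fintype J1] [DecidableEq J1] [Fintype J2] [DecidableEq J2]
    (h1 : Nonempty J1) (h2 : Nonempty J2) {γ : Place ℂ K → ℝ} (hγ : γ ∈ N)
    {t : (J1 ⊕ J2 → Derivation ℂ K K) → K}
    (ht : Mix n X δ γ (Sum.elim (fun _ : J1 => U) (fun _ : J2 => U')) t)
    {x : J1 → Derivation ℂ K K} {y : J2 → Derivation ℂ K K} (hx : ∀ j, x j ∈ U)
    (hy : ∀ j, y j ∈ U') : t (Sum.elim x y) = 0 := by
  classical
  by_contra hxy
  obtain ⟨r, a0, b0, s, hr, ha0, hb0, hdet, hmα, hmβ⟩ := split_core hRank hδ ht hx hy hxy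
  obtain ⟨Δ, hΔ⟩ : ∃ Δ : K, Δ = (Matrix.of fun i j => t (Sum.elim (a0 i) (b0 j))).det := ⟨_, rfl⟩
  rw [← hΔ] at hmβ
  have hsum : ((fun P => - s P) + fun P => r * γ P + s P - P.ord Δ) ∈ N := by
    have h3 : Eff n X (fun P => (P.ord Δ : ℝ)) := by
      refine ⟨Δ⁻¹, inv_ne_zero (by rw [hΔ]; exact hdet), fun P _ _ => ?_⟩
      rw [P.ord_inv]
      push_cast
      linarith
    have h4 := hN.add _ (neg_nsmul hN hγ hr) _ (hN.eff _ h3)
    have h5 : ((fun P => - s P) + fun P => r * γ P + s P - P.ord Δ) =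
        (r : ℝ) • γ + -(fun P : Place ℂ K => (P.ord Δ : ℝ)) := by
      funext P
      simp only [Pi.add_apply, Pi.smul_apply, Pi.neg_apply, smul_eq_mul]
      ring
    rw [h5]
    exact h4
  have hr0 : Nonempty (Fin r) := ⟨⟨0, hr⟩⟩
  rcases neg_or hN hsum with h3 | h3
  · exact hdet (hU (Fin r × J1) inferInstance _ h3 _ (mix_dl.2 hmα) (fun p => a0 p.1 p.2)
      (fun p => ha0 p.1 p.2))
  · have h4 := hU' (Fin r × J2) inferInstance _ h3 _ (mix_dl.2 hmβ) (fun p => b0 p.1 p.2)
      (fun p => hb0 p.1 p.2)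
    have h5 : (Matrix.of fun i j => t (Sum.elim (a0 j) (b0 i))).det = 0 := h4
    rw [← Matrix.det_transpose] at h5
    exact hdet h5

end minors

/-- P4b -/
theorem sum_of_rank (hRank : S_Rank) : S_Sum := by
  classical
  intro K _ _ n X δ N U U' hfin hδ hN hU hU' J _ _ hJ γ hγ t ht x hx
  by_contra h0
  rw [mix_dl] at ht
  obtain ⟨S, y, hy1, hy2, hy⟩ := exists_part (U := U) (U' := U') ht.1 hx h0
  obtain ⟨E, hE⟩ : ∃ E : J → Submodule K (Derivation ℂ K K), E = fun j => if j ∈ S then U else U' :=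
    ⟨_, rfl⟩
  have htE : Mix n X δ γ E t := by
    refine ht.mono fun j => ?_
    rw [hE]
    by_cases hj : j ∈ S
    · simp only [hj, if_true]
      exact le_sup_left
    · simp only [hj, if_false]
      exact le_sup_right
  obtain ⟨e, he1, he2⟩ : ∃ e : {j // j ∈ S} ⊕ {j // j ∉ S} ≃ J,
      (∀ j, e (Sum.inl j) = j.1) ∧ ∀ j, e (Sum.inr j) = j.1 :=
    ⟨Equiv.sumCompl _, fun j => rfl, fun j => rfl⟩
  have h2 : Mix n X δ γ (Sum.elim (fun _ : {j // j ∈ S} => U) (fun _ : {j // j ∉ S} => U'))
      (fun y => t (fun j => y (e.symm j))) := by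
    refine mix_equiv e (fun j => ?_) htE
    rcases j with j | j
    · rw [he1, hE]
      simp only [Sum.elim_inl, j.2, if_true]
    · rw [he2, hE]
      simp only [Sum.elim_inr, j.2, if_false]
  have hyy : (fun j => (Sum.elim (fun j : {j // j ∈ S} => y j.1)
      (fun j : {j // j ∉ S} => y j.1) (e.symm j))) = y := by
    funext j
    obtain ⟨i, rfl⟩ := e.surjective j
    rw [Equiv.symm_apply_apply]
    rcases i with i | i
    · rw [he1]
      rfl
    · rw [he2]
      rfl
  by_cases hS1 : Nonempty {j // j ∈ S}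
  · by_cases hS2 : Nonempty {j // j ∉ S}
    · have h3 := sum_aux hRank hδ hN hU hU' hS1 hS2 hγ h2 (x := fun j => y j.1)
        (y := fun j => y j.1) (fun j => hy1 _ j.2) (fun j => hy2 _ j.2)
      rw [hyy] at h3
      exact hy h3
    · have h3 : ∀ j, j ∈ S := fun j => by
        by_contra hj
        exact hS2 ⟨⟨j, hj⟩⟩
      exact hy (hU J hJ γ hγ t (mix_dl.2 (ht.mono fun j => le_sup_left)) y fun j => hy1 j (h3 j))
  · have h3 : ∀ j, j ∉ S := fun j hj => hS1 ⟨⟨j, hj⟩⟩
    exact hy (hU' J hJ γ hγ t (mix_dl.2 (ht.mono fun j => le_sup_right)) y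
      fun j => hy2 j (h3 j))

end Pool.Agent.Helper91.SL
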