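import Pool.Agent.Helper91.SL.Stm2
import Pool.Agent.Helper91.SL.Sum

/-!
The splitting of a mixed tensor into two tensors.
-/

set_option autoImplicit false
set_option linter.unusedSectionVars false

namespace Pool.Agent.Helper91.SL

open Module FF Pool.Agent.W602.GT Pool.Agent.W603.LV Pool.Agent.TH143.GT Pool.Agent.Y220.OG
  Pool.Agent.Helper12.BL Pool.Agent.Helper91.HM Pool.Agent.Helper91.HM.Tw

open Pool.Agent.Helper91.FE (Mix)
open Pool.Agent.Helper91.FD (VReg VLog VInv dl IsFr brk)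

/-- Q1 -/
theorem split_of_rank (hRank : S_Rank) : S_Split := by
  classical
  intro K _ _ n X d γ J _ _ S U U' F t hfin hd hS hS' ht hne
  obtain ⟨z, hz, htz⟩ := hne
  obtain ⟨E, hE⟩ : ∃ E : J → Submodule K (Derivation ℂ K K), ∀ j, E j = if j ∈ S then U else U' :=
    ⟨_, fun j => rfl⟩
  obtain ⟨e, he1, he2⟩ : ∃ e : {j // j ∈ S} ⊕ {j // j ∉ S} ≃ J,
      (∀ j, e (Sum.inl j) = j.1) ∧ ∀ j, e (Sum.inr j) = j.1 :=
    ⟨Equiv.sumCompl _, fun j => rfl, fun j => rfl⟩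
  have h2 : Mix n X d γ (Sum.elim (fun _ : {j // j ∈ S} => U) (fun _ : {j // j ∉ S} => U'))
      (fun y => t (fun j => y (e.symm j))) := by
    refine mix_equiv e (fun j => ?_) ht
    rcases j with j | j
    · rw [he1]
      simp only [Sum.elim_inl, j.2, if_true]
    · rw [he2]
      simp only [Sum.elim_inr, j.2, if_false]
  have hyy : (fun j => (Sum.elim (fun j : {j // j ∈ S} => z j.1)
      (fun j : {j // j ∉ S} => z j.1) (e.symm j))) = z := by
    funext j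
    obtain ⟨i, rfl⟩ := e.surjective j
    rw [Equiv.symm_apply_apply]
    rcases i with i | i
    · rw [he1]
      rfl
    · rw [he2]
      rfl
  have hz1 : ∀ j : {j // j ∈ S}, z j.1 ∈ U := fun j => by
    have := hz j.1
    rwa [if_pos j.2] at this
  have hz2 : ∀ j : {j // j ∉ S}, z j.1 ∈ U' := fun j => by
    have := hz j.1
    rwa [if_neg j.2] at this
  obtain ⟨r, a0, b0, s, hr, ha0, hb0, hdet, hmα, hmβ⟩ := split_core hRank hd h2
    (x := fun j => z j.1) (y := fun j => z j.1) hz1 hz2 (by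
      rw [hyy]
      exact htz)
  have hr0 : Nonempty (Fin r) := ⟨⟨0, hr⟩⟩
  have hn1 : Nonempty {j // j ∈ S} := by
    obtain ⟨j, hj⟩ := hS
    exact ⟨⟨j, hj⟩⟩
  have hn2 : Nonempty {j // j ∉ S} := by
    obtain ⟨j, hj⟩ := hS'
    exact ⟨⟨j, Finset.mem_compl.1 hj⟩⟩
  obtain ⟨m1, hm1⟩ : ∃ m, m = Fintype.card (Fin r × {j // j ∈ S}) := ⟨_, rfl⟩
  obtain ⟨m2, hm2⟩ : ∃ m, m = Fintype.card (Fin r × {j // j ∉ S}) := ⟨_, rfl⟩
  obtain ⟨e1⟩ : Nonempty (Fin m1 ≃ Fin r × {j // j ∈ S}) :=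
    ⟨(finCongr hm1).trans (Fintype.equivFin _).symm⟩
  obtain ⟨e2⟩ : Nonempty (Fin m2 ≃ Fin r × {j // j ∉ S}) :=
    ⟨(finCongr hm2).trans (Fintype.equivFin _).symm⟩
  obtain ⟨g, hg⟩ : ∃ g : K, g = (Matrix.of fun i j =>
      (fun y => t (fun j => y (e.symm j))) (Sum.elim (a0 i) (b0 j))).det := ⟨_, rfl⟩
  rw [← hg] at hmβ
  refine ⟨m1, m2, fun P => - s P, fun P => r * γ P + s P - P.ord g, g, r, _, _, ?_, ?_, ?_, ?_,
    mix_equiv e1 (fun _ => rfl) hmα, ?_, mix_equiv e2 (fun _ => rfl) hmβ, ?_, ?_⟩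
  · rw [hm1]
    exact Fintype.card_pos
  · rw [hm2]
    exact Fintype.card_pos
  · rw [hg]
    exact hdet
  · intro P _ _
    ring
  · refine ⟨fun k => a0 (e1 k).1 (e1 k).2, fun k => ha0 _ _, ?_⟩
    simp only [Equiv.apply_symm_apply]
    exact hdet
  · refine ⟨fun k => b0 (e2 k).1 (e2 k).2, fun k => hb0 _ _, ?_⟩
    simp only [Equiv.apply_symm_apply]
    rw [← Matrix.det_transpose]
    exact hdet
  · intro hF y hy hyF
    obtain ⟨k, hk⟩ := hyF
    refine Matrix.det_eq_zero_of_row_eq_zero (e2 k).1 fun j => ?_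
    rw [Matrix.of_apply]
    refine hF _ (fun i => ?_) ⟨(e2 k).2.1, (e2 k).2.2, ?_⟩
    · obtain ⟨i, rfl⟩ := e.surjective i
      rw [Equiv.symm_apply_apply]
      rcases i with i | i
      · rw [he1, if_pos i.2]
        exact ha0 _ _
      · rw [he2, if_neg i.2]
        exact hy _
    · have h3 : e.symm (e2 k).2.1 = Sum.inr (e2 k).2 := by
        rw [Equiv.symm_apply_eq, he2]
      rw [h3]
      change y (e2.symm ((e2 k).1, (e2 k).2)) ∈ F
      rw [Prod.mk.eta, Equiv.symm_apply_apply]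
      exact hk

end Pool.Agent.Helper91.SL
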