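import Pool.Agent.Helper91.SL.Rel
import Pool.Agent.Helper91.SL.OrdDef
import Pool.Agent.Helper91.SL.Order
import Pool.Agent.Helper91.SL.Split
import Pool.Agent.Helper91.SL.Contains
import Pool.Agent.Helper91.SL.Brk
import Pool.Agent.Helper36.SL.Rank

/-!
The main theorem in terms of the definitions of `OrdDef`.
-/

set_option autoImplicit false
set_option linter.unusedSectionVars false

namespace Pool.Agent.Helper91.SL

open Module FF Pool.Agent.W602.GT Pool.Agent.W603.LV Pool.Agent.TH143.GT Pool.Agent.Y220.OG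
  Pool.Agent.Helper12.BL Pool.Agent.Helper91.HM Pool.Agent.Helper91.HM.Tw

open Pool.Agent.Helper91.FE (IsTen Mix lt_inj dl_eq)
open Pool.Agent.Helper91.FD (VReg VLog VInv dl IsFr span_top finDim brk exists_adp li_of_fr dl_le)
open Pool.Agent.Helper91.Ord (Divisor IsEffective IsOrder IsCanonicalOn TensorOn NoTensorsBelow
  PreservesOrder)

variable {K : Type} [Field K] [Algebra ℂ K] {n : ℕ}

theorem neg_iff {X : Set (Place ℂ K)} {NonPos : Divisor K → Prop} :
    IsOrder n X NonPos ↔ Neg n X {L | NonPos L} :=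
  ⟨fun h => ⟨fun L hL L' hL' => h.add L L' hL hL', h.total, fun m L hm hL => h.div m L hm hL,
    h.effective⟩, fun h => ⟨fun L L' hL hL' => h.add L hL L' hL', h.total,
    fun m L hm hL => h.sat m L hm hL, h.eff⟩⟩

theorem canOf_of {X : Set (Place ℂ K)} {δ : Place ℂ K → ℝ} {U : Submodule K (Derivation ℂ K K)}
    {c : Divisor K} (h : IsCanonicalOn n X δ U c) :
    ∃ B : Fin (finrank K U) → U, LinearIndependent K B ∧ CanOf n X δ U.subtype B c := by
  obtain ⟨B₀, ⟨hB, hBU⟩, h⟩ := h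
  refine ⟨fun i => ⟨B₀ i, hBU i⟩, LinearIndependent.of_comp U.subtype hB,
    fun P hP hdiv E A hE hA => ?_⟩
  rw [dl_eq]
  refine h P hP hdiv (fun i => (E i : Derivation ℂ K K)) A ⟨fun i => ⟨(E i).2, hE.1 i⟩,
    fun G hG hGr => ?_⟩ ?_
  · obtain ⟨c, hc, hcE⟩ := hE.2 ⟨G, hG⟩ hGr
    refine ⟨c, hc, ?_⟩
    have h1 := congrArg U.subtype hcE
    rw [map_sum] at h1
    exact h1
  · funext i
    have h1 : (B₀ i : Derivation ℂ K K) = U.subtype (∑ j, A i j • E j) :=
      congrArg U.subtype (congrFun hA i)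
    rw [map_sum] at h1
    exact h1

theorem canonicalOn_of {X : Set (Place ℂ K)} {δ : Place ℂ K → ℝ}
    {U : Submodule K (Derivation ℂ K K)} {c : Divisor K}
    {B : Fin (finrank K U) → U} (hB : LinearIndependent K B) (h : CanOf n X δ U.subtype B c) :
    IsCanonicalOn n X δ U c := by
  refine ⟨fun i => (B i : Derivation ℂ K K), ⟨FE.li_coe hB, fun i => (B i).2⟩,
    fun P hP hdiv E A hE hA => ?_⟩
  rw [← dl_eq]
  refine h P hP hdiv (fun i => ⟨E i, (hE.1 i).1⟩) A ⟨fun i => (hE.1 i).2, fun v hv => ?_⟩ ?_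
  · obtain ⟨c, hc, hcE⟩ := hE.2 v.1 v.2 hv
    refine ⟨c, hc, Subtype.ext ?_⟩
    change (v : Derivation ℂ K K) = U.subtype (∑ i, c i • (⟨E i, (hE.1 i).1⟩ : U))
    rw [map_sum]
    exact hcE
  · funext i
    apply Subtype.ext
    change (B i : Derivation ℂ K K) = U.subtype (∑ j, A i j • (⟨E j, (hE.1 j).1⟩ : U))
    rw [map_sum]
    exact congrFun hA i

/-- If a multiple of the canonical divisor is effective then nonvanishing holds. -/
theorem kodaira_of_eff [Algebra.EssFiniteType ℂ K] (hn : Algebra.trdeg ℂ K = n)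
    {X : Set (Place ℂ K)} {δ : Place ℂ K → ℝ} (hδ : ∀ P ∈ X, 0 ≤ δ P)
    {B : Fin n → (⊤ : Submodule K (Derivation ℂ K K))} (hB : LinearIndependent K B)
    {c : Place ℂ K → ℝ} (hc : CanOf n X δ (⊤ : Submodule K (Derivation ℂ K K)).subtype B c)
    {m : ℕ} (hm : 0 < m) (h : Eff n X ((m : ℝ) • c)) : Tw.KodairaGe n X δ 0 := by
  obtain ⟨f, hf0, hf⟩ := h
  obtain ⟨C0, hC0def⟩ : ∃ C0 : Fin n → Derivation ℂ K K, C0 = fun i => (B i : Derivation ℂ K K) :=
    ⟨_, rfl⟩
  have hC0 : LinearIndependent K C0 := hC0def ▸ FE.li_coe hB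
  choose R hR using fun B : Fin n → Derivation ℂ K K => exists_lt (D := B) (li_span hn hC0)
  have hRlt : ∀ (A : Matrix (Fin n) (Fin n) K) (B : Fin n → Derivation ℂ K K),
      R (lt A B) = A * R B := by
    intro A B
    refine lt_inj hC0 ?_
    rw [← lt_lt, ← hR, ← hR]
  refine ⟨m, hm, fun _ B => (R B).det ^ m * f, fun _ => ⟨fun A B => ?_,
    fun P hP hdiv D hD => ?_⟩, C0, ?_, algebraicIndependent_empty_type⟩
  · change (R (lt A B)).det ^ m * f = A.det ^ m * ((R B).det ^ m * f)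
    rw [hRlt, Matrix.det_mul, mul_pow, mul_assoc]
  · change Gr P (-(m * δ P)) ((R D).det ^ m * f)
    obtain ⟨E, hE, hfr⟩ := exists_frame hn hdiv
    obtain ⟨M, hM⟩ := exists_lt (D := C0) (li_span hn hE)
    obtain ⟨Y, hY⟩ := exists_lt (D := D) (li_span hn hE)
    have hYr := det_reg (FE.frame_reg hE hfr hD hY)
    have hM0 : M.det ≠ 0 := by
      have h1 := hC0
      rw [hM] at h1
      exact (lt_li.1 h1).2
    have h1 : M * R E = 1 := by
      refine lt_inj hC0 ?_
      rw [← lt_lt, ← hR, ← hM, lt_one]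
    have h2 : M.det * (R E).det = 1 := by rw [← Matrix.det_mul, h1, Matrix.det_one]
    have h3 : (R E).det ≠ 0 := right_ne_zero_of_mul (h2 ▸ one_ne_zero)
    have h4 : P.ord (R E).det = -P.ord M.det := by
      have h5 : P.ord M.det + P.ord (R E).det = 0 := by
        rw [← P.ord_mul hM0 h3, h2, P.ord_one]
      linarith
    have h5 : c P = dl δ (⊤ : Submodule K (Derivation ℂ K K)).subtype P - P.ord M.det := by
      refine hc P hP hdiv (fun i => ⟨E i, Submodule.mem_top⟩) M ⟨fun i => hfr.1 i,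
        fun v hv => ?_⟩ ?_
      · obtain ⟨c, hc, hcE⟩ := hfr.2 v.1 hv
        refine ⟨c, hc, Subtype.ext ?_⟩
        change (v : Derivation ℂ K K) = (⊤ : Submodule K (Derivation ℂ K K)).subtype
          (∑ i, c i • (⟨E i, Submodule.mem_top⟩ : (⊤ : Submodule K (Derivation ℂ K K))))
        rw [map_sum]
        exact hcE
      · funext i
        apply Subtype.ext
        change (B i : Derivation ℂ K K) = (⊤ : Submodule K (Derivation ℂ K K)).subtype
          (∑ j, M i j • (⟨E j, Submodule.mem_top⟩ : (⊤ : Submodule K (Derivation ℂ K K))))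
        rw [map_sum]
        have h6 := congrFun hM i
        rw [hC0def] at h6
        exact h6
    have h6 : Gr P (P.ord (R E).det) (R E).det := Or.inr le_rfl
    have h7 : Gr P (P.ord f) f := Or.inr le_rfl
    have h8 := hf P hP hdiv
    rw [Pi.smul_apply, smul_eq_mul, h5] at h8
    rw [hY, hRlt, Matrix.det_mul]
    refine Gr.mono ?_ ((Gr.pow (hYr.mul h6) m).mul h7)
    rw [h4]
    have h9 : (m : ℝ) * dl δ (⊤ : Submodule K (Derivation ℂ K K)).subtype P ≤ m * δ P :=
      mul_le_mul_of_nonneg_left (dl_le (hδ P hP)) (Nat.cast_nonneg _)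
    push_cast
    linarith
  · have h1 : R C0 = 1 := by
      refine lt_inj hC0 ?_
      rw [← hR, lt_one]
    change (R C0).det ^ m * f ≠ 0
    rw [h1, Matrix.det_one, one_pow, one_mul]
    exact hf0

theorem noMix_bot {X : Set (Place ℂ K)} {δ : Place ℂ K → ℝ} {N : Set (Place ℂ K → ℝ)} :
    NoMix n X δ N (⊥ : Submodule K (Derivation ℂ K K)) := by
  intro J _ _ hJ γ _ t ht x hx
  obtain ⟨j⟩ := hJ
  have h1 : Function.update x j 0 = x := by
    rw [← (Submodule.mem_bot K).1 (hx j), Function.update_eq_self]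
  rw [← h1]
  exact ht.zero hx j

end Pool.Agent.Helper91.SL
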