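import Pool.Agent.Helper91.SL.Fin

/-!
The main theorem in terms of the definitions of `OrdDef`.
-/

set_option autoImplicit false
set_option linter.unusedSectionVars false

namespace Pool.Agent.Helper91.SL

open Module FF Pool.Agent.W602.GT Pool.Agent.W603.LV Pool.Agent.TH143.GT Pool.Agent.Y220.OG
  Pool.Agent.Helper12.BL Pool.Agent.Helper91.HM Pool.Agent.Helper91.HM.Tw

open Pool.Agent.Helper91.FE (IsTen Mix lt_inj dl_eq)
open Pool.Agent.Helper91.FD (VReg VLog VInv dl IsFr span_top finDim brk exists_adp li_of_fr dl_le)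
open Pool.Agent.Helper91.Ord (Divisor IsEffective IsOrder IsCanonicalOn TensorOn NoTensorsBelow
  PreservesOrder)

variable {K : Type} [Field K] [Algebra ℂ K] {n : ℕ}

/-- tensors with an explicit rank -/
def TenL (n : ℕ) (X : Set (Place ℂ K)) (δ : Place ℂ K → ℝ) (U : Submodule K (Derivation ℂ K K))
    {r N : ℕ} (a : ℤ) (L : Place ℂ K → ℝ) (s : (Fin r → Derivation ℂ K K) →
      MultilinearMap K (fun _ : Fin N => Derivation ℂ K K) K) : Prop :=
  (∀ (A : Matrix (Fin r) (Fin r) K) (B : Fin r → Derivation ℂ K K), Fol2.BasisIn U B →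
    A.det ≠ 0 → ∀ D : Fin N → Derivation ℂ K K, (∀ j, D j ∈ U) →
      s (lt A B) D = A.det ^ a * s B D) ∧
  ∀ P ∈ X, Divisorial n P → ∀ B : Fin r → Derivation ℂ K K, Fol2.FrameOn U P B →
    ∀ D : Fin N → Derivation ℂ K K, (∀ j, D j ∈ U ∧ DerReg P (D j)) →
      Gr P (-(((Nat.card {j : Fin N // ¬ DerLog P (D j)} : ℝ) + a) * Fol2.coeffOn δ U P + L P))
        (s B D)

theorem isTen_of_tenL {X : Set (Place ℂ K)} {δ : Place ℂ K → ℝ}
    {U : Submodule K (Derivation ℂ K K)} {r N : ℕ} {a : ℤ} {L : Place ℂ K → ℝ}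
    {s : (Fin r → Derivation ℂ K K) →
      MultilinearMap K (fun _ : Fin N => Derivation ℂ K K) K} (h : TenL n X δ U a L s) :
    IsTen (r := r) n X δ L U.subtype a 1
      (fun B => (s (fun i => (B i : Derivation ℂ K K))).compLinearMap fun _ => U.subtype) := by
  refine ⟨fun A B hB hA => ?_, fun P hP hdiv B hB D hD => ?_⟩
  · ext D
    rw [smul_apply, smul_eq_mul]
    have h1 := h.1 A (fun i => (B i : Derivation ℂ K K)) ⟨FE.li_coe hB, fun i => (B i).2⟩ hA
      (fun j => (D j : Derivation ℂ K K)) fun j => (D j).2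
    have h3 : (fun i => ((lt A B i : U) : Derivation ℂ K K)) =
        lt A (fun i => (B i : Derivation ℂ K K)) := by
      funext i
      change U.subtype (∑ j, A i j • B j) = _
      rw [map_sum]
      rfl
    change s (fun i => ((lt A B i : U) : Derivation ℂ K K)) (fun j => (D j : Derivation ℂ K K)) =
      A.det ^ a * s (fun i => (B i : Derivation ℂ K K)) (fun j => (D j : Derivation ℂ K K))
    rw [h3]
    exact h1
  · have h2 := h.2 P hP hdiv (fun i => (B i : Derivation ℂ K K)) ⟨fun i => ⟨(B i).2, hB.1 i⟩,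
      fun G hG hGr => by
        obtain ⟨c, hc, hcE⟩ := hB.2 ⟨G, hG⟩ hGr
        refine ⟨c, hc, ?_⟩
        have h1 := congrArg U.subtype hcE
        rw [map_sum] at h1
        exact h1⟩ (fun j => (D j : Derivation ℂ K K)) fun j => ⟨(D j).2, hD j⟩
    change Gr P _ (s (fun i => (B i : Derivation ℂ K K)) (fun j => (D j : Derivation ℂ K K)))
    rw [dl_eq]
    refine Gr.mono (le_of_eq ?_) h2
    rw [Int.cast_one, one_mul]
    rfl

/-- the extension of a family of tensors -/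
theorem exists_tenL [FiniteDimensional K (Derivation ℂ K K)] {X : Set (Place ℂ K)}
    {δ : Place ℂ K → ℝ} {U : Submodule K (Derivation ℂ K K)} {r M : ℕ} {γ : Place ℂ K → ℝ}
    {s : (Fin r → U) → MultilinearMap K (fun _ : Fin M => U) K}
    (hs : IsTen n X δ γ U.subtype 0 1 s) :
    ∃ s' : (Fin r → Derivation ℂ K K) → MultilinearMap K (fun _ : Fin M => Derivation ℂ K K) K,
      TenL n X δ U 0 γ s' ∧ ∀ (B : Fin r → Derivation ℂ K K) (hB : ∀ i, B i ∈ U)
        (D : Fin M → Derivation ℂ K K) (hD : ∀ j, D j ∈ U),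
          s' B D = s (fun i => ⟨B i, hB i⟩) fun j => ⟨D j, hD j⟩ := by
  classical
  obtain ⟨π, hπ⟩ := U.subtype.exists_leftInverse_of_injective (Submodule.ker_subtype U)
  have hπ' : ∀ v (hv : v ∈ U), π v = ⟨v, hv⟩ := fun v hv => LinearMap.congr_fun hπ ⟨v, hv⟩
  obtain ⟨s', hs'⟩ : ∃ s' : (Fin r → Derivation ℂ K K) →
      MultilinearMap K (fun _ : Fin M => Derivation ℂ K K) K, ∀ (B : Fin r →
        Derivation ℂ K K) (hB : ∀ i, B i ∈ U),
          s' B = (s (fun i => ⟨B i, hB i⟩)).compLinearMap fun _ => π :=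
    ⟨fun B => if hB : ∀ i, B i ∈ U then (s (fun i => ⟨B i, hB i⟩)).compLinearMap fun _ => π else 0,
      fun B hB => dif_pos hB⟩
  have hval : ∀ (B : Fin r → Derivation ℂ K K) (hB : ∀ i, B i ∈ U)
      (D : Fin M → Derivation ℂ K K) (hD : ∀ j, D j ∈ U),
        s' B D = s (fun i => ⟨B i, hB i⟩) fun j => ⟨D j, hD j⟩ := by
    intro B hB D hD
    rw [hs' B hB]
    change s (fun i => ⟨B i, hB i⟩) (fun j => π (D j)) = _
    congr 1
    funext j
    exact hπ' _ (hD j)
  refine ⟨s', ⟨fun A B hB hA D hD => ?_, fun P hP hdiv B hB D hD => ?_⟩, hval⟩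
  · have hAB : ∀ i, lt A B i ∈ U := fun i => Submodule.sum_mem _ fun j _ =>
      Submodule.smul_mem _ _ (hB.2 j)
    rw [hval _ hAB D hD, hval B hB.2 D hD]
    have h1 : (fun i => (⟨lt A B i, hAB i⟩ : U)) = lt A (fun i => ⟨B i, hB.2 i⟩) := by
      funext i
      apply Subtype.ext
      change (∑ j, A i j • B j) = U.subtype (∑ j, A i j • (⟨B j, hB.2 j⟩ : U))
      rw [map_sum]
      rfl
    have h2 : LinearIndependent K (fun i => (⟨B i, hB.2 i⟩ : U)) :=
      LinearIndependent.of_comp U.subtype hB.1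
    rw [h1, hs.1 A _ h2 hA]
    rfl
  · rw [hval B (fun i => (hB.1 i).1) D fun j => (hD j).1]
    have h1 := hs.2 P hP hdiv (fun i => ⟨B i, (hB.1 i).1⟩) ⟨fun i => (hB.1 i).2,
      fun v hv => by
        obtain ⟨c, hc, hcE⟩ := hB.2 v.1 v.2 hv
        refine ⟨c, hc, Subtype.ext ?_⟩
        change (v : Derivation ℂ K K) = U.subtype (∑ i, c i • (⟨B i, (hB.1 i).1⟩ : U))
        rw [map_sum]
        exact hcE⟩ (fun j => ⟨D j, (hD j).1⟩) fun j => (hD j).2
    rw [dl_eq] at h1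
    refine Gr.mono (le_of_eq ?_) h1
    rw [Int.cast_one, one_mul]
    rfl

theorem noTensorsBelow_of (hTw : S_Tw) [Algebra.EssFiniteType ℂ K] (hn : Algebra.trdeg ℂ K = n)
    {X : Set (Place ℂ K)} {δ : Place ℂ K → ℝ} (hδ : ∀ P ∈ X, 0 ≤ δ P) (hδ1 : ∀ P ∈ X, δ P ≤ 1)
    {NonPos : Divisor K → Prop} {U : Submodule K (Derivation ℂ K K)}
    (h : NoMix n X δ {L | NonPos L} U) : NoTensorsBelow n X δ NonPos U := by
  obtain ⟨hfin, hfr⟩ := finDim hn
  intro N a L hNa hL s hs B hB D hD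
  rcases Nat.eq_zero_or_pos (finrank K U) with h0 | h0
  · have hU : U = ⊥ := Submodule.finrank_eq_zero.1 h0
    have hN : 0 < N := by
      have h1 : Fol2.rk U = 0 := h0
      rw [h1, zero_mul, add_zero] at hNa
      exact hNa
    refine (s B).map_coord_zero ⟨0, hN⟩ ?_
    exact (Submodule.mem_bot K).1 (hU ▸ hD ⟨0, hN⟩)
  · have h1 := hTw K n X δ {L | NonPos L} U hn hδ hδ1 h0 h a N (by
      rcases Nat.eq_zero_or_pos N with h2 | h2
      · rcases Nat.eq_zero_or_pos a with h3 | h3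
        · rw [h2, h3, mul_zero] at hNa
          exact absurd hNa (lt_irrefl 0)
        · omega
      · omega) L hL _ (isTen_of_tenL (r := finrank K U) hs) (fun i => ⟨B i, hB.2 i⟩)
        (LinearIndependent.of_comp U.subtype hB.1)
    have h2 := congrArg (fun t => t fun j => (⟨D j, hD j⟩ : U)) h1
    exact h2

theorem noMix_of_noTensorsBelow (hPure : S_Pure) [Algebra.EssFiniteType ℂ K]
    (hn : Algebra.trdeg ℂ K = n) {X : Set (Place ℂ K)} {δ : Place ℂ K → ℝ}
    {NonPos : Divisor K → Prop} {U : Submodule K (Derivation ℂ K K)}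
    (h : NoTensorsBelow n X δ NonPos U) : NoMix n X δ {L | NonPos L} U := by
  classical
  obtain ⟨hfin, hfr⟩ := finDim hn
  refine hPure K n X δ {L | NonPos L} U hfin fun M hM γ hγ s hs B hB => ?_
  obtain ⟨s', hT, hval⟩ := exists_tenL hs
  ext D
  have h1 := h M 0 γ (by omega) hγ s' hT (fun i => (B i : Derivation ℂ K K))
    ⟨FE.li_coe hB, fun i => (B i).2⟩ (fun j => (D j : Derivation ℂ K K)) fun j => (D j).2
  exact (hval _ (fun i => (B i).2) _ fun j => (D j).2).symm.trans h1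

/-- **The main theorem.** -/
theorem main (hTw : S_Tw) (hPure : S_Pure) (hAut : S_AutMix) [Algebra.EssFiniteType ℂ K]
    (hn : Algebra.trdeg ℂ K = n) (X : Set (Place ℂ K)) (δ : Place ℂ K → ℝ)
    (hδ : ∀ P ∈ X, 0 ≤ δ P ∧ δ P ≤ 1) :
    (¬ Tw.KodairaGe n X δ 0 → ∃ (NonPos : Divisor K → Prop) (κ : Divisor K),
      IsOrder n X NonPos ∧ IsCanonicalOn n X δ ⊤ κ ∧ NonPos κ ∧ ¬ NonPos (-κ)) ∧
    ∀ NonPos : Divisor K → Prop, IsOrder n X NonPos → ∃ F : Submodule K (Derivation ℂ K K),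
      Fol2.Involutive F ∧ NoTensorsBelow n X δ NonPos F ∧
      (∀ U, NoTensorsBelow n X δ NonPos U → U ≤ F) ∧
      (∀ U, F ≤ U → ∀ κF κU, IsCanonicalOn n X δ F κF → IsCanonicalOn n X δ U κU →
        NonPos (κF - κU)) ∧
      (∀ φ : K ≃+* K, Tw.Preserves X δ φ → PreservesOrder NonPos φ → ∀ D ∈ F,
        ∀ D' : Derivation ℂ K K, (∀ f, D' (φ f) = φ (D f)) → D' ∈ F) ∧
      ((∃ κ, IsCanonicalOn n X δ ⊤ κ ∧ ¬ NonPos (-κ)) → F ≠ ⊥) := by
  classical
  obtain ⟨hfin, hfr⟩ := finDim hn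
  have hSplit := split_of_rank Pool.Agent.Helper36.SL.rank
  have hSum := sum_of_rank Pool.Agent.Helper36.SL.rank
  have hδ0 : ∀ P ∈ X, 0 ≤ δ P := fun P hP => (hδ P hP).1
  have hδ1 : ∀ P ∈ X, δ P ≤ 1 := fun P hP => (hδ P hP).2
  refine ⟨fun hno => ?_, fun NonPos hNP => ?_⟩
  · have htop : finrank K (⊤ : Submodule K (Derivation ℂ K K)) = n := by rw [finrank_top, hfr]
    have hB := (Module.finBasis K (⊤ : Submodule K (Derivation ℂ K K))).linearIndependent
    obtain ⟨c, hc⟩ := exists_canOf hn (Submodule.subtype_injective ⊤) rfl X δ hB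
    obtain ⟨N, hN, h1, h2⟩ := s_order K n X c fun m hm heff => hno (by
      subst htop
      exact kodaira_of_eff hn hδ0 hB hc hm heff)
    exact ⟨fun L => L ∈ N, c, neg_iff.2 hN, canonicalOn_of hB hc, h1, h2⟩
  · have hN : Neg n X {L | NonPos L} := neg_iff.1 hNP
    obtain ⟨F, hF, hmax, hinv⟩ := exists_largest hSum p5 hδ0 hN (noMix_bot (K := K) (n := n)
      (X := X) (δ := δ) (N := {L | NonPos L}))
    have hrel : ∀ U, F ≤ U → ∀ κF κU, IsCanonicalOn n X δ F κF → IsCanonicalOn n X δ U κU →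
        NonPos (κF - κU) := by
      intro U hFU κF κU hκF hκU
      obtain ⟨BF, hBF, h1⟩ := canOf_of hκF
      obtain ⟨BU, hBU, h2⟩ := canOf_of hκU
      exact rel_main hSplit s_contains hn hδ0 hN hF hmax hBF h1 _ U rfl hFU BU hBU κU h2
    refine ⟨F, hinv, noTensorsBelow_of hTw hn hδ0 hδ1 hF, fun U hU =>
      hmax U (noMix_of_noTensorsBelow hPure hn hU), hrel, fun φ hφ hφo D hD D' hD' => ?_, ?_⟩
    · obtain ⟨⟨τ, hτ⟩, hX⟩ := hφ
      obtain ⟨U', hU', hUD⟩ := hAut K n X δ {L | NonPos L} F φ τ hτ hN hX (fun γ hγ => by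
        refine hφo γ (fun P => γ (mapPlace hτ P)) (fun P P' hPP => ?_) hγ
        have h1 : P' = mapPlace hτ P := by
          apply Place.ext
          funext y
          rw [mapPlace_ord, ← hPP, RingEquiv.apply_symm_apply]
        rw [h1]) hF
      exact hmax U' hU' (hUD D hD D' hD')
    · rintro ⟨κ, hκ, hκn⟩ rfl
      have hB := (Module.finBasis K (⊥ : Submodule K (Derivation ℂ K K))).linearIndependent
      obtain ⟨c, hc⟩ := exists_canOf hn (Submodule.subtype_injective ⊥) rfl X δ hB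
      have h1 := hrel ⊤ bot_le c κ (canonicalOn_of hB hc) hκ
      have h2 := can_bot hn hN rfl hB hc (-1)
      have h3 := hNP.add _ _ h1 h2
      apply hκn
      have h4 : c - κ + (-1 : ℝ) • c = -κ := by
        rw [neg_one_smul]
        abel
      rwa [h4] at h3

end Pool.Agent.Helper91.SL
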