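import Pool.Agent.Helper91.SL.Fin2
import Pool.Agent.Helper91.SL.Tw
import Pool.Agent.Helper91.SL.Aut
import Pool.Agent.Helper91.SL.Det

/-!
The final form of the main theorem.
-/

set_option autoImplicit false
set_option linter.unusedSectionVars false

namespace Pool.Agent.Helper91.SL

open Module FF Pool.Agent.W602.GT Pool.Agent.W603.LV Pool.Agent.TH143.GT Pool.Agent.Y220.OG
  Pool.Agent.Helper12.BL Pool.Agent.Helper91.HM Pool.Agent.Helper91.HM.Tw

open Pool.Agent.Helper91.FE (IsTen Mix lt_inj dl_eq)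
open Pool.Agent.Helper91.FD (VReg VLog VInv dl IsFr span_top finDim brk exists_adp li_of_fr dl_le)
open Pool.Agent.Helper91.Ord (Divisor IsEffective IsOrder IsCanonicalOn TensorOn NoTensorsBelow
  PreservesOrder)

variable {K : Type} [Field K] [Algebra ℂ K] {n : ℕ}

theorem exists_canonical [Algebra.EssFiniteType ℂ K] (hn : Algebra.trdeg ℂ K = n)
    (X : Set (Place ℂ K)) (δ : Place ℂ K → ℝ) (U : Submodule K (Derivation ℂ K K)) :
    ∃ κ, IsCanonicalOn n X δ U κ := by
  obtain ⟨hfin, hfr⟩ := finDim hn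
  have hB := (Module.finBasis K U).linearIndependent
  obtain ⟨c, hc⟩ := exists_canOf hn (Submodule.subtype_injective U) rfl X δ hB
  exact ⟨c, canonicalOn_of hB hc⟩

/-- If nonvanishing holds then the canonical divisor is `≥ 0` for each order. -/
theorem nonneg_of_kodaira [Algebra.EssFiniteType ℂ K] (hn : Algebra.trdeg ℂ K = n)
    {X : Set (Place ℂ K)} {δ : Place ℂ K → ℝ} {N : Set (Place ℂ K → ℝ)} (hN : Neg n X N)
    {B : Fin (finrank K (⊤ : Submodule K (Derivation ℂ K K))) →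
      (⊤ : Submodule K (Derivation ℂ K K))} (hB : LinearIndependent K B)
    {c : Place ℂ K → ℝ} (hc : CanOf n X δ (⊤ : Submodule K (Derivation ℂ K K)).subtype B c)
    (h : Tw.KodairaGe n X δ 0) : -c ∈ N := by
  obtain ⟨hfin, hfr⟩ := finDim hn
  have htop : finrank K (⊤ : Submodule K (Derivation ℂ K K)) = n := by rw [finrank_top, hfr]
  subst htop
  obtain ⟨m, hm, ω, hω, D, hD, -⟩ := h
  obtain ⟨hpl, hpole⟩ := hω 0
  have hsec : IsSecD (finrank K (⊤ : Submodule K (Derivation ℂ K K))) X δ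
      (⊤ : Submodule K (Derivation ℂ K K)).subtype m 0 (fun D => ω 0 fun i => (D i :
        Derivation ℂ K K)) := by
    refine ⟨fun A D => ?_, fun P hP hdiv D hD => ?_⟩
    · have h1 : (fun i => ((lt A D i : (⊤ : Submodule K (Derivation ℂ K K))) :
          Derivation ℂ K K)) = lt A (fun i => (D i : Derivation ℂ K K)) := by
        funext i
        change (⊤ : Submodule K (Derivation ℂ K K)).subtype (∑ j, A i j • D j) = _
        rw [map_sum]
        rfl
      change ω 0 (fun i => ((lt A D i : (⊤ : Submodule K (Derivation ℂ K K))) :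
        Derivation ℂ K K)) = _
      rw [h1]
      exact hpl A _
    · have h1 : dl δ (⊤ : Submodule K (Derivation ℂ K K)).subtype P = δ P := by
        obtain ⟨G, hG, hGl⟩ := exists_nonlog hn hdiv
        exact if_neg fun hinv => hGl (hinv ⟨G, Submodule.mem_top⟩ hG)
      rw [h1]
      have h2 := hpole P hP hdiv (fun i => (D i : Derivation ℂ K K)) hD
      rcases h2 with h2 | h2
      · exact Or.inl h2
      · right
        rw [Pi.zero_apply, add_zero]
        exact h2
  have h1 := eff_of_sec hn (Submodule.subtype_injective ⊤) rfl hB hc hsec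
    (D := fun i => ⟨D i, Submodule.mem_top⟩) hD
  rw [add_zero] at h1
  have h2 := hN.eff _ h1
  rw [← smul_neg] at h2
  exact hN.sat m _ hm h2

/-- **The comparison of canonical divisors.** -/
theorem compare (hSplit : S_Split) (hCon : S_Contains) [Algebra.EssFiniteType ℂ K]
    (hn : Algebra.trdeg ℂ K = n)
    {X : Set (Place ℂ K)} {δ : Place ℂ K → ℝ} (hδ : ∀ P ∈ X, 0 ≤ δ P) (hδ1 : ∀ P ∈ X, δ P ≤ 1)
    {N : Set (Place ℂ K → ℝ)}
    (hN : Neg n X N) {F : Submodule K (Derivation ℂ K K)} (hF : NoMix n X δ N F)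
    (hmax : ∀ U : Submodule K (Derivation ℂ K K), NoMix n X δ N U → U ≤ F)
    {BF : Fin (finrank K F) → F} (hBF : LinearIndependent K BF) {cF : Place ℂ K → ℝ}
    (hcF : CanOf n X δ F.subtype BF cF) {U : Submodule K (Derivation ℂ K K)}
    {BU : Fin (finrank K U) → U} (hBU : LinearIndependent K BU) {cU : Place ℂ K → ℝ}
    (hcU : CanOf n X δ U.subtype BU cU) : cF - cU ∈ N ∧ (¬ F ≤ U → cU - cF ∉ N) := by
  by_cases hFU : F ≤ U
  · exact ⟨rel_main hSplit hCon hn hδ hN hF hmax hBF hcF _ U rfl hFU BU hBU cU hcU,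
      fun h => absurd hFU h⟩
  obtain ⟨hfin, hfr⟩ := finDim hn
  obtain ⟨G, hG⟩ : ∃ G : Submodule K (Derivation ℂ K K), G = U ⊔ F := ⟨_, rfl⟩
  have hUG : U ≤ G := hG ▸ le_sup_left
  have hFG : F ≤ G := hG ▸ le_sup_right
  have hBG := (Module.finBasis K G).linearIndependent
  obtain ⟨cG, hcG⟩ := exists_canOf hn (Submodule.subtype_injective G) rfl X δ hBG
  have h1 := rel_main hSplit hCon hn hδ hN hF hmax hBF hcF _ G rfl hFG _ hBG cG hcG
  obtain ⟨q, t, hq, ht, htF⟩ := s_det K n X δ U G hn hδ hδ1 hUG (fun h => hFU (h ▸ hFG)) _ _ cU cG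
    hBU hBG hcU hcG
  obtain ⟨x, hx, hxt⟩ := htF F hG.symm
  have h2 : cU - cG ∉ N := fun h => hxt (hF (Fin q) ⟨⟨0, hq⟩⟩ _ h t
    (mix_sub hFG (ht.mono fun _ => hFG)) x hx)
  have h3 := (hN.total _).resolve_left h2
  refine ⟨?_, fun _ h4 => h2 ?_⟩
  · have h5 := hN.add _ h1 _ h3
    have h6 : cF - cG + -(cU - cG) = cF - cU := by abel
    rwa [h6] at h5
  · have h5 := hN.add _ h4 _ h1
    have h6 : cU - cF + (cF - cG) = cU - cG := by abel
    rwa [h6] at h5

/-- **The main theorem.** -/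
theorem main3 [Algebra.EssFiniteType ℂ K]
    (hn : Algebra.trdeg ℂ K = n) (X : Set (Place ℂ K)) (δ : Place ℂ K → ℝ)
    (hδ : ∀ P ∈ X, 0 ≤ δ P ∧ δ P ≤ 1) :
    (∀ U : Submodule K (Derivation ℂ K K), ∃ κ, IsCanonicalOn n X δ U κ) ∧
    (Tw.KodairaGe n X δ 0 ↔ ∀ (NonPos : Divisor K → Prop) (κ : Divisor K),
      IsOrder n X NonPos → IsCanonicalOn n X δ ⊤ κ → NonPos (-κ)) ∧
    ∀ NonPos : Divisor K → Prop, IsOrder n X NonPos → ∃ F : Submodule K (Derivation ℂ K K),
      Fol2.Involutive F ∧ NoTensorsBelow n X δ NonPos F ∧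
      (∀ U, NoTensorsBelow n X δ NonPos U → U ≤ F) ∧
      (∀ U κF κU, IsCanonicalOn n X δ F κF → IsCanonicalOn n X δ U κU →
        NonPos (κF - κU) ∧ (¬ F ≤ U → ¬ NonPos (κU - κF))) ∧
      (F ≠ ⊥ → ∀ κF, IsCanonicalOn n X δ F κF → ¬ NonPos (-κF)) ∧
      (∀ U κU, IsCanonicalOn n X δ U κU → ¬ NonPos (-κU) → F ≠ ⊥) ∧
      (∀ φ : K ≃+* K, Tw.Preserves X δ φ → PreservesOrder NonPos φ → ∀ D ∈ F,
        ∀ D' : Derivation ℂ K K, (∀ f, D' (φ f) = φ (D f)) → D' ∈ F) := by
  classical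
  obtain ⟨hfin, hfr⟩ := finDim hn
  have hSplit := split_of_rank Pool.Agent.Helper36.SL.rank
  have hSum := sum_of_rank Pool.Agent.Helper36.SL.rank
  have hδ0 : ∀ P ∈ X, 0 ≤ δ P := fun P hP => (hδ P hP).1
  have hδ1 : ∀ P ∈ X, δ P ≤ 1 := fun P hP => (hδ P hP).2
  have hbot : ∀ NonPos : Divisor K → Prop, IsOrder n X NonPos → ∃ c, IsCanonicalOn n X δ ⊥ c ∧
      ∀ x : ℝ, NonPos (x • c) := by
    intro NonPos hNP
    have hN : Neg n X {L | NonPos L} := neg_iff.1 hNP
    have hB := (Module.finBasis K (⊥ : Submodule K (Derivation ℂ K K))).linearIndependent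
    obtain ⟨c, hc⟩ := exists_canOf hn (Submodule.subtype_injective ⊥) rfl X δ hB
    exact ⟨c, canonicalOn_of hB hc, fun x => can_bot hn hN rfl hB hc x⟩
  refine ⟨exists_canonical hn X δ, ⟨fun hK NonPos κ hNP hκ => ?_, fun h => ?_⟩,
    fun NonPos hNP => ?_⟩
  · obtain ⟨B, hB, hc⟩ := canOf_of hκ
    exact nonneg_of_kodaira hn (neg_iff.1 hNP) hB hc hK
  · by_contra hno
    have htop : finrank K (⊤ : Submodule K (Derivation ℂ K K)) = n := by rw [finrank_top, hfr]
    have hB := (Module.finBasis K (⊤ : Submodule K (Derivation ℂ K K))).linearIndependent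
    obtain ⟨c, hc⟩ := exists_canOf hn (Submodule.subtype_injective ⊤) rfl X δ hB
    obtain ⟨N, hN, h1, h2⟩ := s_order K n X c fun m hm heff => hno (by
      subst htop
      exact kodaira_of_eff hn hδ0 hB hc hm heff)
    exact h2 (h (fun L => L ∈ N) c (neg_iff.2 hN) (canonicalOn_of hB hc))
  · have hN : Neg n X {L | NonPos L} := neg_iff.1 hNP
    obtain ⟨F, hF, hmax, hinv⟩ := exists_largest hSum p5 hδ0 hN (noMix_bot (K := K) (n := n)
      (X := X) (δ := δ) (N := {L | NonPos L}))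
    have hcmp : ∀ U κF κU, IsCanonicalOn n X δ F κF → IsCanonicalOn n X δ U κU →
        NonPos (κF - κU) ∧ (¬ F ≤ U → ¬ NonPos (κU - κF)) := by
      intro U κF κU hκF hκU
      obtain ⟨BF, hBF, h1⟩ := canOf_of hκF
      obtain ⟨BU, hBU, h2⟩ := canOf_of hκU
      exact compare hSplit s_contains hn hδ0 hδ1 hN hF hmax hBF h1 hBU h2
    obtain ⟨c, hc, hcx⟩ := hbot NonPos hNP
    refine ⟨F, hinv, noTensorsBelow_of s_tw hn hδ0 hδ1 hF, fun U hU =>
      hmax U (noMix_of_noTensorsBelow s_pure hn hU), hcmp, fun hne κF hκF h1 => ?_,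
      fun U κU hκU h1 hF0 => ?_, fun φ hφ hφo D hD D' hD' => ?_⟩
    · -- negative
      refine (hcmp ⊥ κF c hκF hc).2 (fun h => hne (eq_bot_iff.2 h)) ?_
      have h2 := hNP.add _ _ (hcx 1) h1
      rw [one_smul] at h2
      exact h2
    · -- nonzero
      apply h1
      have h2 := (hcmp U c κU (hF0 ▸ hc) hκU).1
      have h3 := hNP.add _ _ h2 (hcx (-1))
      have h4 : c - κU + (-1 : ℝ) • c = -κU := by
        rw [neg_one_smul]
        abel
      rwa [h4] at h3
    · obtain ⟨⟨τ, hτ⟩, hX⟩ := hφ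
      obtain ⟨U', hU', hUD⟩ := s_autMix K n X δ {L | NonPos L} F φ τ hτ hN hX (fun γ hγ => by
        refine hφo γ (fun P => γ (mapPlace hτ P)) (fun P P' hPP => ?_) hγ
        have h1 : P' = mapPlace hτ P := by
          apply Place.ext
          funext y
          rw [mapPlace_ord, ← hPP, RingEquiv.apply_symm_apply]
        rw [h1]) hF
      exact hmax U' hU' (hUD D hD D' hD')

end Pool.Agent.Helper91.SL
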