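import Pool.Agent.Helper91.SL.Def
import Pool.Agent.Helper91.HM.Kempf
import Pool.Agent.Helper91.FE.Inv

/-!
Packages for the second version.
-/

set_option autoImplicit false
set_option linter.unusedSectionVars false

namespace Pool.Agent.Helper91.SL

open Module FF Pool.Agent.W602.GT Pool.Agent.W603.LV Pool.Agent.TH143.GT Pool.Agent.Y220.OG
  Pool.Agent.Helper12.BL Pool.Agent.Helper91.HM Pool.Agent.Helper91.HM.Tw

open Pool.Agent.Helper91.FE (Mix IsTen)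
open Pool.Agent.Helper91.FD (VReg VLog VInv dl IsFr brk)

/-- Q1: the splitting of a mixed tensor into two tensors -/
def S_Split : Prop :=
  ∀ (K : Type) [Field K] [Algebra ℂ K] (n : ℕ) (X : Set (Place ℂ K)) (d γ : Place ℂ K → ℝ)
    (J : Type) [Fintype J] [DecidableEq J] (S : Finset J) (U U' F : Submodule K (Derivation ℂ K K))
    (t : (J → Derivation ℂ K K) → K), FiniteDimensional K (Derivation ℂ K K) →
    (∀ P ∈ X, 0 ≤ d P) → S.Nonempty → Sᶜ.Nonempty →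
    Mix n X d γ (fun j => if j ∈ S then U else U') t →
    (∃ x, (∀ j, x j ∈ (if j ∈ S then U else U')) ∧ t x ≠ 0) →
    ∃ (r r' : ℕ) (L L' : Place ℂ K → ℝ) (g : K) (m : ℕ) (α : (Fin r → Derivation ℂ K K) → K)
      (β : (Fin r' → Derivation ℂ K K) → K), 0 < r ∧ 0 < r' ∧ g ≠ 0 ∧
      (∀ P ∈ X, Divisorial n P → L P + L' P = m * γ P - P.ord g) ∧
      Mix n X d L (fun _ => U) α ∧ (∃ x, (∀ j, x j ∈ U) ∧ α x ≠ 0) ∧
      Mix n X d L' (fun _ => U') β ∧ (∃ y, (∀ j, y j ∈ U') ∧ β y ≠ 0) ∧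
      ((∀ x, (∀ j, x j ∈ (if j ∈ S then U else U')) → (∃ j, j ∉ S ∧ x j ∈ F) → t x = 0) →
        ∀ y, (∀ j, y j ∈ U') → (∃ j, y j ∈ F) → β y = 0)

/-- Q2: the members of the optimal flag contain all vectors which are killed by the tensors -/
def S_Contains : Prop :=
  ∀ (K : Type) [Field K] (V : Type) [AddCommGroup V] [Module K V] (r : ℕ)
    (S : ∀ d : ℕ, Set (MultilinearMap K (fun _ : Fin d => V) K)) (g : Fin r → V) (a : Fin r → ℝ)
    (F : Submodule K V), 0 < r → Dest S g a →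
    (∀ (e : Fin r → V) (b : Fin r → ℝ), Dest S e b → ∑ j, a j ^ 2 ≤ ∑ j, b j ^ 2) →
    (∀ d, ∀ s ∈ S d, ∀ (x : Fin d → V) (k : Fin d), x k ∈ F → s x = 0) →
      ∀ j, F ≤ (flag g a (a j) : Submodule K V)

/-- Q3: automorphisms -/
def S_AutMix : Prop :=
  ∀ (K : Type) [Field K] [Algebra ℂ K] (n : ℕ) (X : Set (Place ℂ K)) (δ : Place ℂ K → ℝ)
    (N : Set (Place ℂ K → ℝ)) (U : Submodule K (Derivation ℂ K K)) (φ : K ≃+* K) (τ : ℂ ≃+* ℂ)
    (h : ∀ c, φ (algebraMap ℂ K c) = algebraMap ℂ K (τ c)), Neg n X N →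
    (∀ P ∈ X, ∀ P' : Place ℂ K, (∀ f, P'.ord (φ f) = P.ord f) → P' ∈ X ∧ δ P' = δ P) →
    (∀ γ ∈ N, (fun P => γ (mapPlace h P)) ∈ N) → NoMix n X δ N U →
      ∃ U' : Submodule K (Derivation ℂ K K), NoMix n X δ N U' ∧
        ∀ D ∈ U, ∀ D' : Derivation ℂ K K, (∀ f, D' (φ f) = φ (D f)) → D' ∈ U'

end Pool.Agent.Helper91.SL
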