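import Pool.Agent.Helper91.SL.FlagT
import Pool.Agent.Helper91.SL.Stm2

/-!
The flag of a tensor which kills a subspace.
-/

set_option autoImplicit false
set_option linter.unusedSectionVars false

namespace Pool.Agent.Helper91.SL

open Module FF Pool.Agent.W602.GT Pool.Agent.W603.LV Pool.Agent.TH143.GT Pool.Agent.Y220.OG
  Pool.Agent.Helper12.BL Pool.Agent.Helper91.HM Pool.Agent.Helper91.HM.Tw

open Pool.Agent.Helper91.FE (IsTen IsFlag flagV)
open Pool.Agent.Helper91.FD (VReg VLog VInv dl IsFr mem Adp vreg_sum vlog_sum vreg_smul vreg_sub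
  span_top exists_adp mem_mono mem_eq finrank_mem lt_restrictV FrOf frOf dl_le dl_nonneg vcrd
  vcrd_act lcv lcv_lt RR_smul' LW LW_smul LW_lt reg_changeV)

variable {K : Type} [Field K] [Algebra ℂ K] {V : Type} [AddCommGroup V] [Module K V] {n r : ℕ}
  {ι : V →ₗ[K] Derivation ℂ K K}

/-- the set of the values of the tensors which kill `F` -/
def valsR (n : ℕ) (X : Set (Place ℂ K)) (δ γ : Place ℂ K → ℝ)
    (ι : V →ₗ[K] Derivation ℂ K K) (F : Submodule K V) (e : Fin r → V) (N : ℕ) :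
    Set (MultilinearMap K (fun _ : Fin N => V) K) :=
  {t | ∃ (s : (Fin r → V) → MultilinearMap K (fun _ : Fin N => V) K),
    0 < N ∧ IsTen n X δ γ ι 0 1 s ∧ (∀ B, LinearIndependent K B → ∀ (x : Fin N → V) (k : Fin N),
      x k ∈ F → s B x = 0) ∧ t = s e}

theorem li_update [FiniteDimensional K V] (hr : finrank K V = r) {g : Fin r → V}
    (hg : LinearIndependent K g) {c : Fin r → K} {i : Fin r} (hc : c i ≠ 0) :
    LinearIndependent K (Function.update g i (∑ l, c l • g l)) := by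
  classical
  apply linearIndependent_of_top_le_span_of_card_eq_finrank
  · rw [← span_top hr hg, Submodule.span_le]
    have h1 : ∀ l, l ≠ i → g l ∈ Submodule.span K
        (Set.range (Function.update g i (∑ l, c l • g l))) := fun l hl =>
      Submodule.subset_span ⟨l, Function.update_of_ne hl _ _⟩
    rintro _ ⟨l, rfl⟩
    by_cases hl : l = i
    · subst hl
      have h2 : (∑ l, c l • g l) ∈ Submodule.span K
          (Set.range (Function.update g l (∑ l, c l • g l))) :=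
        Submodule.subset_span ⟨l, Function.update_self _ _ _⟩
      have h3 : g l = (c l)⁻¹ • ((∑ l, c l • g l) - ∑ j ∈ Finset.univ.erase l, c j • g j) := by
        rw [← Finset.add_sum_erase _ _ (Finset.mem_univ l), add_sub_cancel_right, smul_smul,
          inv_mul_cancel₀ hc, one_smul]
      rw [h3]
      refine Submodule.smul_mem _ _ (Submodule.sub_mem _ h2 (Submodule.sum_mem _ fun j hj =>
        Submodule.smul_mem _ _ (h1 j (Finset.ne_of_mem_erase hj))))
    · exact h1 l hl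
  · rw [Fintype.card_fin, hr]

/-- **The flag of a tensor which kills `F`.** -/
theorem hasFlagR (hCon : S_Contains) [Algebra.EssFiniteType ℂ K]
    (hn : Algebra.trdeg ℂ K = n) (hι : Function.Injective ι) [FiniteDimensional K V]
    (hr : finrank K V = r) (hr0 : 0 < r) {X : Set (Place ℂ K)} {δ γ : Place ℂ K → ℝ}
    (hδ : ∀ P ∈ X, 0 ≤ δ P) {F : Submodule K V} (hF : F ≠ ⊥) {N0 : ℕ}
    (hN0 : 0 < N0)
    {s0 : (Fin r → V) → MultilinearMap K (fun _ : Fin N0 => V) K}
    (hs0 : IsTen n X δ γ ι 0 1 s0) (hs0F : ∀ B, LinearIndependent K B → ∀ (x : Fin N0 → V)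
      (k : Fin N0), x k ∈ F → s0 B x = 0)
    (hs0n : ∃ B, LinearIndependent K B ∧ s0 B ≠ 0)
    {e0 : Fin r → V} (he0 : LinearIndependent K e0) :
    ∃ (g : Fin r → V) (e : Fin r → ℤ) (β : ℤ) (ω : (Fin r → V) → K), LinearIndependent K g ∧
      0 < ∑ j, e j ∧ 0 ≤ β ∧ IsFlag n X δ γ ι g e β ω ∧ (∃ D, Adp (K := K) g e D ∧ ω D ≠ 0) ∧
      (∀ j, F ≤ (mem g e (e j) : Submodule K V)) ∧ ∀ j0, (∀ j, e j0 ≤ e j) → e j0 = 0 := by
  classical
  let _ : Algebra ℝ K := Algebra.compHom K (algebraMap ℝ ℂ)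
  have _ : IsScalarTower ℝ ℂ K := IsScalarTower.of_algebraMap_eq fun _ => rfl
  have he0s := span_top hr he0
  let 𝒮 : ∀ d : ℕ, Set (MultilinearMap K (fun _ : Fin d => V) K) :=
    fun d => {t | d ≤ N0 ∧ t ∈ valsR n X δ γ ι F e0 d}
  obtain ⟨f, hfF, hf0⟩ := Submodule.exists_mem_ne_zero_of_ne_bot hF
  have hkill : ∀ d, ∀ t ∈ valsR n X δ γ ι F e0 d, ∀ (x : Fin d → V) (k : Fin d), x k ∈ F →
      t x = 0 := by
    rintro d t ⟨s, -, -, hsF, rfl⟩ x k hk
    exact hsF e0 he0 x k hk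
  have hpos : ∀ d, ∀ t ∈ valsR n X δ γ ι F e0 d, 0 < d := by
    rintro d t ⟨s, h0, -, -, -⟩
    exact h0
  obtain ⟨b1, a1, hb1, ha1, hdes⟩ : ∃ (b : Fin r → V) (w : Fin r → ℤ), LinearIndependent K b ∧
      ∑ j, w j = 0 ∧ ∀ N, N ≤ N0 → ∀ t ∈ valsR n X δ γ ι F e0 N, ∀ J : Fin N → Fin r,
        t (fun k => b (J k)) ≠ 0 → ∑ k, w (J k) < 0 := by
    have h1 : f ∈ Submodule.span K (Set.range e0) := he0s ▸ Submodule.mem_top
    obtain ⟨c, hc⟩ := Pool.Agent.Helper91.HM.mem_span_fam.1 h1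
    obtain ⟨i, hi⟩ : ∃ i, c i ≠ 0 := by
      by_contra hcon
      push Not at hcon
      apply hf0
      rw [← hc]
      exact Finset.sum_eq_zero fun l _ => by rw [hcon, zero_smul]
    refine ⟨Function.update e0 i (∑ l, c l • e0 l), fun j => if j = i then (r : ℤ) - 1 else -1,
      li_update hr he0 hi, ?_, fun N hN t ht J hne => ?_⟩
    · have h2 : ∀ j : Fin r, (if j = i then (r : ℤ) - 1 else -1) =
          (if j = i then (r : ℤ) else 0) + -1 := by
        intro j
        split_ifs <;> ring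
      rw [Finset.sum_congr rfl fun j _ => h2 j, Finset.sum_add_distrib, Finset.sum_ite_eq',
        if_pos (Finset.mem_univ _), Finset.sum_const, Finset.card_univ, Fintype.card_fin,
        nsmul_eq_mul]
      ring
    · have h2 : ∀ k, J k ≠ i := by
        intro k hk
        refine hne (hkill N t ht _ k ?_)
        beta_reduce
        rw [hk, Function.update_self, hc]
        exact hfF
      rw [Finset.sum_congr rfl fun k _ => if_neg (h2 k), Finset.sum_const, Finset.card_univ,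
        Fintype.card_fin, nsmul_eq_mul]
      have h3 := hpos N t ht
      have h4 : (0 : ℤ) < N := by exact_mod_cast h3
      linarith
  have hDest1 : Dest 𝒮 b1 (fun j => (a1 j : ℝ)) := by
    refine ⟨hb1, span_top hr hb1, ?_, ?_⟩
    · beta_reduce
      exact_mod_cast ha1
    · rintro d s ⟨hdm, hs⟩ J hne
      have h2 := hdes d hdm s hs J hne
      have h3 : ∑ k, a1 (J k) ≤ -1 := by omega
      beta_reduce
      exact_mod_cast h3
  have h𝒮D : ∀ d, ∀ s ∈ 𝒮 d, d ≤ N0 := fun d s hs => hs.1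
  obtain ⟨g1, w, hg1, hmin⟩ := exists_min h𝒮D hDest1
  have hflag1 : ∀ j, F ≤ (flag g1 w (w j) : Submodule K V) := hCon K V r 𝒮 g1 w F hr0 hg1 hmin
    fun d t ht => hkill d t ht.2
  obtain ⟨l1, -, hl1⟩ := Finset.exists_max_image Finset.univ w ⟨⟨0, hr0⟩, Finset.mem_univ _⟩
  obtain ⟨c1, hc1, hc1f⟩ := flag_coord (hflag1 l1 hfF)
  obtain ⟨l0, hl0⟩ : ∃ l0, c1 l0 ≠ 0 := by
    by_contra hcon
    push Not at hcon
    apply hf0
    rw [← hc1f]
    exact Finset.sum_eq_zero fun l _ => by rw [hcon, zero_smul]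
  have hwl0 : ∀ j, w j ≤ w l0 := fun j => (hl1 j (Finset.mem_univ _)).trans (hc1 l0 hl0)
  obtain ⟨g, hgdef⟩ : ∃ g, g = Function.update g1 l0 f := ⟨_, rfl⟩
  have hgl0 : g l0 ∈ F := by
    rw [hgdef, Function.update_self]
    exact hfF
  have hgli : LinearIndependent K g := by
    rw [hgdef, ← hc1f]
    exact li_update hr hg1.1 hl0
  have hg : Dest 𝒮 g w := by
    refine hg1.change hgli (span_top hr hgli) hg1.2.2.1 fun j => ?_
    by_cases hj : j = l0
    · rw [hj]
      exact hflag1 l0 hgl0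
    · rw [hgdef, Function.update_of_ne hj]
      exact Submodule.subset_span ⟨j, le_refl (w j), rfl⟩
  obtain ⟨A, m, hm, hA⟩ := rational h𝒮D hg hmin
  have hmR : (0 : ℝ) < m := by exact_mod_cast hm
  have hA0 : ∑ j, A j = 0 := by
    have h1 : ((∑ j, A j : ℤ) : ℝ) = 0 := by
      push_cast
      rw [Finset.sum_congr rfl fun j _ => hA j, ← Finset.mul_sum, hg.2.2.1, mul_zero]
    exact_mod_cast h1
  have hAw : ∀ i j, A i ≤ A j ↔ w i ≤ w j := by
    intro i j
    have h1 : (A i : ℝ) ≤ A j ↔ w i ≤ w j := by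
      rw [hA, hA]
      exact mul_le_mul_iff_right₀ hmR
    rw [← h1]
    exact Int.cast_le.symm
  have hsumA : ∀ {d : ℕ} (J : Fin d → Fin r), ((∑ k, A (J k) : ℤ) : ℝ) = m * ∑ k, w (J k) := by
    intro d J
    push_cast
    rw [Finset.mul_sum]
    exact Finset.sum_congr rfl fun k _ => hA _
  -- adapted bases
  have hDestD : ∀ D : Fin r → V, LinearIndependent K D →
      (∀ j, D j ∈ Submodule.span K (g '' {l | A j ≤ A l})) → Dest 𝒮 D w := by
    intro D hD hDA
    refine hg.change hD (span_top hr hD) hg.2.2.1 fun j => ?_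
    have h1 := hDA j
    have h2 : {l | A j ≤ A l} = {l | w j ≤ w l} := by
      ext l
      exact hAw j l
    rwa [h2] at h1
  have hval : ∀ {d : ℕ} {s : (Fin r → V) →
      MultilinearMap K (fun _ : Fin d => V) K}, IsTen n X δ γ ι 0 1 s →
      ∀ D, LinearIndependent K D → ∃ c : K, c ≠ 0 ∧ s D = c • s e0 := by
    intro d s hs D hD
    obtain ⟨C, hC⟩ := exists_lt (D := D) he0s
    have h3 := (lt_li.1 (hC ▸ hD)).2
    refine ⟨C.det ^ (0 : ℤ), zpow_ne_zero _ h3, ?_⟩
    rw [hC]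
    exact hs.1 C e0 he0 h3
  have hsupp0 : ∀ {d : ℕ} {s : (Fin r → V) →
      MultilinearMap K (fun _ : Fin d => V) K}, d ≤ N0 → 0 < d →
      IsTen n X δ γ ι 0 1 s → (∀ B, LinearIndependent K B → ∀ (x : Fin d → V) (k : Fin d),
        x k ∈ F → s B x = 0) → ∀ D, LinearIndependent K D →
      (∀ j, D j ∈ Submodule.span K (g '' {l | A j ≤ A l})) → ∀ J : Fin d → Fin r,
        s D (fun k => D (J k)) ≠ 0 → ∑ k, A (J k) ≤ -m := by
    intro d s hd ha hs hsF D hD hDA J hne
    obtain ⟨c, hc, hce⟩ := hval hs D hD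
    have h1 : s e0 (fun k => D (J k)) ≠ 0 := by
      intro h0
      apply hne
      rw [hce, smul_apply, h0, smul_zero]
    have h2 := (hDestD D hD hDA).2.2.2 d (s e0) ⟨hd, s, ha, hs, hsF, rfl⟩ J h1
    have h3 : ((∑ k, A (J k) : ℤ) : ℝ) ≤ ((-m : ℤ) : ℝ) := by
      rw [hsumA]
      push_cast
      nlinarith
    exact_mod_cast h3
  -- the weights are not zero
  have hk : 0 < ∑ j, A j ^ 2 := by
    obtain ⟨B, hB, hne⟩ := hs0n
    obtain ⟨J, hJ⟩ := exists_ne_of_ne (t := s0 g) (by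
      obtain ⟨c, hc, hce⟩ := hval hs0 B hB
      obtain ⟨c', hc', hce'⟩ := hval hs0 g hg.1
      rw [hce']
      rw [hce] at hne
      exact smul_ne_zero hc' fun h0 => hne (by rw [h0, smul_zero])) hg.1 hg.2.1
    have h1 := hsupp0 le_rfl hN0 hs0 hs0F g hg.1 (fun j => Submodule.subset_span ⟨j, le_refl (A j), rfl⟩)
      J hJ
    refine lt_of_le_of_ne (Finset.sum_nonneg fun j _ => sq_nonneg _) fun h0 => ?_
    have h2 : ∀ j, A j = 0 := fun j => by
      have h3 := (Finset.sum_eq_zero_iff_of_nonneg fun j _ => sq_nonneg (A j)).1 h0.symm j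
        (Finset.mem_univ j)
      exact pow_eq_zero_iff (two_ne_zero) |>.1 h3
    simp only [h2, Finset.sum_const_zero] at h1
    omega
  obtain ⟨k, hkk⟩ : ∃ k : ℕ, (k : ℤ) = ∑ j, A j ^ 2 := ⟨_, Int.toNat_of_nonneg hk.le⟩
  have hk0 : 0 < k := by
    rw [← hkk] at hk
    exact_mod_cast hk
  -- the exponents of the character
  obtain ⟨κ0, hκ0⟩ : ∃ κ0 : ℤ, κ0 = m * ∑ j, |A j| := ⟨_, rfl⟩
  obtain ⟨q, hq⟩ : ∃ q : Fin r → ℕ, ∀ j, (q j : ℤ) = κ0 + m * A j := by
    refine ⟨fun j => (κ0 + m * A j).toNat, fun j => Int.toNat_of_nonneg ?_⟩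
    rw [hκ0, ← mul_add]
    refine mul_nonneg (Int.natCast_nonneg _) ?_
    have h1 : |A j| ≤ ∑ j, |A j| := Finset.single_le_sum (f := fun j => |A j|)
      (fun i _ => abs_nonneg _) (Finset.mem_univ j)
    have h2 := neg_abs_le (A j)
    linarith
  -- a finite family
  have h1 : ∀ N : ℕ, ∃ G : Finset (MultilinearMap K (fun _ : Fin N => V) K),
      (∀ t ∈ G, t ∈ valsR n X δ γ ι F e0 N) ∧
      ∀ t ∈ valsR n X δ γ ι F e0 N, t ∈ Submodule.span K (G : Set _) := by
    intro N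
    obtain ⟨G, hG1, hG2⟩ := (Submodule.fg_span_iff_fg_span_finset_subset (R := K)
      (valsR n X δ γ ι F e0 N)).1 (IsNoetherian.noetherian _)
    refine ⟨G, fun s hs => hG1 hs, fun s hs => ?_⟩
    rw [← hG2]
    exact Submodule.subset_span hs
  choose G hG1 hG2 using h1
  have h2 : ∀ i : (Σ N : Fin (N0 + 1), {x // x ∈ G N}), ∃
      (s : (Fin r → V) →
        MultilinearMap K (fun _ : Fin i.1 => V) K), 0 < (i.1 : ℕ) ∧
      IsTen n X δ γ ι 0 1 s ∧ (∀ B, LinearIndependent K B → ∀ (x : Fin i.1 → V) (k : Fin i.1),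
        x k ∈ F → s B x = 0) ∧ i.2.1 = s e0 :=
    fun i => hG1 _ _ i.2.2
  choose s ha hs hsF hse using h2
  have hle : ∀ i : (Σ N : Fin (N0 + 1), {x // x ∈ G N}), (i.1 : ℕ) ≤ N0 := fun i => by
    have := i.1.2
    omega
  let T : ∀ i : (Σ N : Fin (N0 + 1), {x // x ∈ G N}), (Fin (i.1 : ℕ) → Fin r) → K :=
    lcv (N := fun i : (Σ N : Fin (N0 + 1), {x // x ∈ G N}) => (i.1 : ℕ)) A (-m) s g
  have hgA : ∀ j, g j ∈ Submodule.span K (g '' {l | A j ≤ A l}) := fun j =>
    Submodule.subset_span ⟨j, le_refl (A j), rfl⟩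
  -- the perturbation inequality
  have PI : ∀ C : Matrix (Fin r) (Fin r) K, C.det ≠ 0 → (∀ i j, C i j ≠ 0 → A i = A j) →
      ∀ v : Fin r → ℝ, ∑ j, v j = 0 → ∀ M' : ℝ,
        (∀ i J, act C (T i) J ≠ 0 → ∑ l, v (J l) ≤ M') →
          0 ≤ m * ∑ j, A j * v j + M' * k := by
    intro C hC hCA v hv M' hM'
    have hD : LinearIndependent K (lt C g) := lt_li.2 ⟨hg.1, hC⟩
    have hDA : ∀ j, lt C g j ∈ Submodule.span K (g '' {l | A j ≤ A l}) := by
      intro j
      refine Submodule.sum_mem _ fun l _ => ?_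
      by_cases h : C j l = 0
      · rw [h, zero_smul]
        exact Submodule.zero_mem _
      · exact Submodule.smul_mem _ _ (Submodule.subset_span ⟨l, (hCA j l h).le, rfl⟩)
    have h1 := pert h𝒮D (hDestD _ hD hDA) hmin v hv M' (by
      rintro d t ⟨hdN, ht⟩ J hne hJ
      -- a member of the finite family
      have h2 : ∃ u ∈ G d, u (fun k => lt C g (J k)) ≠ 0 := by
        by_contra hcon
        push Not at hcon
        apply hne
        have h3 := hG2 d t ht
        clear hne ht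
        induction h3 using Submodule.span_induction with
        | mem u hu => exact hcon u hu
        | zero => rfl
        | add u u' _ _ hu hu' => rw [add_apply, hu, hu', add_zero]
        | smul c u _ hu => rw [smul_apply, hu, smul_zero]
      obtain ⟨u, huG, hu⟩ := h2
      have hdlt : d < N0 + 1 := by omega
      have h3 := hse ⟨⟨d, hdlt⟩, ⟨u, huG⟩⟩
      have h4 : u = s ⟨⟨d, hdlt⟩, ⟨u, huG⟩⟩ e0 := h3
      refine hM' ⟨⟨d, hdlt⟩, ⟨u, huG⟩⟩ J ?_
      obtain ⟨c, hc, hce⟩ := hval (hs ⟨⟨d, hdlt⟩, ⟨u, huG⟩⟩) g hg.1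
      have h5 := lead_act (A := A) (w := -m) (T := vcrd (N := fun i : (Σ N : Fin (N0 + 1),
        {x // x ∈ G N}) => (i.1 : ℕ)) (fun x => s x g) g ⟨⟨d, hdlt⟩, ⟨u, huG⟩⟩) (fun I hI =>
          hsupp0 (hle _) (ha _) (hs _) (hsF _) g hg.1 hgA I hI) (g := C) (fun i j h => (hCA i j h).le)
      have h6 : dg A C = C := by
        ext i j
        rw [dg_apply]
        split_ifs with h
        · rfl
        · by_contra hne'
          exact h (hCA i j (Ne.symm hne'))
      rw [h6] at h5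
      have h7 : act C (T ⟨⟨d, hdlt⟩, ⟨u, huG⟩⟩) J = lead A (-m) (act C (vcrd (N := fun i :
        (Σ N : Fin (N0 + 1), {x // x ∈ G N}) => (i.1 : ℕ)) (fun x => s x g) g
          ⟨⟨d, hdlt⟩, ⟨u, huG⟩⟩)) J := (congrFun h5 J).symm
      have hJ' : ∑ k, A (J k) = -m := by
        have h8 : ((∑ k, A (J k) : ℤ) : ℝ) = ((-m : ℤ) : ℝ) := by
          rw [hsumA, hJ]
          push_cast
          ring
        exact_mod_cast h8
      rw [h7, lead]
      have h9 : (if ∑ k, A (J k) = -(m : ℤ) then act C (vcrd (N := fun i :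
        (Σ N : Fin (N0 + 1), {x // x ∈ G N}) => (i.1 : ℕ)) (fun x => s x g) g
          ⟨⟨d, hdlt⟩, ⟨u, huG⟩⟩) J else 0) = act C (vcrd (N := fun i :
        (Σ N : Fin (N0 + 1), {x // x ∈ G N}) => (i.1 : ℕ)) (fun x => s x g) g
          ⟨⟨d, hdlt⟩, ⟨u, huG⟩⟩) J := if_pos hJ'
      rw [h9]
      have h10 := congrFun (vcrd_act (N := fun i :
        (Σ N : Fin (N0 + 1), {x // x ∈ G N}) => (i.1 : ℕ)) (fun x => s x g) g C
          ⟨⟨d, hdlt⟩, ⟨u, huG⟩⟩) J
      rw [← h10]
      change s ⟨⟨d, hdlt⟩, ⟨u, huG⟩⟩ g (fun k => lt C g (J k)) ≠ 0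
      rw [hce, smul_apply, ← h4]
      exact smul_ne_zero hc hu)
    have h2 : m * ∑ j, (A j : ℝ) * v j + M' * k = m ^ 2 * (∑ j, w j * v j + M' * ∑ j, w j ^ 2) := by
      have h3 : (k : ℝ) = ∑ j, (A j : ℝ) ^ 2 := by exact_mod_cast hkk
      have h4 : ∑ j, (A j : ℝ) * v j = m * ∑ j, w j * v j := by
        rw [Finset.mul_sum]
        refine Finset.sum_congr rfl fun j _ => ?_
        rw [hA]
        ring
      have h5 : ∑ j, (A j : ℝ) ^ 2 = m ^ 2 * ∑ j, w j ^ 2 := by
        rw [Finset.mul_sum]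
        refine Finset.sum_congr rfl fun j _ => ?_
        rw [hA]
        ring
      rw [h3, h4, h5]
      ring
    rw [h2]
    exact mul_nonneg (sq_nonneg _) h1
  have hTw : ∀ i (J : Fin (i.1 : ℕ) → Fin r), T i J ≠ 0 → ∑ l, A (J l) = -m := by
    intro i J hne
    by_contra h
    exact hne (if_neg h)
  have hnot := not_noInv (N := fun i : (Σ N : Fin (N0 + 1), {x // x ∈ G N}) => (i.1 : ℕ))
    hr0 T A m hA0 q κ0 hq k hkk hk0 hTw PI
  rw [NoInv] at hnot
  push Not at hnot
  obtain ⟨Q, hQf, hQd, hQn, ν, p, hp, hne⟩ := hnot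
  obtain ⟨I0, -, hI0⟩ := Finset.exists_ne_zero_of_sum_ne_zero hne
  have hpI0 : p I0 ≠ 0 := fun h => hI0 (by rw [h, map_zero, zero_mul])
  obtain ⟨m', hcard, hm'⟩ := hp.exists_m hr0 hpI0
  obtain ⟨q0⟩ : Nonempty Q := hQn
  have hQ0 : 0 < Fintype.card Q := Fintype.card_pos_iff.2 ⟨q0⟩
  obtain ⟨e, he⟩ : ∃ e : Fin r → ℤ, ∀ j, e j = m' + k * ∑ _x : Q, (0 : ℤ) -
    Fintype.card Q * q j := ⟨_, fun _ => rfl⟩
  have hQ0' : (0 : ℤ) < Fintype.card Q := by exact_mod_cast hQ0
  have hm0' : (0 : ℤ) < m := by exact_mod_cast hm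
  have heA : ∀ i j, e j ≤ e i ↔ A i ≤ A j := by
    intro i j
    rw [he, he, hq, hq]
    constructor
    · intro h
      have h1 : (Fintype.card Q : ℤ) * (κ0 + m * A i) ≤ Fintype.card Q * (κ0 + m * A j) := by
        linarith
      have h2 := le_of_mul_le_mul_left h1 hQ0'
      have h3 : (m : ℤ) * A i ≤ m * A j := by linarith
      exact le_of_mul_le_mul_left h3 hm0'
    · intro h
      have h3 := mul_le_mul_of_nonneg_left h hm0'.le
      have h2 : κ0 + m * A i ≤ κ0 + m * A j := by linarith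
      have h1 := mul_le_mul_of_nonneg_left h2 hQ0'.le
      linarith
  let ω : (Fin r → V) → K := LW (M := fun x => ((ν x).1 : ℕ)) A (-m) q k
    (fun x => s (ν x)) p
  have hgen : IsFlag n X δ γ ι g e (k * ∑ _x : Q, 1) ω :=
    flagV (M := fun x => ((ν x).1 : ℕ)) hδ (g := g) hm hq (k := k)
      (s := fun x B => s (ν x) B) (a := fun _ => 0)
      (b := fun _ => 1) (fun x => hs _) (fun D hD hDA x J hne' =>
        hsupp0 (hle _) (ha _) (hs (ν x)) (hsF (ν x)) D hD hDA J hne') hp hm' hQ0 he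
  have hsum : ∑ j, e j = k * ∑ x, (((ν x).1 : ℕ) : ℤ) := by
    have h3 : ∀ x, Fintype.card (IR (fun i : (Σ N : Fin (N0 + 1), {x // x ∈ G N}) => (i.1 : ℕ)) q k
        (ν x)) = k * (ν x).1 + ∑ j, q j := by
      intro x
      rw [Fintype.card_sum, Fintype.card_sigma, Fintype.card_sigma]
      simp only [Fintype.card_fin, Finset.sum_const, Finset.card_univ, smul_eq_mul]
    rw [Fintype.card_sigma] at hcard
    simp only [Fintype.card_fin] at hcard
    rw [Finset.sum_congr rfl fun x _ => h3 x, Finset.sum_add_distrib, Finset.sum_const,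
      Finset.card_univ, smul_eq_mul, ← Finset.mul_sum] at hcard
    have h4 : ((k : ℤ) * ∑ x, ((ν x).1 : ℕ) + Fintype.card Q * ∑ j, (q j : ℤ)) = r * m' := by
      exact_mod_cast hcard
    simp only [he]
    rw [Finset.sum_sub_distrib, Finset.sum_const, Finset.card_univ, Fintype.card_fin,
      nsmul_eq_mul, ← Finset.mul_sum, Finset.sum_const_zero, mul_zero, add_zero]
    push_cast at h4 ⊢
    linarith
  have hk0' : (0 : ℤ) < k := by exact_mod_cast hk0
  have hsum1 : 0 < ∑ j, e j := by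
    rw [hsum]
    exact mul_pos hk0' (Finset.sum_pos (fun x _ => by exact_mod_cast ha _)
      ⟨q0, Finset.mem_univ _⟩)
  have hmemF : ∀ j, F ≤ (mem g e (e j) : Submodule K V) := by
    intro j
    have h3 : (mem g e (e j) : Submodule K V) = flag g w (w j) := by
      rw [mem, flag]
      congr 2
      ext l
      exact (heA j l).trans (hAw j l)
    rw [h3]
    exact hCon K V r 𝒮 g w F hr0 hg hmin (fun d t ht => hkill d t ht.2) j
  -- the exponent on `F`
  have hel0 : e l0 = 0 := by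
    have h1 : ∀ x, (Finset.univ.filter fun l => I0 ⟨x, l⟩ = l0).card = q l0 := by
      intro x
      have h2 : RR A q k T (ν x) (fun l => I0 ⟨x, l⟩) ≠ 0 :=
        Finset.prod_ne_zero_iff.1 (right_ne_zero_of_mul hI0) x (Finset.mem_univ x)
      rw [RR] at h2
      have h3 := left_ne_zero_of_mul h2
      have h4 := right_ne_zero_of_mul h2
      rw [wordT] at h3
      have h5 : ∀ (y : Fin k) (l : Fin ((ν x).1 : ℕ)), I0 ⟨x, Fintype.equivFin
          (IR (fun i : (Σ N : Fin (N0 + 1), {x // x ∈ G N}) => (i.1 : ℕ)) q k (ν x))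
            (Sum.inl ⟨y, l⟩)⟩ ≠ l0 := by
        intro y l hl
        have h6 := Finset.prod_ne_zero_iff.1 h3 y (Finset.mem_univ y)
        apply h6
        change lcv A (-m) s g (ν x) _ = 0
        rw [lcv, lead]
        split_ifs
        swap
        · rfl
        refine hsF (ν x) g hg.1 _ l ?_
        beta_reduce
        rw [hl]
        exact hgl0
      have h7 := D0_count h4 l0
      have h8 : (Finset.univ.filter fun l => I0 ⟨x, l⟩ = l0).card =
          ∑ y : Fin k, ((Finset.univ.filter fun l : Fin ((ν x).1 : ℕ) =>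
            I0 ⟨x, Fintype.equivFin (IR (fun i : (Σ N : Fin (N0 + 1), {x // x ∈ G N}) => (i.1 : ℕ))
              q k (ν x)) (Sum.inl ⟨y, l⟩)⟩ = l0).card) + q l0 := by
        rw [← h7, Finset.card_filter, sum_IR q k (ν x)]
        congr 1
        · exact Finset.sum_congr rfl fun y _ => by rw [Finset.card_filter]
        · rw [Finset.card_filter]
      rw [h8, Finset.sum_eq_zero, zero_add]
      intro y _
      rw [Finset.card_eq_zero, Finset.filter_eq_empty_iff]
      intro l _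
      exact h5 y l
    have h2 : m' = Fintype.card Q * q l0 := by
      rw [← hm' I0 hpI0 l0, Finset.card_filter, Fintype.sum_sigma, ← smul_eq_mul,
        ← Finset.card_univ, ← Finset.sum_const]
      refine Finset.sum_congr rfl fun x _ => ?_
      rw [← h1 x, Finset.card_filter]
    rw [he, Finset.sum_const_zero, mul_zero, add_zero, h2]
    push_cast
    ring
  refine ⟨g, e, k * ∑ _x : Q, 1, ω, hg.1, hsum1,
    mul_nonneg (Int.natCast_nonneg _) (Finset.sum_nonneg fun _ _ => zero_le_one), hgen, ⟨g,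
    ⟨hg.1, fun j => Submodule.subset_span ⟨j, le_refl (e j), rfl⟩⟩, hne⟩, hmemF,
    fun j0 hj0 => ?_⟩
  have h1 : e j0 ≤ e l0 := hj0 l0
  have h2 : e l0 ≤ e j0 := (heA j0 l0).2 ((hAw j0 l0).2 (hwl0 j0))
  omega

end Pool.Agent.Helper91.SL
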