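import Pool.Agent.Helper91.SL.KodN

/-!
The flag of a tensor with values in a divisor.
-/

set_option autoImplicit false
set_option linter.unusedSectionVars false

namespace Pool.Agent.Helper91.SL

open Module FF Pool.Agent.W602.GT Pool.Agent.W603.LV Pool.Agent.TH143.GT Pool.Agent.Y220.OG
  Pool.Agent.Helper12.BL Pool.Agent.Helper91.HM Pool.Agent.Helper91.HM.Tw

open Pool.Agent.Helper91.FE (IsTen IsFlag flagV)
open Pool.Agent.Helper91.FD (VReg VLog VInv dl IsFr mem Adp vreg_sum vlog_sum vreg_smul vreg_sub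
  span_top exists_adp mem_mono mem_eq finrank_mem lt_restrictV FrOf frOf dl_le dl_nonneg vcrd
  vcrd_act lcv lcv_lt RR_smul' LW LW_smul LW_lt reg_changeV)

variable {K : Type} [Field K] [Algebra ℂ K] {V : Type} [AddCommGroup V] [Module K V] {n r : ℕ}
  {ι : V →ₗ[K] Derivation ℂ K K}

/-- there is a flag whose divisor has a nonzero section -/
def HasFlag (r n : ℕ) (X : Set (Place ℂ K)) (δ γ : Place ℂ K → ℝ)
    (ι : V →ₗ[K] Derivation ℂ K K) : Prop :=
  ∃ (g : Fin r → V) (e : Fin r → ℤ) (β : ℤ) (ω : (Fin r → V) → K), LinearIndependent K g ∧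
    0 < ∑ j, e j ∧ 0 ≤ β ∧ IsFlag n X δ γ ι g e β ω ∧ ∃ D, Adp (K := K) g e D ∧ ω D ≠ 0

/-- the set of the values of the twisted tensors in a basis -/
def vals (n : ℕ) (X : Set (Place ℂ K)) (δ γ : Place ℂ K → ℝ)
    (ι : V →ₗ[K] Derivation ℂ K K) (e : Fin r → V) (N : ℕ) :
    Set (MultilinearMap K (fun _ : Fin N => V) K) :=
  {t | ∃ (a : ℤ) (s : (Fin r → V) → MultilinearMap K (fun _ : Fin N => V) K),
    0 < (N : ℤ) + r * a ∧ IsTen n X δ γ ι a 1 s ∧ t = s e}

theorem destab [Algebra ℝ K] [IsScalarTower ℝ ℂ K] [Algebra.EssFiniteType ℂ K]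
    (hn : Algebra.trdeg ℂ K = n) (hι : Function.Injective ι) [FiniteDimensional K V]
    (hr : finrank K V = r) (hr0 : 0 < r) {X : Set (Place ℂ K)} {δ γ : Place ℂ K → ℝ}
    (hδ : ∀ P ∈ X, 0 ≤ δ P) (hκ : ¬ HasFlag r n X δ γ ι) {Y : Type} [Finite Y] {N : Y → ℕ}
    {a : Y → ℤ} (ha : ∀ x, 0 < (N x : ℤ) + r * a x)
    (s : ∀ x, (Fin r → V) → MultilinearMap K (fun _ : Fin (N x) => V) K)
    (hs : ∀ x, IsTen n X δ γ ι (a x) 1 (s x)) {e : Fin r → V} (he : LinearIndependent K e) :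
    ∃ (b : Fin r → V) (w : Fin r → ℤ), LinearIndependent K b ∧ ∑ j, w j = 0 ∧
      ∀ (x : Y) (J : Fin (N x) → Fin r), s x e (fun k => b (J k)) ≠ 0 → ∑ k, w (J k) < 0 := by
  classical
  let T : ∀ x, (Fin (N x) → Fin r) → K := vcrd (fun x => s x e) e
  have hlead : ∀ D : Fin r → V, lcv (fun _ => 0) 0 s D = vcrd (fun x => s x D) D := by
    intro D
    funext x
    rw [lcv]
    exact lead_of_hom fun I _ => by simp
  have hNI : NoInv (RR (fun _ => 0) (fun _ => 0) 1 T) := by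
    intro Q hQf hQd hQn ν p hp
    by_contra hne
    apply hκ
    obtain ⟨I0, -, hI0⟩ := Finset.exists_ne_zero_of_sum_ne_zero hne
    have hpI0 : p I0 ≠ 0 := fun h => hI0 (by rw [h, map_zero, zero_mul])
    obtain ⟨m', hcard, hm'⟩ := hp.exists_m hr0 hpI0
    obtain ⟨q0⟩ : Nonempty Q := hQn
    have hQ0 : 0 < Fintype.card Q := Fintype.card_pos_iff.2 ⟨q0⟩
    let ω : (Fin r → V) → K := LW (M := fun x => N (ν x)) (fun _ => 0) 0 (fun _ => 0) 1
      (fun x => s (ν x)) p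
    obtain ⟨e', he'⟩ : ∃ e' : Fin r → ℤ, ∀ j, e' j =
      m' + ((1 : ℕ) : ℤ) * ∑ x, a (ν x) - Fintype.card Q * ((0 : ℕ) : ℤ) := ⟨_, fun _ => rfl⟩
    have hgen : IsFlag n X δ γ ι e e' (((1 : ℕ) : ℤ) * ∑ _x : Q, 1) ω :=
      flagV (M := fun x => N (ν x)) hδ (g := e) (A := fun _ => 0) (w := 0) one_pos
        (q := fun _ => 0) (κ0 := 0) (fun j => by simp) (k := 1)
        (s := fun x B => s (ν x) B) (a := fun x => a (ν x))
        (b := fun _ => 1) (fun x => hs _) (fun D hD hDA x J hne' => by simp) hp hm' hQ0 he'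
    have hkey : ∑ j, e' j = ∑ x, ((N (ν x) : ℤ) + r * a (ν x)) := by
      have h3 : ∀ x, Fintype.card (IR N (fun _ : Fin r => 0) 1 (ν x)) = N (ν x) := by
        intro x
        rw [Fintype.card_sum, Fintype.card_sigma, Fintype.card_sigma]
        simp
      rw [Fintype.card_sigma] at hcard
      simp only [Fintype.card_fin] at hcard
      rw [Finset.sum_congr rfl fun x _ => h3 x] at hcard
      have h4 : (∑ x, (N (ν x) : ℤ)) = r * m' := by exact_mod_cast hcard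
      rw [Finset.sum_add_distrib, ← Finset.mul_sum, h4]
      simp only [he']
      rw [Finset.sum_const, Finset.card_univ, Fintype.card_fin, nsmul_eq_mul]
      push_cast
      ring
    refine ⟨e, e', ((1 : ℕ) : ℤ) * ∑ _x : Q, 1, ω, he, ?_, ?_, hgen, e,
      ⟨he, fun j => Submodule.subset_span ⟨j, le_refl (e' j), rfl⟩⟩, ?_⟩
    · rw [hkey]
      exact Finset.sum_pos (fun x _ => ha _) ⟨q0, Finset.mem_univ _⟩
    · exact mul_nonneg (Int.natCast_nonneg _) (Finset.sum_nonneg fun _ _ => zero_le_one)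
    · change ∑ I, algebraMap ℝ K (p I) * ∏ x, RR (fun _ => 0) (fun _ => 0) 1
        (lcv (N := fun x => N (ν x)) (fun _ => 0) 0 (fun x => s (ν x)) e) x
          (fun l => I ⟨x, l⟩) ≠ 0
      have h1 : lcv (N := fun x => N (ν x)) (fun _ => 0) 0 (fun x => s (ν x)) e =
          fun x => T (ν x) := by
        funext x
        exact congrFun (hlead e) (ν x)
      rw [h1]
      exact hne
  obtain ⟨g, w, hg, hw, hact⟩ := hmk hr0 (RR (fun _ => 0) (fun _ => 0) 1 T) hNI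
  refine ⟨lt g e, w, lt_li.2 ⟨he, hg⟩, hw, fun x J hne => ?_⟩
  have h1 : act g (T x) J ≠ 0 := by
    have h2 := congrFun (vcrd_act (fun x => s x e) e g x) J
    rw [← h2]
    exact hne
  obtain ⟨J', hJ'⟩ : ∃ J' : Fin (Fintype.card (IR N (fun _ : Fin r => 0) 1 x)) → Fin r, ∀ y,
      J' y = Sum.elim (fun y : (Σ _ : Fin 1, Fin (N x)) => J y.2)
        (fun z : P0 (fun _ : Fin r => 0) => z.1)
        ((Fintype.equivFin (IR N (fun _ : Fin r => 0) 1 x)).symm y) := ⟨_, fun _ => rfl⟩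
  have hJl : ∀ y : Fin 1, ∀ l : Fin (N x),
      J' (Fintype.equivFin (IR N (fun _ : Fin r => 0) 1 x) (Sum.inl ⟨y, l⟩)) = J l := fun y l => by
    rw [hJ', Equiv.symm_apply_apply]
    rfl
  have hP0 : IsEmpty (P0 (fun _ : Fin r => 0)) := ⟨fun z => z.2.elim0⟩
  have h2 : act g (RR (fun _ => 0) (fun _ => 0) 1 T x) J' ≠ 0 := by
    rw [act_RR (A := fun _ => 0) (fun _ _ _ => rfl) 1 T x (fun _ _ _ => rfl) J']
    refine mul_ne_zero ?_ ?_
    · rw [chi, Matrix.det_isEmpty]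
      exact one_ne_zero
    · rw [RR]
      refine mul_ne_zero ?_ ?_
      · rw [wordT]
        refine Finset.prod_ne_zero_iff.2 fun y _ => ?_
        simp only [hJl]
        exact h1
      · rw [D0, Matrix.det_isEmpty]
        exact one_ne_zero
  have h3 := hact x J' h2
  rw [sum_IR (fun _ : Fin r => 0) 1 x] at h3
  simp only [hJl] at h3
  simpa using h3

theorem boundedV [Algebra ℝ K] [IsScalarTower ℝ ℂ K] [Algebra.EssFiniteType ℂ K]
    (hn : Algebra.trdeg ℂ K = n) (hι : Function.Injective ι) [FiniteDimensional K V]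
    (hr : finrank K V = r) (hr0 : 0 < r) {X : Set (Place ℂ K)} {δ γ : Place ℂ K → ℝ}
    (hδ : ∀ P ∈ X, 0 ≤ δ P) (hκ : ¬ HasFlag r n X δ γ ι) {e : Fin r → V}
    (he : LinearIndependent K e) (d : ℕ) :
    ∃ (b : Fin r → V) (w : Fin r → ℤ), LinearIndependent K b ∧
      ∑ j, w j = 0 ∧ ∀ N, N ≤ d → ∀ t ∈ vals n X δ γ ι e N, ∀ J : Fin N → Fin r,
        t (fun k => b (J k)) ≠ 0 → ∑ k, w (J k) < 0 := by
  classical
  have h1 : ∀ N : ℕ, ∃ F : Finset (MultilinearMap K (fun _ : Fin N => V) K),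
      (∀ t ∈ F, t ∈ vals n X δ γ ι e N) ∧
      ∀ t ∈ vals n X δ γ ι e N, t ∈ Submodule.span K (F : Set _) := by
    intro N
    obtain ⟨F, hF1, hF2⟩ := (Submodule.fg_span_iff_fg_span_finset_subset (R := K)
      (vals n X δ γ ι e N)).1 (IsNoetherian.noetherian _)
    refine ⟨F, fun s hs => hF1 hs, fun s hs => ?_⟩
    rw [← hF2]
    exact Submodule.subset_span hs
  choose F hF1 hF2 using h1
  have h2 : ∀ i : (Σ N : Fin (d + 1), {x // x ∈ F N}), ∃ (a : ℤ)
      (s : (Fin r → V) → MultilinearMap K (fun _ : Fin i.1 => V) K),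
      0 < ((i.1 : ℕ) : ℤ) + r * a ∧
        IsTen n X δ γ ι a 1 s ∧ i.2.1 = s e := fun i => hF1 _ _ i.2.2
  choose a s ha hs hse using h2
  obtain ⟨b, w, hb, hw, hdes⟩ := destab hn hι hr hr0 hδ hκ (Y := Σ N : Fin (d + 1), {x // x ∈ F N})
    (N := fun i => i.1) ha s hs he
  refine ⟨b, w, hb, hw, fun N hNd t ht J hne => ?_⟩
  by_contra hlt
  apply hne
  have h2 := hF2 _ t ht
  clear ht hne
  induction h2 using Submodule.span_induction with
  | mem t ht =>
    by_contra hne'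
    have h3 := hse ⟨⟨N, by omega⟩, ⟨t, ht⟩⟩
    have h4 : t = s ⟨⟨N, by omega⟩, ⟨t, ht⟩⟩ e := h3
    rw [h4] at hne'
    exact hlt (hdes ⟨⟨N, by omega⟩, ⟨t, ht⟩⟩ J hne')
  | zero => rfl
  | add t u _ _ ht hu => rw [add_apply, ht, hu, add_zero]
  | smul c t _ ht => rw [smul_apply, ht, smul_zero]

/-- **The flag of a tensor.** -/
theorem hasFlag [Algebra.EssFiniteType ℂ K]
    (hn : Algebra.trdeg ℂ K = n) (hι : Function.Injective ι) [FiniteDimensional K V]
    (hr : finrank K V = r) (hr0 : 0 < r) {X : Set (Place ℂ K)} {δ γ : Place ℂ K → ℝ}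
    (hδ : ∀ P ∈ X, 0 ≤ δ P) {N0 : ℕ} {a0 : ℤ}
    (hN0 : 0 < (N0 : ℤ) + r * a0)
    {s0 : (Fin r → V) → MultilinearMap K (fun _ : Fin N0 => V) K}
    (hs0 : IsTen n X δ γ ι a0 1 s0) (hs0n : ∃ B, LinearIndependent K B ∧ s0 B ≠ 0)
    {e0 : Fin r → V} (he0 : LinearIndependent K e0) : HasFlag r n X δ γ ι := by
  by_contra hκ
  classical
  let _ : Algebra ℝ K := Algebra.compHom K (algebraMap ℝ ℂ)
  have _ : IsScalarTower ℝ ℂ K := IsScalarTower.of_algebraMap_eq fun _ => rfl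
  have he0s := span_top hr he0
  let 𝒮 : ∀ d : ℕ, Set (MultilinearMap K (fun _ : Fin d => V) K) :=
    fun d => {t | d ≤ N0 ∧ t ∈ vals n X δ γ ι e0 d}
  obtain ⟨b1, a1, hb1, ha1, hdes⟩ := boundedV hn hι hr hr0 hδ hκ he0 N0
  have hDest1 : Dest 𝒮 b1 (fun j => (a1 j : ℝ)) := by
    refine ⟨hb1, span_top hr hb1, ?_, ?_⟩
    · beta_reduce
      exact_mod_cast ha1
    · rintro d s ⟨hdm, hs⟩ J hne
      have h2 := hdes d hdm s hs J hne
      have h3 : ∑ k, a1 (J k) ≤ -1 := by omega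
      beta_reduce
      exact_mod_cast h3
  have h𝒮D : ∀ d, ∀ s ∈ 𝒮 d, d ≤ N0 := fun d s hs => hs.1
  obtain ⟨g, w, hg, hmin⟩ := exists_min h𝒮D hDest1
  obtain ⟨A, m, hm, hA⟩ := rational h𝒮D hg hmin
  have hmR : (0 : ℝ) < m := by exact_mod_cast hm
  have hA0 : ∑ j, A j = 0 := by
    have h1 : ((∑ j, A j : ℤ) : ℝ) = 0 := by
      push_cast
      rw [Finset.sum_congr rfl fun j _ => hA j, ← Finset.mul_sum, hg.2.2.1, mul_zero]
    exact_mod_cast h1
  have hAw : ∀ i j, A i ≤ A j ↔ w i ≤ w j := by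
    intro i j
    have h1 : (A i : ℝ) ≤ A j ↔ w i ≤ w j := by
      rw [hA, hA]
      exact mul_le_mul_iff_right₀ hmR
    rw [← h1]
    exact Int.cast_le.symm
  have hsumA : ∀ {d : ℕ} (J : Fin d → Fin r), ((∑ k, A (J k) : ℤ) : ℝ) = m * ∑ k, w (J k) := by
    intro d J
    push_cast
    rw [Finset.mul_sum]
    exact Finset.sum_congr rfl fun k _ => hA _
  -- adapted bases
  have hDestD : ∀ D : Fin r → V, LinearIndependent K D →
      (∀ j, D j ∈ Submodule.span K (g '' {l | A j ≤ A l})) → Dest 𝒮 D w := by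
    intro D hD hDA
    refine hg.change hD (span_top hr hD) hg.2.2.1 fun j => ?_
    have h1 := hDA j
    have h2 : {l | A j ≤ A l} = {l | w j ≤ w l} := by
      ext l
      exact hAw j l
    rwa [h2] at h1
  have hval : ∀ {d : ℕ} {a : ℤ} {s : (Fin r → V) →
      MultilinearMap K (fun _ : Fin d => V) K}, IsTen n X δ γ ι a 1 s →
      ∀ D, LinearIndependent K D → ∃ c : K, c ≠ 0 ∧ s D = c • s e0 := by
    intro d a s hs D hD
    obtain ⟨C, hC⟩ := exists_lt (D := D) he0s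
    have h3 := (lt_li.1 (hC ▸ hD)).2
    refine ⟨C.det ^ a, zpow_ne_zero _ h3, ?_⟩
    rw [hC]
    exact hs.1 C e0 he0 h3
  have hsupp0 : ∀ {d : ℕ} {a : ℤ} {s : (Fin r → V) →
      MultilinearMap K (fun _ : Fin d => V) K}, d ≤ N0 → 0 < (d : ℤ) + r * a →
      IsTen n X δ γ ι a 1 s → ∀ D, LinearIndependent K D →
      (∀ j, D j ∈ Submodule.span K (g '' {l | A j ≤ A l})) → ∀ J : Fin d → Fin r,
        s D (fun k => D (J k)) ≠ 0 → ∑ k, A (J k) ≤ -m := by
    intro d a s hd ha hs D hD hDA J hne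
    obtain ⟨c, hc, hce⟩ := hval hs D hD
    have h1 : s e0 (fun k => D (J k)) ≠ 0 := by
      intro h0
      apply hne
      rw [hce, smul_apply, h0, smul_zero]
    have h2 := (hDestD D hD hDA).2.2.2 d (s e0) ⟨hd, a, s, ha, hs, rfl⟩ J h1
    have h3 : ((∑ k, A (J k) : ℤ) : ℝ) ≤ ((-m : ℤ) : ℝ) := by
      rw [hsumA]
      push_cast
      nlinarith
    exact_mod_cast h3
  -- the weights are not zero
  have hk : 0 < ∑ j, A j ^ 2 := by
    obtain ⟨B, hB, hne⟩ := hs0n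
    obtain ⟨J, hJ⟩ := exists_ne_of_ne (t := s0 g) (by
      obtain ⟨c, hc, hce⟩ := hval hs0 B hB
      obtain ⟨c', hc', hce'⟩ := hval hs0 g hg.1
      rw [hce']
      rw [hce] at hne
      exact smul_ne_zero hc' fun h0 => hne (by rw [h0, smul_zero])) hg.1 hg.2.1
    have h1 := hsupp0 le_rfl hN0 hs0 g hg.1 (fun j => Submodule.subset_span ⟨j, le_refl (A j), rfl⟩)
      J hJ
    refine lt_of_le_of_ne (Finset.sum_nonneg fun j _ => sq_nonneg _) fun h0 => ?_
    have h2 : ∀ j, A j = 0 := fun j => by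
      have h3 := (Finset.sum_eq_zero_iff_of_nonneg fun j _ => sq_nonneg (A j)).1 h0.symm j
        (Finset.mem_univ j)
      exact pow_eq_zero_iff (two_ne_zero) |>.1 h3
    simp only [h2, Finset.sum_const_zero] at h1
    omega
  obtain ⟨k, hkk⟩ : ∃ k : ℕ, (k : ℤ) = ∑ j, A j ^ 2 := ⟨_, Int.toNat_of_nonneg hk.le⟩
  have hk0 : 0 < k := by
    rw [← hkk] at hk
    exact_mod_cast hk
  -- the exponents of the character
  obtain ⟨κ0, hκ0⟩ : ∃ κ0 : ℤ, κ0 = m * ∑ j, |A j| := ⟨_, rfl⟩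
  obtain ⟨q, hq⟩ : ∃ q : Fin r → ℕ, ∀ j, (q j : ℤ) = κ0 + m * A j := by
    refine ⟨fun j => (κ0 + m * A j).toNat, fun j => Int.toNat_of_nonneg ?_⟩
    rw [hκ0, ← mul_add]
    refine mul_nonneg (Int.natCast_nonneg _) ?_
    have h1 : |A j| ≤ ∑ j, |A j| := Finset.single_le_sum (f := fun j => |A j|)
      (fun i _ => abs_nonneg _) (Finset.mem_univ j)
    have h2 := neg_abs_le (A j)
    linarith
  -- a finite family
  have h1 : ∀ N : ℕ, ∃ F : Finset (MultilinearMap K (fun _ : Fin N => V) K),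
      (∀ t ∈ F, t ∈ vals n X δ γ ι e0 N) ∧
      ∀ t ∈ vals n X δ γ ι e0 N, t ∈ Submodule.span K (F : Set _) := by
    intro N
    obtain ⟨F, hF1, hF2⟩ := (Submodule.fg_span_iff_fg_span_finset_subset (R := K)
      (vals n X δ γ ι e0 N)).1 (IsNoetherian.noetherian _)
    refine ⟨F, fun s hs => hF1 hs, fun s hs => ?_⟩
    rw [← hF2]
    exact Submodule.subset_span hs
  choose F hF1 hF2 using h1
  have h2 : ∀ i : (Σ N : Fin (N0 + 1), {x // x ∈ F N}), ∃ (a : ℤ)
      (s : (Fin r → V) →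
        MultilinearMap K (fun _ : Fin i.1 => V) K), 0 < ((i.1 : ℕ) : ℤ) + r * a ∧
      IsTen n X δ γ ι a 1 s ∧ i.2.1 = s e0 :=
    fun i => hF1 _ _ i.2.2
  choose a s ha hs hse using h2
  have hle : ∀ i : (Σ N : Fin (N0 + 1), {x // x ∈ F N}), (i.1 : ℕ) ≤ N0 := fun i => by
    have := i.1.2
    omega
  let T : ∀ i : (Σ N : Fin (N0 + 1), {x // x ∈ F N}), (Fin (i.1 : ℕ) → Fin r) → K :=
    lcv (N := fun i : (Σ N : Fin (N0 + 1), {x // x ∈ F N}) => (i.1 : ℕ)) A (-m) s g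
  have hgA : ∀ j, g j ∈ Submodule.span K (g '' {l | A j ≤ A l}) := fun j =>
    Submodule.subset_span ⟨j, le_refl (A j), rfl⟩
  -- the perturbation inequality
  have PI : ∀ C : Matrix (Fin r) (Fin r) K, C.det ≠ 0 → (∀ i j, C i j ≠ 0 → A i = A j) →
      ∀ v : Fin r → ℝ, ∑ j, v j = 0 → ∀ M' : ℝ,
        (∀ i J, act C (T i) J ≠ 0 → ∑ l, v (J l) ≤ M') →
          0 ≤ m * ∑ j, A j * v j + M' * k := by
    intro C hC hCA v hv M' hM'
    have hD : LinearIndependent K (lt C g) := lt_li.2 ⟨hg.1, hC⟩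
    have hDA : ∀ j, lt C g j ∈ Submodule.span K (g '' {l | A j ≤ A l}) := by
      intro j
      refine Submodule.sum_mem _ fun l _ => ?_
      by_cases h : C j l = 0
      · rw [h, zero_smul]
        exact Submodule.zero_mem _
      · exact Submodule.smul_mem _ _ (Submodule.subset_span ⟨l, (hCA j l h).le, rfl⟩)
    have h1 := pert h𝒮D (hDestD _ hD hDA) hmin v hv M' (by
      rintro d t ⟨hdN, ht⟩ J hne hJ
      -- a member of the finite family
      have h2 : ∃ u ∈ F d, u (fun k => lt C g (J k)) ≠ 0 := by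
        by_contra hcon
        push Not at hcon
        apply hne
        have h3 := hF2 d t ht
        clear hne ht
        induction h3 using Submodule.span_induction with
        | mem u hu => exact hcon u hu
        | zero => rfl
        | add u u' _ _ hu hu' => rw [add_apply, hu, hu', add_zero]
        | smul c u _ hu => rw [smul_apply, hu, smul_zero]
      obtain ⟨u, huF, hu⟩ := h2
      have hdlt : d < N0 + 1 := by omega
      have h3 := hse ⟨⟨d, hdlt⟩, ⟨u, huF⟩⟩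
      have h4 : u = s ⟨⟨d, hdlt⟩, ⟨u, huF⟩⟩ e0 := h3
      refine hM' ⟨⟨d, hdlt⟩, ⟨u, huF⟩⟩ J ?_
      obtain ⟨c, hc, hce⟩ := hval (hs ⟨⟨d, hdlt⟩, ⟨u, huF⟩⟩) g hg.1
      have h5 := lead_act (A := A) (w := -m) (T := vcrd (N := fun i : (Σ N : Fin (N0 + 1),
        {x // x ∈ F N}) => (i.1 : ℕ)) (fun x => s x g) g ⟨⟨d, hdlt⟩, ⟨u, huF⟩⟩) (fun I hI =>
          hsupp0 (hle _) (ha _) (hs _) g hg.1 hgA I hI) (g := C) (fun i j h => (hCA i j h).le)
      have h6 : dg A C = C := by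
        ext i j
        rw [dg_apply]
        split_ifs with h
        · rfl
        · by_contra hne'
          exact h (hCA i j (Ne.symm hne'))
      rw [h6] at h5
      have h7 : act C (T ⟨⟨d, hdlt⟩, ⟨u, huF⟩⟩) J = lead A (-m) (act C (vcrd (N := fun i :
        (Σ N : Fin (N0 + 1), {x // x ∈ F N}) => (i.1 : ℕ)) (fun x => s x g) g
          ⟨⟨d, hdlt⟩, ⟨u, huF⟩⟩)) J := (congrFun h5 J).symm
      have hJ' : ∑ k, A (J k) = -m := by
        have h8 : ((∑ k, A (J k) : ℤ) : ℝ) = ((-m : ℤ) : ℝ) := by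
          rw [hsumA, hJ]
          push_cast
          ring
        exact_mod_cast h8
      rw [h7, lead]
      have h9 : (if ∑ k, A (J k) = -(m : ℤ) then act C (vcrd (N := fun i :
        (Σ N : Fin (N0 + 1), {x // x ∈ F N}) => (i.1 : ℕ)) (fun x => s x g) g
          ⟨⟨d, hdlt⟩, ⟨u, huF⟩⟩) J else 0) = act C (vcrd (N := fun i :
        (Σ N : Fin (N0 + 1), {x // x ∈ F N}) => (i.1 : ℕ)) (fun x => s x g) g
          ⟨⟨d, hdlt⟩, ⟨u, huF⟩⟩) J := if_pos hJ'
      rw [h9]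
      have h10 := congrFun (vcrd_act (N := fun i :
        (Σ N : Fin (N0 + 1), {x // x ∈ F N}) => (i.1 : ℕ)) (fun x => s x g) g C
          ⟨⟨d, hdlt⟩, ⟨u, huF⟩⟩) J
      rw [← h10]
      change s ⟨⟨d, hdlt⟩, ⟨u, huF⟩⟩ g (fun k => lt C g (J k)) ≠ 0
      rw [hce, smul_apply, ← h4]
      exact smul_ne_zero hc hu)
    have h2 : m * ∑ j, (A j : ℝ) * v j + M' * k = m ^ 2 * (∑ j, w j * v j + M' * ∑ j, w j ^ 2) := by
      have h3 : (k : ℝ) = ∑ j, (A j : ℝ) ^ 2 := by exact_mod_cast hkk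
      have h4 : ∑ j, (A j : ℝ) * v j = m * ∑ j, w j * v j := by
        rw [Finset.mul_sum]
        refine Finset.sum_congr rfl fun j _ => ?_
        rw [hA]
        ring
      have h5 : ∑ j, (A j : ℝ) ^ 2 = m ^ 2 * ∑ j, w j ^ 2 := by
        rw [Finset.mul_sum]
        refine Finset.sum_congr rfl fun j _ => ?_
        rw [hA]
        ring
      rw [h3, h4, h5]
      ring
    rw [h2]
    exact mul_nonneg (sq_nonneg _) h1
  have hTw : ∀ i (J : Fin (i.1 : ℕ) → Fin r), T i J ≠ 0 → ∑ l, A (J l) = -m := by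
    intro i J hne
    by_contra h
    exact hne (if_neg h)
  have hnot := not_noInv (N := fun i : (Σ N : Fin (N0 + 1), {x // x ∈ F N}) => (i.1 : ℕ))
    hr0 T A m hA0 q κ0 hq k hkk hk0 hTw PI
  rw [NoInv] at hnot
  push Not at hnot
  obtain ⟨Q, hQf, hQd, hQn, ν, p, hp, hne⟩ := hnot
  obtain ⟨I0, -, hI0⟩ := Finset.exists_ne_zero_of_sum_ne_zero hne
  have hpI0 : p I0 ≠ 0 := fun h => hI0 (by rw [h, map_zero, zero_mul])
  obtain ⟨m', hcard, hm'⟩ := hp.exists_m hr0 hpI0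
  obtain ⟨q0⟩ : Nonempty Q := hQn
  have hQ0 : 0 < Fintype.card Q := Fintype.card_pos_iff.2 ⟨q0⟩
  obtain ⟨e, he⟩ : ∃ e : Fin r → ℤ, ∀ j, e j = m' + k * ∑ x, a (ν x) - Fintype.card Q * q j :=
    ⟨_, fun _ => rfl⟩
  have hQ0' : (0 : ℤ) < Fintype.card Q := by exact_mod_cast hQ0
  have hm0' : (0 : ℤ) < m := by exact_mod_cast hm
  have heA : ∀ i j, e j ≤ e i ↔ A i ≤ A j := by
    intro i j
    rw [he, he, hq, hq]
    constructor
    · intro h
      have h1 : (Fintype.card Q : ℤ) * (κ0 + m * A i) ≤ Fintype.card Q * (κ0 + m * A j) := by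
        linarith
      have h2 := le_of_mul_le_mul_left h1 hQ0'
      have h3 : (m : ℤ) * A i ≤ m * A j := by linarith
      exact le_of_mul_le_mul_left h3 hm0'
    · intro h
      have h3 := mul_le_mul_of_nonneg_left h hm0'.le
      have h2 : κ0 + m * A i ≤ κ0 + m * A j := by linarith
      have h1 := mul_le_mul_of_nonneg_left h2 hQ0'.le
      linarith
  let ω : (Fin r → V) → K := LW (M := fun x => ((ν x).1 : ℕ)) A (-m) q k
    (fun x => s (ν x)) p
  have hgen : IsFlag n X δ γ ι g e (k * ∑ _x : Q, 1) ω :=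
    flagV (M := fun x => ((ν x).1 : ℕ)) hδ (g := g) hm hq (k := k)
      (s := fun x B => s (ν x) B) (a := fun x => a (ν x))
      (b := fun _ => 1) (fun x => hs _) (fun D hD hDA x J hne' =>
        hsupp0 (hle _) (ha _) (hs (ν x)) D hD hDA J hne') hp hm' hQ0 he
  have hsum : ∑ j, e j = k * ∑ x, ((((ν x).1 : ℕ) : ℤ) + r * a (ν x)) := by
    have h3 : ∀ x, Fintype.card (IR (fun i : (Σ N : Fin (N0 + 1), {x // x ∈ F N}) => (i.1 : ℕ)) q k
        (ν x)) = k * (ν x).1 + ∑ j, q j := by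
      intro x
      rw [Fintype.card_sum, Fintype.card_sigma, Fintype.card_sigma]
      simp only [Fintype.card_fin, Finset.sum_const, Finset.card_univ, smul_eq_mul]
    rw [Fintype.card_sigma] at hcard
    simp only [Fintype.card_fin] at hcard
    rw [Finset.sum_congr rfl fun x _ => h3 x, Finset.sum_add_distrib, Finset.sum_const,
      Finset.card_univ, smul_eq_mul, ← Finset.mul_sum] at hcard
    have h4 : ((k : ℤ) * ∑ x, ((ν x).1 : ℕ) + Fintype.card Q * ∑ j, (q j : ℤ)) = r * m' := by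
      exact_mod_cast hcard
    simp only [he]
    rw [Finset.sum_sub_distrib, Finset.sum_const, Finset.card_univ, Fintype.card_fin,
      nsmul_eq_mul, ← Finset.mul_sum, Finset.sum_add_distrib, mul_add, ← Finset.mul_sum]
    push_cast at h4 ⊢
    linarith
  have hk0' : (0 : ℤ) < k := by exact_mod_cast hk0
  have hsum1 : 0 < ∑ j, e j := by
    rw [hsum]
    exact mul_pos hk0' (Finset.sum_pos (fun x _ => ha _) ⟨q0, Finset.mem_univ _⟩)
  exact hκ ⟨g, e, k * ∑ _x : Q, 1, ω, hg.1, hsum1,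
    mul_nonneg (Int.natCast_nonneg _) (Finset.sum_nonneg fun _ _ => zero_le_one), hgen, g,
    ⟨hg.1, fun j => Submodule.subset_span ⟨j, le_refl (e j), rfl⟩⟩, hne⟩

end Pool.Agent.Helper91.SL
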