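import Pool.Agent.Helper91.SL.Def

/-!
More packages of the project.
-/

set_option autoImplicit false
set_option linter.unusedSectionVars false

namespace Pool.Agent.Helper91.SL

open Module FF Pool.Agent.W602.GT Pool.Agent.W603.LV Pool.Agent.TH143.GT Pool.Agent.Y220.OG
  Pool.Agent.Helper12.BL Pool.Agent.Helper91.HM Pool.Agent.Helper91.HM.Tw

open Pool.Agent.Helper91.FE (Mix IsTen)
open Pool.Agent.Helper91.FD (VReg VLog VInv dl IsFr brk)

/-- P5: brackets -/
def S_Brk : Prop :=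
  ∀ (K : Type) [Field K] [Algebra ℂ K] (n : ℕ) (X : Set (Place ℂ K)) (δ : Place ℂ K → ℝ)
    (N : Set (Place ℂ K → ℝ)) (U : Submodule K (Derivation ℂ K K)),
    (∀ P ∈ X, 0 ≤ δ P) → NoMix n X δ N U → NoMix n X δ N (brk U)

/-- P6: tensors with values in multiples of the canonical divisor -/
def S_Tw : Prop :=
  ∀ (K : Type) [Field K] [Algebra ℂ K] [Algebra.EssFiniteType ℂ K] (n : ℕ)
    (X : Set (Place ℂ K)) (δ : Place ℂ K → ℝ)
    (N : Set (Place ℂ K → ℝ)) (U : Submodule K (Derivation ℂ K K)), Algebra.trdeg ℂ K = n →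
    (∀ P ∈ X, 0 ≤ δ P) → (∀ P ∈ X, δ P ≤ 1) → 0 < finrank K U → NoMix n X δ N U →
      ∀ (a M : ℕ), 0 < M + a → ∀ γ ∈ N, ∀ s : (Fin (finrank K U) → U) →
        MultilinearMap K (fun _ : Fin M => U) K, IsTen n X δ γ U.subtype (a : ℤ) 1 s →
          ∀ B, LinearIndependent K B → s B = 0

/-- P6': the converse for `a = 0` -/
def S_Pure : Prop :=
  ∀ (K : Type) [Field K] [Algebra ℂ K] (n : ℕ) (X : Set (Place ℂ K)) (δ : Place ℂ K → ℝ)
    (N : Set (Place ℂ K → ℝ)) (U : Submodule K (Derivation ℂ K K)),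
    FiniteDimensional K (Derivation ℂ K K) →
    (∀ M : ℕ, 0 < M → ∀ γ ∈ N, ∀ s : (Fin (finrank K U) → U) →
        MultilinearMap K (fun _ : Fin M => U) K, IsTen n X δ γ U.subtype 0 1 s →
          ∀ B, LinearIndependent K B → s B = 0) → NoMix n X δ N U

end Pool.Agent.Helper91.SL
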