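import Pool.Agent.Helper91.SL.FlagT
import Pool.Agent.Helper91.SL.Stm
import Pool.Agent.Helper91.FE.Ind

/-!
Distributions of minimal rank with negative canonical divisor.
-/

set_option autoImplicit false
set_option linter.unusedSectionVars false

namespace Pool.Agent.Helper91.SL

open Module FF Pool.Agent.W602.GT Pool.Agent.W603.LV Pool.Agent.TH143.GT Pool.Agent.Y220.OG
  Pool.Agent.Helper12.BL Pool.Agent.Helper91.HM Pool.Agent.Helper91.HM.Tw

open Pool.Agent.Helper91.FE (IsTen IsFlag)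
open Pool.Agent.Helper91.FD (VReg VLog VInv dl IsFr mem Adp span_top finDim brk)

section transport

variable {K : Type} [Field K] [Algebra ℂ K] {V V' : Type} [AddCommGroup V] [Module K V]
  [AddCommGroup V'] [Module K V'] {n r : ℕ}
  {ι : V →ₗ[K] Derivation ℂ K K} {ι' : V' →ₗ[K] Derivation ℂ K K}

theorem secN_transport (e : V ≃ₗ[K] V') (he : ∀ v, ι' (e v) = ι v) {X : Set (Place ℂ K)}
    {δ : Place ℂ K → ℝ} {N : Set (Place ℂ K → ℝ)} (h : SecN r n X δ N ι') :
    SecN r n X δ N ι := by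
  have hreg : ∀ P v, VReg ι' P (e v) ↔ VReg ι P v := fun P v => by rw [VReg, VReg, he]
  have hlog : ∀ P v, VLog ι' P (e v) ↔ VLog ι P v := fun P v => by rw [VLog, VLog, he]
  have hinv : ∀ P, VInv ι' P ↔ VInv ι P := fun P => by
    constructor
    · intro hP v hv
      exact (hlog P v).1 (hP _ ((hreg P v).2 hv))
    · intro hP v hv
      obtain ⟨u, rfl⟩ := e.surjective v
      exact (hlog P u).2 (hP _ ((hreg P u).1 hv))
  have hdl : ∀ P, dl δ ι' P = dl δ ι P := fun P => by
    by_cases hP : VInv ι P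
    · rw [dl, dl, if_pos hP, if_pos ((hinv P).2 hP)]
    · rw [dl, dl, if_neg hP, if_neg fun h' => hP ((hinv P).1 h')]
  obtain ⟨m, hm, γ, hγ, ω, hω, D, hD⟩ := h
  refine ⟨m, hm, γ, hγ, fun B => ω (fun i => e (B i)), ⟨fun A D => ?_,
    fun P hP hdiv D hD => ?_⟩, fun i => e.symm (D i), ?_⟩
  · have h1 : (fun i => e (lt A D i)) = lt A (fun i => e (D i)) := by
      funext i
      rw [lt, map_sum]
      exact Finset.sum_congr rfl fun l _ => map_smul _ _ _
    change ω (fun i => e (lt A D i)) = A.det ^ m * ω (fun i => e (D i))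
    rw [h1, hω.1]
  · rw [← hdl]
    exact hω.2 P hP hdiv _ fun i => (hreg P _).2 (hD i)
  · simp only [LinearEquiv.apply_symm_apply]
    exact hD

end transport

variable {K : Type} [Field K] [Algebra ℂ K] {n : ℕ}

/-- Minimal rank. -/
theorem exists_min_neg [Algebra.EssFiniteType ℂ K] (hn : Algebra.trdeg ℂ K = n) (hn0 : 0 < n)
    {X : Set (Place ℂ K)} {δ : Place ℂ K → ℝ} (hδ : ∀ P ∈ X, 0 ≤ δ P)
    {N : Set (Place ℂ K → ℝ)} (hN : Neg n X N)
    (hnot : ¬ SecN (finrank K (⊤ : Submodule K (Derivation ℂ K K))) n X δ N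
      (⊤ : Submodule K (Derivation ℂ K K)).subtype) :
    ∃ U : Submodule K (Derivation ℂ K K), 0 < finrank K U ∧
      ∀ (M : ℕ) (a : ℤ), 0 < (M : ℤ) + finrank K U * a → ∀ γ ∈ N,
        ∀ s : (Fin (finrank K U) → U) → MultilinearMap K (fun _ : Fin M => U) K,
          IsTen n X δ γ U.subtype a 1 s → ∀ B, LinearIndependent K B → s B = 0 := by
  classical
  obtain ⟨hfin, hfr⟩ := finDim hn
  have htop : finrank K (⊤ : Submodule K (Derivation ℂ K K)) = n := by rw [finrank_top, hfr]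
  have hex : ∃ r, ∃ U : Submodule K (Derivation ℂ K K), finrank K U = r ∧ 0 < r ∧
      ¬ SecN (finrank K U) n X δ N U.subtype := ⟨_, ⊤, rfl, by rw [htop]; exact hn0, hnot⟩
  obtain ⟨U, hUr, hr0, hU⟩ := Nat.find_spec hex
  have hminr := fun r' (h : r' < Nat.find hex) => Nat.find_min hex h
  rw [← hUr] at hr0 hminr
  refine ⟨U, hr0, fun M a hMa γ hγ s hs B hB => ?_⟩
  by_contra hne
  obtain ⟨g, e, β, ω, hg, he, hβ, hω, hω0⟩ := hasFlag hn (Submodule.subtype_injective U) rfl hr0 hδ
    hMa hs ⟨B, hB, hne⟩ hB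
  apply hU
  obtain ⟨b, rfl⟩ := Int.eq_ofNat_of_zero_le hβ
  refine sec_of_mems hn (Submodule.subtype_injective U) rfl hr0 hδ hN (hN.smul hγ b) hg he
    (ω := ω) ⟨hω.1, fun P hP hdiv D hD hf => ⟨fun i hi hl => ?_, fun hl => ?_⟩⟩ hω0 fun j hj => ?_
  · refine Gr.mono (le_of_eq ?_) ((hω.2 P hP hdiv D hD hf).1 i hi hl)
    simp
  · refine Gr.mono (le_of_eq ?_) ((hω.2 P hP hdiv D hD hf).2 hl)
    simp
  · by_contra hcon
    obtain ⟨U', hU'⟩ : ∃ U', U' = (mem g e (e j) : Submodule K U).map U.subtype := ⟨_, rfl⟩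
    have ee : (mem g e (e j) : Submodule K U) ≃ₗ[K] U' :=
      (Submodule.equivMapOfInjective U.subtype
        (Submodule.subtype_injective U) _).trans (LinearEquiv.ofEq _ _ hU'.symm)
    have hfr' : finrank K U' = finrank K (mem g e (e j) : Submodule K U) :=
      (LinearEquiv.finrank_eq ee).symm
    have hlt : finrank K U' < finrank K U := by
      rw [hfr']
      exact Submodule.finrank_lt hj
    have hpos : 0 < finrank K U' := by
      rw [hfr']
      have h1 : g j ∈ (mem g e (e j) : Submodule K U) :=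
        Submodule.subset_span ⟨j, le_refl (e j), rfl⟩
      have hnt : Nontrivial (mem g e (e j) : Submodule K U) :=
        ⟨⟨⟨g j, h1⟩, 0, fun h => hg.ne_zero j (congrArg Subtype.val h)⟩⟩
      exact Module.finrank_pos (R := K) (M := (mem g e (e j) : Submodule K U))
    apply hminr _ hlt
    refine ⟨U', rfl, hpos, fun hS => hcon ?_⟩
    rw [hfr'] at hS
    refine secN_transport ((Submodule.equivMapOfInjective U.subtype
      (Submodule.subtype_injective U) _).trans (LinearEquiv.ofEq _ _ hU'.symm)) ?_ hS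
    intro v
    rfl

/-- The largest distribution without tensors. -/
theorem exists_largest [FiniteDimensional K (Derivation ℂ K K)] (hSum : S_Sum) (hBrk : S_Brk)
    {X : Set (Place ℂ K)} {δ : Place ℂ K → ℝ} (hδ : ∀ P ∈ X, 0 ≤ δ P)
    {N : Set (Place ℂ K → ℝ)} (hN : Neg n X N)
    {U : Submodule K (Derivation ℂ K K)} (hU : NoMix n X δ N U) :
    ∃ F : Submodule K (Derivation ℂ K K), NoMix n X δ N F ∧
      (∀ U : Submodule K (Derivation ℂ K K), NoMix n X δ N U → U ≤ F) ∧
      ∀ D ∈ F, ∀ D' ∈ F, ⁅D, D'⁆ ∈ F := by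
  classical
  have hex : ∃ d, ∃ F : Submodule K (Derivation ℂ K K), NoMix n X δ N F ∧
      finrank K (Derivation ℂ K K) - finrank K F = d := ⟨_, U, hU, rfl⟩
  obtain ⟨F, hF, hFd⟩ := Nat.find_spec hex
  have hmin := fun d' (h : d' < Nat.find hex) => Nat.find_min hex h
  rw [← hFd] at hmin
  have hmax : ∀ U : Submodule K (Derivation ℂ K K), NoMix n X δ N U → U ≤ F := by
    intro U hU
    have h1 := hSum K n X δ N F U inferInstance hδ hN hF hU
    have h2 : F = F ⊔ U := by
      refine Submodule.eq_of_le_of_finrank_le le_sup_left ?_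
      by_contra hcon
      have h3 := Submodule.finrank_le (F ⊔ U)
      exact hmin (finrank K (Derivation ℂ K K) - finrank K ↥(F ⊔ U)) (by omega) ⟨_, h1, rfl⟩
    rw [h2]
    exact le_sup_right
  refine ⟨F, hF, hmax, fun D hD D' hD' => ?_⟩
  exact hmax _ (hBrk K n X δ N F hδ hF)
    (Submodule.mem_sup_right (Submodule.subset_span ⟨D, hD, D', hD', rfl⟩))

end Pool.Agent.Helper91.SL
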