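import Pool.Agent.Helper91.SL.Fin3

/-!
Orders which refine a degree.
-/

set_option autoImplicit false
set_option linter.unusedSectionVars false

namespace Pool.Agent.Helper91.SL

open Module FF Pool.Agent.W602.GT Pool.Agent.W603.LV Pool.Agent.TH143.GT Pool.Agent.Y220.OG
  Pool.Agent.Helper12.BL Pool.Agent.Helper91.HM Pool.Agent.Helper91.HM.Tw

open Pool.Agent.Helper91.FD (finDim)
open Pool.Agent.Helper91.Ord (Divisor IsEffective IsOrder IsCanonicalOn IsDegree)

variable {K : Type} [Field K] [Algebra ℂ K] {n : ℕ}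

theorem eff_add {X : Set (Place ℂ K)} {a b : Place ℂ K → ℝ} (ha : Eff n X a) (hb : Eff n X b) :
    Eff n X (a + b) := by
  obtain ⟨f, hf, hfa⟩ := ha
  obtain ⟨g, hg, hgb⟩ := hb
  refine ⟨f * g, mul_ne_zero hf hg, fun P hP hd => ?_⟩
  have h1 := hfa P hP hd
  have h2 := hgb P hP hd
  rw [P.ord_mul hf hg, Pi.add_apply]
  push_cast
  linarith

theorem eff_zero {X : Set (Place ℂ K)} : Eff n X (0 : Place ℂ K → ℝ) :=
  ⟨1, one_ne_zero, fun P _ _ => by rw [P.ord_one]; simp⟩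

theorem refine_order [Algebra.EssFiniteType ℂ K] (hn : Algebra.trdeg ℂ K = n)
    {X : Set (Place ℂ K)} {δ : Place ℂ K → ℝ} (hδ : ∀ P ∈ X, 0 ≤ δ P)
    (hK : ¬ Tw.KodairaGe n X δ 0) {α : (Place ℂ K →₀ ℝ) → ℝ} (hα : IsDegree n X α)
    {κ : Place ℂ K →₀ ℝ} (hκ : IsCanonicalOn n X δ ⊤ κ) (hακ : α κ ≤ 0) :
    ∃ NonPos : Divisor K → Prop, IsOrder n X NonPos ∧ ¬ NonPos (-κ) ∧
      ∀ L : Place ℂ K →₀ ℝ, NonPos L → α L ≤ 0 := by
  classical
  obtain ⟨hfin, hfr⟩ := finDim hn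
  have htop : finrank K (⊤ : Submodule K (Derivation ℂ K K)) = n := by rw [finrank_top, hfr]
  obtain ⟨B, hB, hc⟩ := canOf_of hκ
  have hno : ∀ m : ℕ, 0 < m → ¬ Eff n X ((m : ℝ) • (κ : Place ℂ K → ℝ)) := by
    intro m hm heff
    apply hK
    subst htop
    exact kodaira_of_eff hn hδ hB hc hm heff
  have hα0 : α 0 = 0 := by
    have h1 := hα.add 0 0
    rw [add_zero] at h1
    linarith
  have hαm : ∀ (m : ℕ) (L : Place ℂ K →₀ ℝ), α ((m : ℝ) • L) = m * α L := by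
    intro m L
    induction m with
    | zero => simp [hα0]
    | succ m ih =>
      have h1 : ((m + 1 : ℕ) : ℝ) • L = (m : ℝ) • L + L := by push_cast; module
      rw [h1, hα.add, ih]
      push_cast
      ring
  obtain ⟨E, hE⟩ : ∃ E : Set (Place ℂ K → ℝ), ∀ γ, γ ∈ E ↔ (Eff n X γ ∨
      ∃ L : Place ℂ K →₀ ℝ, 0 < α L ∧ Eff n X (γ - L)) := ⟨{γ | _}, fun γ => Iff.rfl⟩
  obtain ⟨P, hPE, hadd, hsat, htot, hcP⟩ := abs_order E ((hE _).2 (Or.inl eff_zero))
    (by
      intro a ha b hb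
      rw [hE] at ha hb ⊢
      rcases ha with ha | ⟨L, hL, ha⟩ <;> rcases hb with hb | ⟨L', hL', hb⟩
      · exact Or.inl (eff_add ha hb)
      · refine Or.inr ⟨L', hL', ?_⟩
        have h1 := eff_add ha hb
        have h2 : a + (b - (L' : Place ℂ K → ℝ)) = a + b - L' := by abel
        rwa [h2] at h1
      · refine Or.inr ⟨L, hL, ?_⟩
        have h1 := eff_add ha hb
        have h2 : a - (L : Place ℂ K → ℝ) + b = a + b - L := by abel
        rwa [h2] at h1
      · refine Or.inr ⟨L + L', by rw [hα.add]; linarith, ?_⟩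
        have h1 := eff_add ha hb
        have h2 : a - (L : Place ℂ K → ℝ) + (b - (L' : Place ℂ K → ℝ)) =
            a + b - ((L + L' : Place ℂ K →₀ ℝ) : Place ℂ K → ℝ) := by
          rw [Finsupp.coe_add]
          abel
        rwa [h2] at h1) (κ : Place ℂ K → ℝ) (by
      intro m hm hmE
      rw [hE] at hmE
      rcases hmE with h1 | ⟨L, hL, h1⟩
      · exact hno m hm h1
      · have h2 : (m : ℝ) • (κ : Place ℂ K → ℝ) - (L : Place ℂ K → ℝ) =
            (((m : ℝ) • κ - L : Place ℂ K →₀ ℝ) : Place ℂ K → ℝ) := by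
          rw [Finsupp.coe_sub, Finsupp.coe_smul]
        rw [h2] at h1
        have h3 := hα.nonneg _ h1
        have h4 := hα.add ((m : ℝ) • κ - L) L
        rw [sub_add_cancel, hαm] at h4
        have h5 : (m : ℝ) * α κ ≤ 0 := mul_nonpos_of_nonneg_of_nonpos (Nat.cast_nonneg _) hακ
        linarith)
  refine ⟨fun γ => -γ ∈ P, ⟨fun a b ha hb => ?_, fun a => ?_, fun m a hm ha => ?_,
    fun a ha => ?_⟩, ?_, fun L hL => ?_⟩
  · rw [neg_add]
    exact hadd _ ha _ hb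
  · rcases htot a with h | h
    · right
      rwa [neg_neg]
    · left
      exact h
  · refine hsat m _ hm ?_
    rw [smul_neg]
    exact ha
  · rw [neg_neg]
    exact hPE ((hE _).2 (Or.inl ha))
  · change ¬ (- -(κ : Place ℂ K → ℝ) ∈ P)
    rw [neg_neg]
    exact hcP
  · by_contra hpos
    push Not at hpos
    obtain ⟨k, hk⟩ := exists_nat_gt (-α κ / α L)
    have h1 : 0 < α (κ + (k : ℝ) • L) := by
      rw [hα.add, hαm]
      have h2 : -α κ < k * α L := (div_lt_iff₀ hpos).1 hk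
      linarith
    have h2 : (κ : Place ℂ K → ℝ) + (k : ℝ) • (L : Place ℂ K → ℝ) ∈ P := by
      refine hPE ((hE _).2 (Or.inr ⟨κ + (k : ℝ) • L, h1, ?_⟩))
      have h3 : (κ : Place ℂ K → ℝ) + (k : ℝ) • (L : Place ℂ K → ℝ) -
          ((κ + (k : ℝ) • L : Place ℂ K →₀ ℝ) : Place ℂ K → ℝ) = 0 := by
        rw [Finsupp.coe_add, Finsupp.coe_smul, sub_self]
      rw [h3]
      exact eff_zero
    have h3 := nsmul_mem' P (hPE ((hE _).2 (Or.inl eff_zero))) hadd _ hL k
    have h4 := hadd _ h2 _ h3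
    apply hcP
    have h5 : (κ : Place ℂ K → ℝ) + (k : ℝ) • (L : Place ℂ K → ℝ) +
        (k : ℝ) • -(L : Place ℂ K → ℝ) = κ := by
      rw [smul_neg]
      abel
    rwa [h5] at h4

end Pool.Agent.Helper91.SL
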