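import Pool.Agent.Helper91.SL.FlagR
import Pool.Agent.Helper91.SL.Can
import Pool.Agent.Helper91.SL.KodR

/-!
Distributions which contain the largest distribution without tensors.
-/

set_option autoImplicit false
set_option linter.unusedSectionVars false

namespace Pool.Agent.Helper91.SL

open Module FF Pool.Agent.W602.GT Pool.Agent.W603.LV Pool.Agent.TH143.GT Pool.Agent.Y220.OG
  Pool.Agent.Helper12.BL Pool.Agent.Helper91.HM Pool.Agent.Helper91.HM.Tw

open Pool.Agent.Helper91.FE (IsTen IsFlag Mix lt_inj)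
open Pool.Agent.Helper91.FD (VReg VLog VInv dl IsFr mem Adp span_top finDim brk exists_adp li_of_fr)

section mix

variable {K : Type} [Field K] [Algebra ℂ K] {n : ℕ}

/-- restriction of the coefficient -/
theorem mix_sub {X : Set (Place ℂ K)} {δ γ : Place ℂ K → ℝ} {F U : Submodule K (Derivation ℂ K K)}
    (hFU : F ≤ U) {J : Type} [Fintype J] [DecidableEq J] {t : (J → Derivation ℂ K K) → K}
    (ht : Mix n X (dl δ U.subtype) γ (fun _ => F) t) :
    Mix n X (dl δ F.subtype) γ (fun _ => F) t := by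
  refine ⟨ht.1, fun P hP hdiv x hx hr => ?_⟩
  have h1 := ht.2 P hP hdiv x hx hr
  by_cases hP' : VInv F.subtype P
  · have h3 : Nat.card {j : J // ¬ DerLog P (x j)} = 0 := by
      rw [Nat.card_eq_zero]
      exact Or.inl ⟨fun j => j.2 (hP' ⟨x j, hx j⟩ (hr _))⟩
    rw [h3, Nat.cast_zero, zero_mul] at h1 ⊢
    exact h1
  · have h2 : dl δ U.subtype P = dl δ F.subtype P := by
      rw [dl, dl, if_neg hP', if_neg]
      intro h1
      exact hP' fun v hv => h1 ⟨v.1, hFU v.2⟩ hv
    rw [h2] at h1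
    exact h1

theorem Neg.of_split {X : Set (Place ℂ K)} {N : Set (Place ℂ K → ℝ)} (hN : Neg n X N)
    {L L' γ : Place ℂ K → ℝ} {m : ℕ} {g : K} (hg : g ≠ 0) (hγ : γ ∈ N)
    (h : ∀ P ∈ X, Divisorial n P → L P + L' P = m * γ P - P.ord g) (hL : L ∉ N) : L' ∈ N := by
  have h1 : L + L' - (m : ℝ) • γ ∈ N := by
    have h2 := hN.eff (-(L + L' - (m : ℝ) • γ)) ⟨g⁻¹, inv_ne_zero hg, fun P hP hdiv => by
      simp only [Pi.neg_apply, Pi.sub_apply, Pi.add_apply, Pi.smul_apply, smul_eq_mul]
      rw [h P hP hdiv, P.ord_inv]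
      push_cast
      linarith⟩
    rwa [neg_neg] at h2
  have h2 := hN.add _ h1 _ (hN.smul hγ m)
  rw [sub_add_cancel] at h2
  have h3 := (hN.total L).resolve_left hL
  have h4 := hN.add _ h2 _ h3
  have h5 : L + L' + -L = L' := by abel
  rwa [h5] at h4

/-- `U` has no tensors if the tensors on `U` which kill `F` vanish. -/
theorem noMix_of_rel (hSplit : S_Split) [FiniteDimensional K (Derivation ℂ K K)]
    {X : Set (Place ℂ K)} {δ : Place ℂ K → ℝ} (hδ : ∀ P ∈ X, 0 ≤ δ P) {N : Set (Place ℂ K → ℝ)}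
    (hN : Neg n X N) {F U : Submodule K (Derivation ℂ K K)} (hFU : F ≤ U) (hF : NoMix n X δ N F)
    (hrel : ∀ (J : Type) [Fintype J] [DecidableEq J], Nonempty J → ∀ γ ∈ N,
      ∀ t : (J → Derivation ℂ K K) → K, Mix n X (dl δ U.subtype) γ (fun _ => U) t →
        (∀ x, (∀ j, x j ∈ U) → (∃ j, x j ∈ F) → t x = 0) → ∀ x, (∀ j, x j ∈ U) → t x = 0) :
    NoMix n X δ N U := by
  classical
  intro J _ _ hJ γ hγ t ht x0 hx0
  by_contra hne
  have hd : ∀ P ∈ X, 0 ≤ dl δ U.subtype P := fun P hP => Pool.Agent.Helper91.FD.dl_nonneg (hδ P hP)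
  obtain ⟨S, hS, hmax⟩ := Finset.exists_max_image (Finset.univ.filter fun S : Finset J =>
    ∃ x, (∀ j, x j ∈ (if j ∈ S then F else U)) ∧ t x ≠ 0) Finset.card
    ⟨∅, Finset.mem_filter.2 ⟨Finset.mem_univ _, x0, fun j => by
      rw [if_neg (Finset.notMem_empty j)]
      exact hx0 j, hne⟩⟩
  obtain ⟨x1, hx1, hx1n⟩ := (Finset.mem_filter.1 hS).2
  have hle : ∀ j, (if j ∈ S then F else U) ≤ U := by
    intro j
    split_ifs
    · exact hFU
    · exact le_refl U
  have hkill : ∀ x, (∀ j, x j ∈ (if j ∈ S then F else U)) → (∃ j, j ∉ S ∧ x j ∈ F) → t x = 0 := by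
    rintro x hx ⟨j, hj, hxj⟩
    by_contra hxn
    have h1 := hmax (insert j S) (Finset.mem_filter.2 ⟨Finset.mem_univ _, x, fun i => ?_, hxn⟩)
    · rw [Finset.card_insert_of_notMem hj] at h1
      omega
    · by_cases hi : i = j
      · subst hi
        rw [if_pos (Finset.mem_insert_self _ _)]
        exact hxj
      · have h2 := hx i
        by_cases hiS : i ∈ S
        · rw [if_pos hiS] at h2
          rw [if_pos (Finset.mem_insert_of_mem hiS)]
          exact h2
        · rw [if_neg hiS] at h2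
          rw [if_neg fun h => (Finset.mem_insert.1 h).elim hi hiS]
          exact h2
  have htS : Mix n X (dl δ U.subtype) γ (fun j => if j ∈ S then F else U) t := ht.mono hle
  rcases S.eq_empty_or_nonempty with hSe | hSn
  · subst hSe
    refine hne (hrel J hJ γ hγ t ht (fun x hx hxF => ?_) x0 hx0)
    obtain ⟨j, hj⟩ := hxF
    exact hkill x (fun i => by
      rw [if_neg (Finset.notMem_empty i)]
      exact hx i) ⟨j, Finset.notMem_empty j, hj⟩
  rcases (Sᶜ).eq_empty_or_nonempty with hSe | hSn'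
  · rw [Finset.compl_eq_empty_iff] at hSe
    subst hSe
    simp only [Finset.mem_univ, if_true] at htS hx1
    exact hx1n (hF J hJ γ hγ t (mix_sub hFU htS) x1 hx1)
  · obtain ⟨r, r', L, L', g, m, α, β, hr, hr', hg, hsum, hα, ⟨y, hy, hyn⟩, hβ, ⟨z, hz, hzn⟩, hβF⟩ :=
      hSplit K n X (dl δ U.subtype) γ J S F U F t inferInstance hd hSn hSn' htS ⟨x1, hx1, hx1n⟩
    have hL : L ∉ N := fun hL => hyn (hF (Fin r) ⟨⟨0, hr⟩⟩ L hL α (mix_sub hFU hα) y hy)
    have hL' : L' ∈ N := hN.of_split hg hγ hsum hL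
    exact hzn (hrel (Fin r') ⟨⟨0, hr'⟩⟩ L' hL' β hβ (hβF hkill) z hz)

end mix

section transportR

variable {K : Type} [Field K] [Algebra ℂ K] {V V' : Type} [AddCommGroup V] [Module K V]
  [AddCommGroup V'] [Module K V'] {n r : ℕ}
  {ι : V →ₗ[K] Derivation ℂ K K} {ι' : V' →ₗ[K] Derivation ℂ K K}

theorem secR_transport (e : V ≃ₗ[K] V') (he : ∀ v, ι' (e v) = ι v) {X : Set (Place ℂ K)}
    {δ : Place ℂ K → ℝ} {N : Set (Place ℂ K → ℝ)} {κ : Place ℂ K → ℝ}
    (h : SecR r n X δ N κ ι') : SecR r n X δ N κ ι := by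
  have hreg : ∀ P v, VReg ι' P (e v) ↔ VReg ι P v := fun P v => by rw [VReg, VReg, he]
  have hlog : ∀ P v, VLog ι' P (e v) ↔ VLog ι P v := fun P v => by rw [VLog, VLog, he]
  have hinv : ∀ P, VInv ι' P ↔ VInv ι P := fun P => by
    constructor
    · intro hP v hv
      exact (hlog P v).1 (hP _ ((hreg P v).2 hv))
    · intro hP v hv
      obtain ⟨u, rfl⟩ := e.surjective v
      exact (hlog P u).2 (hP _ ((hreg P u).1 hv))
  have hdl : ∀ P, dl δ ι' P = dl δ ι P := fun P => by
    by_cases hP : VInv ι P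
    · rw [dl, dl, if_pos hP, if_pos ((hinv P).2 hP)]
    · rw [dl, dl, if_neg hP, if_neg fun h' => hP ((hinv P).1 h')]
  obtain ⟨m, hm, γ, hγ, ω, hω, D, hD⟩ := h
  refine ⟨m, hm, γ, hγ, fun B => ω (fun i => e (B i)), ⟨fun A D => ?_,
    fun P hP hdiv D hD => ?_⟩, fun i => e.symm (D i), ?_⟩
  · have h1 : (fun i => e (lt A D i)) = lt A (fun i => e (D i)) := by
      funext i
      rw [lt, map_sum]
      exact Finset.sum_congr rfl fun l _ => map_smul _ _ _
    change ω (fun i => e (lt A D i)) = A.det ^ m * ω (fun i => e (D i))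
    rw [h1, hω.1]
  · rw [← hdl]
    exact hω.2 P hP hdiv _ fun i => (hreg P _).2 (hD i)
  · simp only [LinearEquiv.apply_symm_apply]
    exact hD

end transportR

section can

variable {K : Type} [Field K] [Algebra ℂ K] {V : Type} [AddCommGroup V] [Module K V] {n r : ℕ}
  {ι : V →ₗ[K] Derivation ℂ K K}

/-- The section of a canonical divisor. -/
theorem secR_of_can [Algebra.EssFiniteType ℂ K] (hn : Algebra.trdeg ℂ K = n)
    (hι : Function.Injective ι) [FiniteDimensional K V] (hr : finrank K V = r)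
    {X : Set (Place ℂ K)} {δ : Place ℂ K → ℝ} {B0 : Fin r → V} (hB0 : LinearIndependent K B0)
    {c κ : Place ℂ K → ℝ} (hc : CanOf n X δ ι B0 c) {N : Set (Place ℂ K → ℝ)} (h : κ - c ∈ N) :
    SecR r n X δ N κ ι := by
  choose R hR using fun B : Fin r → V => exists_lt (D := B) (span_top hr hB0)
  have hRlt : ∀ (A : Matrix (Fin r) (Fin r) K) (B : Fin r → V), R (lt A B) = A * R B := by
    intro A B
    refine lt_inj hB0 ?_
    rw [← lt_lt, ← hR, ← hR]
  refine ⟨1, one_pos, -c, ?_, fun D => (R D).det, ⟨fun A D => ?_, fun P hP hdiv D hD => ?_⟩, B0, ?_⟩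
  · rw [Nat.cast_one, one_smul, neg_add_eq_sub]
    exact h
  · beta_reduce
    rw [hRlt, Matrix.det_mul, pow_one]
  · beta_reduce
    obtain ⟨E, hE, hf, -⟩ := exists_adp hn hι hr hB0 (fun _ => 0) hdiv
    have hE := hE.1
    obtain ⟨A, hA⟩ := exists_lt (D := B0) (span_top hr hE)
    obtain ⟨Y, hY⟩ := exists_lt (D := D) (span_top hr hE)
    have hA0 : A.det ≠ 0 := by
      have h1 := hB0
      rw [hA] at h1
      exact (lt_li.1 h1).2
    have h1 : A * R E = 1 := by
      refine lt_inj hB0 ?_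
      rw [← lt_lt, ← hR, ← hA, lt_one]
    have h2 : A.det * (R E).det = 1 := by rw [← Matrix.det_mul, h1, Matrix.det_one]
    have h3 : (R E).det ≠ 0 := right_ne_zero_of_mul (h2 ▸ one_ne_zero)
    have h4 : P.ord (R E).det = -P.ord A.det := by
      have h5 : P.ord A.det + P.ord (R E).det = 0 := by
        rw [← P.ord_mul hA0 h3, h2, P.ord_one]
      linarith
    have h5 : Gr P (P.ord (R E).det) (R E).det := Or.inr le_rfl
    rw [hY, hRlt, Matrix.det_mul]
    refine Gr.mono (le_of_eq ?_) ((det_reg (fr_reg hE hf hD hY)).mul h5)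
    rw [h4, Pi.neg_apply, hc P hP hdiv E A hf hA]
    push_cast
    ring
  · have h1 : R B0 = 1 := by
      refine lt_inj hB0 ?_
      rw [← hR, lt_one]
    beta_reduce
    rw [h1, Matrix.det_one]
    exact one_ne_zero

/-- Canonical divisors are unique up to principal divisors. -/
theorem can_sub [Algebra.EssFiniteType ℂ K] (hn : Algebra.trdeg ℂ K = n)
    (hι : Function.Injective ι) [FiniteDimensional K V] (hr : finrank K V = r)
    {X : Set (Place ℂ K)} {δ : Place ℂ K → ℝ} {B0 B0' : Fin r → V} (hB0 : LinearIndependent K B0)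
    (hB0' : LinearIndependent K B0')
    {c c' : Place ℂ K → ℝ} (hc : CanOf n X δ ι B0 c) (hc' : CanOf n X δ ι B0' c')
    {N : Set (Place ℂ K → ℝ)} (hN : Neg n X N) : c - c' ∈ N := by
  obtain ⟨C, hC⟩ := exists_lt (D := B0') (span_top hr hB0)
  have hC0 : C.det ≠ 0 := by
    have h1 := hB0'
    rw [hC] at h1
    exact (lt_li.1 h1).2
  have h1 := hN.eff (-(c - c')) ⟨C.det, hC0, fun P hP hdiv => by
    obtain ⟨E, hE, hf, -⟩ := exists_adp hn hι hr hB0 (fun _ => 0) hdiv
    have hE := hE.1
    obtain ⟨A, hA⟩ := exists_lt (D := B0) (span_top hr hE)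
    have hA0 : A.det ≠ 0 := by
      have h1 := hB0
      rw [hA] at h1
      exact (lt_li.1 h1).2
    have h1 : B0' = lt (C * A) E := by rw [← lt_lt, ← hA, ← hC]
    rw [Pi.neg_apply, Pi.sub_apply, hc P hP hdiv E A hf hA, hc' P hP hdiv E _ hf h1,
      Matrix.det_mul, P.ord_mul hC0 hA0]
    push_cast
    linarith⟩
  rwa [neg_neg] at h1

end can

variable {K : Type} [Field K] [Algebra ℂ K] {n : ℕ}

/-- a family of multilinear maps from a mixed tensor -/
theorem exists_ten {X : Set (Place ℂ K)} {δ γ : Place ℂ K → ℝ} {U : Submodule K (Derivation ℂ K K)}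
    {J : Type} [Fintype J] [DecidableEq J] (hJ : Nonempty J) {u : (J → Derivation ℂ K K) → K}
    (hu : Mix n X (dl δ U.subtype) γ (fun _ => U) u) :
    ∃ M : ℕ, 0 < M ∧ ∃ e : J ≃ Fin M, ∃ T : MultilinearMap K (fun _ : Fin M => U) K,
      (∀ y : Fin M → U, T y = u (fun j => (y (e j) : Derivation ℂ K K))) ∧
        ∀ r, IsTen (r := r) n X δ γ U.subtype 0 1 (fun _ => T) := by
  obtain ⟨M, hM⟩ : ∃ M, M = Fintype.card J := ⟨_, rfl⟩
  have hM0 : 0 < M := hM ▸ Fintype.card_pos
  obtain ⟨e⟩ : Nonempty (J ≃ Fin M) := ⟨(Fintype.equivFin J).trans (finCongr hM.symm)⟩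
  have hupd : ∀ (inst : DecidableEq (Fin M)) (y : Fin M → U) (k : Fin M) (v : U),
      (fun j => ((@Function.update _ _ inst y k v (e j) : U) : Derivation ℂ K K)) =
        Function.update (fun j => (y (e j) : Derivation ℂ K K)) (e.symm k)
          (v : Derivation ℂ K K) := by
    intro inst y k v
    funext j
    by_cases hj : j = e.symm k
    · subst hj
      rw [Function.update_self, Equiv.apply_symm_apply, Function.update_self]
    · rw [Function.update_of_ne hj, Function.update_of_ne]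
      intro h'
      apply hj
      rw [← h', Equiv.symm_apply_apply]
  refine ⟨M, hM0, e, { toFun := fun y => u (fun j => (y (e j) : Derivation ℂ K K))
                       map_update_add' := ?_
                       map_update_smul' := ?_ }, fun y => rfl, fun r => ⟨fun A B _ _ => by
                         rw [zpow_zero, one_smul], fun P hP hdiv B _ y hy => ?_⟩⟩
  · intro inst y k v w
    rw [hupd, hupd, hupd]
    have h1 := hu.1 (fun j => (y (e j) : Derivation ℂ K K)) (fun j => (y (e j)).2)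
      (e.symm k) v v.2 w w.2 1
    rw [one_smul, one_mul] at h1
    exact h1
  · intro inst y k c v
    rw [hupd, hupd]
    have h1 := hu.1 (fun j => (y (e j) : Derivation ℂ K K)) (fun j => (y (e j)).2)
      (e.symm k) v v.2 0 (Submodule.zero_mem _) c
    rw [add_zero, Mix.zero hu (fun j => (y (e j)).2), add_zero] at h1
    exact h1
  · have h1 := hu.2 P hP hdiv (fun j => (y (e j) : Derivation ℂ K K))
      (fun j => (y (e j)).2) (fun j => hy (e j))
    have h2 : Nat.card {k : Fin M // ¬ VLog U.subtype P (y k)} =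
        Nat.card {j : J // ¬ DerLog P (y (e j) : Derivation ℂ K K)} := by
      refine Nat.card_congr ((Equiv.subtypeEquiv e fun j => ?_).symm)
      exact Iff.rfl
    change Gr P _ (u (fun j => (y (e j) : Derivation ℂ K K)))
    rw [h2]
    refine Gr.mono (le_of_eq ?_) h1
    push_cast
    ring

theorem can_bot [Algebra.EssFiniteType ℂ K] (hn : Algebra.trdeg ℂ K = n)
    {X : Set (Place ℂ K)} {δ : Place ℂ K → ℝ} {N : Set (Place ℂ K → ℝ)}
    (hN : Neg n X N) {F : Submodule K (Derivation ℂ K K)} (h : F = ⊥)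
    {BF : Fin (finrank K F) → F} (hBF : LinearIndependent K BF) {cF : Place ℂ K → ℝ}
    (hcF : CanOf n X δ F.subtype BF cF) (x : ℝ) : x • cF ∈ N := by
  obtain ⟨hfin, hfr⟩ := finDim hn
  have h1 := hN.eff (-(x • cF)) ⟨1, one_ne_zero, fun P hP hdiv => by
    obtain ⟨E, hE, hf, -⟩ := exists_adp hn (Submodule.subtype_injective F) rfl hBF
      (fun _ => 0) hdiv
    obtain ⟨A, hA⟩ := exists_lt (D := BF) (span_top rfl hE.1)
    have h2 : IsEmpty (Fin (finrank K F)) := by
      rw [h, finrank_bot]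
      infer_instance
    have h3 := hcF P hP hdiv _ A hf hA
    have h4 : dl δ F.subtype P = 0 := if_pos fun v _ => by
      have h5 : (v : Derivation ℂ K K) = 0 := by
        exact (Submodule.mem_bot K).1 (h.le v.2)
      change DerLog P (v : Derivation ℂ K K)
      rw [h5]
      intro f
      simp [FF.Place.Reg]
    rw [Pi.neg_apply, Pi.smul_apply, smul_eq_mul, h3, h4, Matrix.det_isEmpty, P.ord_one]
    simp⟩
  rwa [neg_neg] at h1

/-- **The quotient by the largest distribution is not positive.** -/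
theorem rel_main (hSplit : S_Split) (hCon : S_Contains) [Algebra.EssFiniteType ℂ K]
    (hn : Algebra.trdeg ℂ K = n)
    {X : Set (Place ℂ K)} {δ : Place ℂ K → ℝ} (hδ : ∀ P ∈ X, 0 ≤ δ P) {N : Set (Place ℂ K → ℝ)}
    (hN : Neg n X N) {F : Submodule K (Derivation ℂ K K)} (hF : NoMix n X δ N F)
    (hmax : ∀ U : Submodule K (Derivation ℂ K K), NoMix n X δ N U → U ≤ F)
    {BF : Fin (finrank K F) → F} (hBF : LinearIndependent K BF) {cF : Place ℂ K → ℝ}
    (hcF : CanOf n X δ F.subtype BF cF) (r : ℕ) :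
    ∀ U : Submodule K (Derivation ℂ K K), finrank K U = r → F ≤ U →
      ∀ (B : Fin (finrank K U) → U), LinearIndependent K B → ∀ c : Place ℂ K → ℝ,
        CanOf n X δ U.subtype B c → cF - c ∈ N := by
  classical
  obtain ⟨hfin, hfr⟩ := finDim hn
  induction r using Nat.strong_induction_on with
  | _ r ih =>
    intro U hUr hFU B hB c hc
    by_cases hUF : U = F
    · subst hUF
      exact can_sub hn (Submodule.subtype_injective U) rfl hBF hB hcF hc hN
    have hr0 : 0 < finrank K U := by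
      have h1 : U ≠ ⊥ := fun h => hUF (le_antisymm (h ▸ bot_le) hFU)
      have hnt : Nontrivial U := Submodule.nontrivial_iff_ne_bot.2 h1
      exact Module.finrank_pos (R := K) (M := U)
    -- a tensor which kills `F`
    have hnot : ¬ NoMix n X δ N U := fun h => hUF (le_antisymm (hmax U h) hFU)
    have hex : ∃ (M : ℕ) (γ : Place ℂ K → ℝ) (T : MultilinearMap K (fun _ : Fin M => U) K),
        0 < M ∧ γ ∈ N ∧ T ≠ 0 ∧ IsTen (r := finrank K U) n X δ γ U.subtype 0 1 (fun _ => T) ∧
          ∀ (x : Fin M → U) (k : Fin M), x k ∈ F.comap U.subtype → T x = 0 := by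
      by_contra hcon
      apply hnot
      refine noMix_of_rel hSplit hδ hN hFU hF fun J _ _ hJ γ hγ t ht htF x hx => ?_
      obtain ⟨M, hM, e, T, hT, hTen⟩ := exists_ten hJ ht
      by_contra hne
      refine hcon ⟨M, γ, T, hM, hγ, ?_, hTen _, fun y k hk => ?_⟩
      · rintro rfl
        have h1 := hT fun k => ⟨x (e.symm k), hx _⟩
        simp only [Equiv.symm_apply_apply] at h1
        exact hne h1.symm
      · rw [hT]
        exact htF _ (fun j => (y (e j)).2) ⟨e.symm k, by
          rw [Equiv.apply_symm_apply]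
          exact hk⟩
    obtain ⟨M, γ, T, hM, hγ, hT0, hTen, hTF⟩ := hex
    obtain ⟨g, e, β, ω, hg, he, hβ, hω, hω0, hmF, hmin⟩ : ∃ (g : Fin (finrank K U) → U)
        (e : Fin (finrank K U) → ℤ) (β : ℤ) (ω : (Fin (finrank K U) → U) → K),
        LinearIndependent K g ∧ 0 < ∑ j, e j ∧ 0 ≤ β ∧ IsFlag n X δ γ U.subtype g e β ω ∧
        (∃ D, Adp (K := K) g e D ∧ ω D ≠ 0) ∧
        (∀ j, F.comap U.subtype ≤ (mem g e (e j) : Submodule K U)) ∧
        (F ≠ ⊥ → ∀ j0, (∀ j, e j0 ≤ e j) → e j0 = 0) := by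
      by_cases hF0 : F = ⊥
      · obtain ⟨g, e, β, ω, hg, he, hβ, hω, hω0⟩ := hasFlag hn (Submodule.subtype_injective U) rfl
          hr0 hδ (by simpa using hM) hTen ⟨B, hB, hT0⟩ hB
        refine ⟨g, e, β, ω, hg, he, hβ, hω, hω0, fun j => ?_, fun h => absurd hF0 h⟩
        rw [hF0]
        intro v hv
        have h1 : (v : Derivation ℂ K K) = 0 := hv
        have h2 : v = 0 := Subtype.ext h1
        rw [h2]
        exact Submodule.zero_mem _
      · have hF0' : F.comap U.subtype ≠ ⊥ := by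
          intro h
          apply hF0
          rw [eq_bot_iff]
          intro v hv
          have h1 : (⟨v, hFU hv⟩ : U) ∈ F.comap U.subtype := hv
          rw [h, Submodule.mem_bot] at h1
          exact congrArg Subtype.val h1
        obtain ⟨g, e, β, ω, hg, he, hβ, hω, hω0, h1, h2⟩ := hasFlagR hCon hn
          (Submodule.subtype_injective U) rfl hr0 hδ hF0' hM hTen (fun _ _ x k hk => hTF x k hk)
            ⟨B, hB, hT0⟩ hB
        exact ⟨g, e, β, ω, hg, he, hβ, hω, hω0, h1, fun _ => h2⟩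
    obtain ⟨b, rfl⟩ := Int.eq_ofNat_of_zero_le hβ
    have hnull : F = ⊥ → ∀ x : ℝ, x • cF ∈ N := fun h x => can_bot hn hN h hBF hcF x
    obtain ⟨m, hm, γ', hγ', ω', hω', D, hD⟩ := secR_of_mems hn (Submodule.subtype_injective U) rfl
      hr0 hδ (κ := cF) (γ := (b : ℝ) • γ) hN hg he (fun j0 hj0 => by
        by_cases hF0 : F = ⊥
        · exact hN.add _ (hN.smul hγ b) _ (hnull hF0 _)
        · rw [hmin hF0 j0 hj0, Int.cast_zero, zero_smul, add_zero]
          exact hN.smul hγ b)
      (ω := ω) ⟨hω.1, fun P hP hdiv D hD hf => ⟨fun i hi hl => by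
        refine Gr.mono (le_of_eq ?_) ((hω.2 P hP hdiv D hD hf).1 i hi hl)
        simp, fun hl => by
        refine Gr.mono (le_of_eq ?_) ((hω.2 P hP hdiv D hD hf).2 hl)
        simp⟩⟩ hω0 (fun j hj => by
        obtain ⟨W, hW⟩ : ∃ W, W = (mem g e (e j) : Submodule K U) := ⟨_, rfl⟩
        rw [← hW] at hj ⊢
        obtain ⟨U', hU'⟩ : ∃ U', U' = W.map U.subtype := ⟨_, rfl⟩
        have ee : W ≃ₗ[K] U' := (Submodule.equivMapOfInjective U.subtype
          (Submodule.subtype_injective U) _).trans (LinearEquiv.ofEq _ _ hU'.symm)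
        have hfr' : finrank K U' = finrank K W := (LinearEquiv.finrank_eq ee).symm
        have hlt : finrank K U' < r := by
          rw [hfr', ← hUr]
          exact Submodule.finrank_lt hj
        have hFU' : F ≤ U' := by
          intro v hv
          rw [hU', Submodule.mem_map]
          refine ⟨⟨v, hFU hv⟩, ?_, rfl⟩
          rw [hW]
          exact hmF j hv
        have hB' := (Module.finBasis K U').linearIndependent
        obtain ⟨c', hc'⟩ := exists_canOf hn (Submodule.subtype_injective U') rfl X δ hB'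
        have h1 := ih _ hlt U' rfl hFU' _ hB' c' hc'
        have h2 := secR_of_can hn (Submodule.subtype_injective U') rfl hB' hc' h1
        rw [hfr'] at h2
        refine secR_transport ((Submodule.equivMapOfInjective U.subtype
          (Submodule.subtype_injective U) _).trans (LinearEquiv.ofEq _ _ hU'.symm)) ?_ h2
        intro v
        rfl)
    have h1 := hN.eff _ (eff_of_sec hn (Submodule.subtype_injective U) rfl hB hc hω' hD)
    have h2 := hN.add _ h1 _ hγ'
    refine hN.sat m _ hm ?_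
    have h3 : -((m : ℝ) • c + γ') + (γ' + (m : ℝ) • cF) = (m : ℝ) • (cF - c) := by
      rw [smul_sub]
      abel
    rwa [h3] at h2

end Pool.Agent.Helper91.SL
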