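import Pool.Agent.Helper91.SL.Can

/-!
The determinant of a quotient of distributions.
-/

set_option autoImplicit false
set_option linter.unusedSectionVars false

namespace Pool.Agent.Helper91.SL

open Module FF Pool.Agent.W602.GT Pool.Agent.W603.LV Pool.Agent.TH143.GT Pool.Agent.Y220.OG
  Pool.Agent.Helper12.BL Pool.Agent.Helper91.HM Pool.Agent.Helper91.HM.Tw

open Pool.Agent.Helper91.FE (Mix IsTen)
open Pool.Agent.Helper91.FD (VReg VLog VInv dl IsFr brk)

/-- Q4: the determinant of `G / W` is a tensor on `G` with values in `c_W - c_G` -/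
def S_Det : Prop :=
  ∀ (K : Type) [Field K] [Algebra ℂ K] [Algebra.EssFiniteType ℂ K] (n : ℕ)
    (X : Set (Place ℂ K)) (δ : Place ℂ K → ℝ) (W G : Submodule K (Derivation ℂ K K)),
    Algebra.trdeg ℂ K = n → (∀ P ∈ X, 0 ≤ δ P) → (∀ P ∈ X, δ P ≤ 1) → W ≤ G → W ≠ G →
    ∀ (BW : Fin (finrank K W) → W) (BG : Fin (finrank K G) → G) (cW cG : Place ℂ K → ℝ),
      LinearIndependent K BW → LinearIndependent K BG → CanOf n X δ W.subtype BW cW →
      CanOf n X δ G.subtype BG cG → ∃ (q : ℕ) (t : (Fin q → Derivation ℂ K K) → K), 0 < q ∧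
        Mix n X (dl δ G.subtype) (cW - cG) (fun _ => G) t ∧
        ∀ F : Submodule K (Derivation ℂ K K), W ⊔ F = G → ∃ x, (∀ j, x j ∈ F) ∧ t x ≠ 0

end Pool.Agent.Helper91.SL
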